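import Pool.Agent.Helper15.UL.Basic3

/-! # MP_57a173_lc: pure maps, covers -/

set_option linter.unusedSectionVars false

noncomputable section

namespace UL

variable {I : Type} [LinearOrder I]

theorem Pure.isM {q : I → ℕ} {f : Pt I → Pt I} (h : Pure q f) : IsM f := by
  obtain ⟨L, hL, -⟩ := h
  exact ⟨L, hL⟩

theorem Pure.rep {q : I → ℕ} {f : Pt I → Pt I} (h : Pure q f) {L : I → Pt I → Str → Str}
    (hL : IsRep L f) {ξ : I} {z : Pt I} {σ : Str} (hσ : σ.length + 1 = q ξ) :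
    ∃ j, L ξ z σ = σ ++ zs j := by
  obtain ⟨L', hL', h'⟩ := h
  rw [hL.uniq hL']
  exact h' ξ z σ hσ

theorem Pure.rep_lt {q : I → ℕ} {f : Pt I → Pt I} (h : Pure q f) {L : I → Pt I → Str → Str}
    (hL : IsRep L f) {ξ : I} {z : Pt I} {σ : Str} (hσ : σ.length + 1 < q ξ) :
    L ξ z σ = σ := by
  have hl := (hL.isL ξ z).length_le σ
  have key : ∀ b : Bool, (L ξ z σ ++ [b]) <+: (σ ++ b :: zs (q ξ - 1 - σ.length - 1)) ++
      zs (Classical.choose (h.rep hL (ξ := ξ) (z := z)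
        (σ := σ ++ b :: zs (q ξ - 1 - σ.length - 1)) (by simp [zs]; omega))) := by
    intro b
    have h1 := Classical.choose_spec (h.rep hL (ξ := ξ) (z := z)
        (σ := σ ++ b :: zs (q ξ - 1 - σ.length - 1)) (by simp [zs]; omega))
    rw [← h1]
    refine ((hL.isL ξ z).bit σ b).trans ?_
    apply (hL.isL ξ z).mono'
    exact ⟨zs (q ξ - 1 - σ.length - 1), by simp⟩
  have hle : (L ξ z σ).length ≤ σ.length := by
    by_contra hc
    push Not at hc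
    obtain ⟨t, ht⟩ := key true
    have h2 := congrArg (fun l => l[(L ξ z σ).length]?) ht
    simp only [List.append_assoc] at h2
    rw [List.getElem?_append_right (le_refl _)] at h2
    simp only [Nat.sub_self, List.cons_append, List.getElem?_cons_zero] at h2
    rw [List.getElem?_append_right hc.le, List.getElem?_cons] at h2
    have h3 : (L ξ z σ).length - σ.length ≠ 0 := by omega
    simp only [h3, if_false] at h2
    rw [show ∀ a b, (zs a ++ zs b : Str) = zs (a + b) from fun a b => by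
      simp [zs, List.replicate_append_replicate]] at h2
    have h4 := h2.symm
    rw [List.getElem?_replicate] at h4
    split_ifs at h4
    exact absurd h4 (by simp)
  obtain ⟨t, ht⟩ := key true
  have h5 : σ <+: L ξ z σ ++ [true] ++ t := by
    rw [ht]; exact ⟨_, by rw [List.append_assoc]⟩
  rw [List.append_assoc] at h5
  have h6 := List.prefix_of_prefix_length_le h5 (List.prefix_append (L ξ z σ) _) hl
  exact (h6.eq_of_length_le hle).symm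

theorem Pure.id' (q : I → ℕ) : Pure q (id : Pt I → Pt I) :=
  ⟨_, IsRep.id', fun _ _ σ _ => ⟨0, by simp [zs]⟩⟩

theorem Pure.mono {q q' : I → ℕ} {f : Pt I → Pt I} (h : Pure q' f)
    (hq : ∀ ξ, q ξ ≠ 0 → q ξ ≤ q' ξ) : Pure q f := by
  obtain ⟨L, hL⟩ := h.isM
  refine ⟨L, hL, fun ξ z σ hσ => ?_⟩
  have h1 := hq ξ (by omega)
  rcases Nat.lt_or_ge (σ.length + 1) (q' ξ) with h2 | h2
  · exact ⟨0, by rw [h.rep_lt hL h2]; simp [zs]⟩
  · exact h.rep hL (by omega)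

theorem Pure.comp {q : I → ℕ} {f g : Pt I → Pt I} (hf : Pure q f) (hg : Pure q g) :
    Pure q (f ∘ g) := by
  obtain ⟨L, hL⟩ := hf.isM
  obtain ⟨L', hL'⟩ := hg.isM
  refine ⟨_, hL.comp hL', fun ξ z σ hσ => ?_⟩
  obtain ⟨j, hj⟩ := hg.rep hL' (ξ := ξ) (z := z) hσ
  obtain ⟨k, hk⟩ := hf.rep hL (ξ := ξ) (z := g z) hσ
  obtain ⟨l, -, hl⟩ := (hL.isL ξ (g z)).zeros σ j
  refine ⟨k + l, ?_⟩
  show L ξ (g z) (L' ξ z σ) = σ ++ zs (k + l)
  rw [hj, hl, hk]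
  simp [zs, List.replicate_append_replicate]

/-- The first bits are not changed. -/
theorem Pure.pre {q : I → ℕ} {f : Pt I → Pt I} (h : Pure q f) (z : Pt I) (ξ : I) :
    Pre (res (z ξ) (q ξ - 1)) (f z ξ) := by
  obtain ⟨L, hL⟩ := h.isM
  rcases Nat.eq_zero_or_pos (q ξ) with h0 | h0
  · rw [h0]; exact pre_nil _
  · have h1 := hL.pre z ξ (q ξ - 1)
    obtain ⟨j, hj⟩ := h.rep hL (ξ := ξ) (z := z) (σ := res (z ξ) (q ξ - 1)) (by simp; omega)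
    rw [hj] at h1
    exact h1.mono (List.prefix_append _ _)

theorem Pure.bits {q : I → ℕ} {f : Pt I → Pt I} (h : Pure q f) {z : Pt I} {ξ : I} {i : ℕ}
    (hi : i + 1 < q ξ) : f z ξ i = z ξ i := by
  have h1 := h.pre z ξ i (by rw [res_length]; omega)
  rw [res_get] at h1
  exact h1.symm

theorem Cell.pre_iff {q : I → ℕ} {τ : I → Str} (hτ : τ ∈ Cell q) {z : Pt I} :
    z ∈ B τ ↔ ∀ ξ, τ ξ = res (z ξ) (q ξ - 1) :=
  forall_congr' fun ξ => by rw [UL.pre_iff, hτ ξ]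

theorem Pure.cell {q : I → ℕ} {f : Pt I → Pt I} (h : Pure q f) {τ : I → Str} (hτ : τ ∈ Cell q)
    {z : Pt I} (hz : z ∈ B τ) : f z ∈ B τ := by
  intro ξ
  have h1 := h.pre z ξ
  rwa [← (Cell.pre_iff hτ).1 hz ξ] at h1

theorem Pure.lo {q : I → ℕ} {f : Pt I → Pt I} (h : Pure q f) (D : Set I) :
    Pure q (UL.lo D f) := by
  obtain ⟨L, hL⟩ := h.isM
  classical
  refine ⟨_, hL.lo D, fun ξ z σ hσ => ?_⟩
  by_cases hξ : ξ ∈ D
  · simp only [hξ, if_true]; exact h.rep hL hσ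
  · simp only [hξ, if_false]; exact ⟨0, by simp [zs]⟩

theorem Pure.up {q : I → ℕ} {f : Pt I → Pt I} (h : Pure q f) (D : Set I) :
    Pure q (UL.up D f) := by
  obtain ⟨L, hL⟩ := h.isM
  classical
  refine ⟨_, hL.up D, fun ξ z σ hσ => ?_⟩
  by_cases hξ : ξ ∈ D
  · simp only [hξ, if_true]; exact ⟨0, by simp [zs]⟩
  · simp only [hξ, if_false]; exact h.rep hL hσ

theorem MD.pure {D : Set I} {f : Pt I → Pt I} (h : MD D f) {q : I → ℕ}
    (hq : ∀ ξ ∈ D, q ξ = 0) : Pure q f := by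
  obtain ⟨L, hL⟩ := h.1
  classical
  have h1 := hL.lo D
  rw [h.lo_eq] at h1
  refine ⟨_, h1, fun ξ z σ hσ => ?_⟩
  by_cases hξ : ξ ∈ D
  · rw [hq ξ hξ] at hσ; omega
  · simp only [hξ, if_false]; exact ⟨0, by simp [zs]⟩

theorem UD.pure {D : Set I} {f : Pt I → Pt I} (h : UD D f) {q : I → ℕ}
    (hq : ∀ ξ, ξ ∉ D → q ξ = 0) : Pure q f := by
  obtain ⟨L, hL⟩ := h.1
  classical
  have h1 := hL.up D
  rw [h.up_eq] at h1
  refine ⟨_, h1, fun ξ z σ hσ => ?_⟩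
  by_cases hξ : ξ ∈ D
  · simp only [hξ, if_true]; exact ⟨0, by simp [zs]⟩
  · rw [hq ξ hξ] at hσ; omega

theorem qon_in {D : Set I} {q : I → ℕ} {ξ : I} (h : ξ ∈ D) : qon D q ξ = q ξ := by simp [qon, h]
theorem qon_out {D : Set I} {q : I → ℕ} {ξ : I} (h : ξ ∉ D) : qon D q ξ = 0 := by simp [qon, h]
theorem qoff_in {D : Set I} {q : I → ℕ} {ξ : I} (h : ξ ∈ D) : qoff D q ξ = 0 := by
  simp [qoff, h]
theorem qoff_out {D : Set I} {q : I → ℕ} {ξ : I} (h : ξ ∉ D) : qoff D q ξ = q ξ := by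
  simp [qoff, h]
theorem q1_same (ε : I) (k : ℕ) : q1 ε k ε = k := by simp [q1]
theorem q1_ne {ε ξ : I} (k : ℕ) (h : ξ ≠ ε) : q1 ε k ξ = 0 := by simp [q1, h]

/-- A lower map which is pure on `D` and an upper map which is pure outside `D`. -/
theorem pure_comp {D : Set I} {q : I → ℕ} {ρ θ : Pt I → Pt I} (hρ : MD D ρ)
    (hρ' : Pure (qon D q) ρ) (hθ : UD D θ) (hθ' : Pure (qoff D q) θ) : Pure q (ρ ∘ θ) := by
  obtain ⟨L, hL⟩ := hρ.1
  obtain ⟨L', hL'⟩ := hθ.1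
  classical
  have h1 := hL.lo D
  rw [hρ.lo_eq] at h1
  have h2 := hL'.up D
  rw [hθ.up_eq] at h2
  refine ⟨_, h1.comp h2, fun ξ z σ hσ => ?_⟩
  by_cases hξ : ξ ∈ D
  · simp only [hξ, if_true]
    exact hρ'.rep hL (by rw [qon_in hξ]; exact hσ)
  · simp only [hξ, if_false]
    exact hθ'.rep hL' (by rw [qoff_out hξ]; exact hσ)

theorem Pure.of_lo_up {D : Set I} (hD : IsLowerSet D) {q : I → ℕ} {f : Pt I → Pt I}
    (hf : IsM f) (h1 : Pure (qon D q) (UL.lo D f)) (h2 : Pure (qoff D q) (UL.up D f)) :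
    Pure q f := by
  rw [hf.lo_up hD]
  exact pure_comp (hf.lo D) h1 (hf.up D) h2

theorem J_pure {τ : I → Str} (h : (Sp τ).Finite) {q : I → ℕ} (hq : ∀ ξ, q ξ ≠ 0 → τ ξ = []) :
    Pure q (J τ) :=
  ⟨_, J_rep h.countable, fun ξ z σ hσ => ⟨0, by rw [hq ξ (by omega)]; simp [zs]⟩⟩

theorem Pure.swap {D : Set I} (hD : IsLowerSet D) {q : I → ℕ} {θ χ : Pt I → Pt I}
    (hq : ∀ ξ ∈ D, q ξ = 0) (hθ : Pure q θ) (hχ : MD D χ) : Pure q (UL.up D (θ ∘ χ)) :=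
  (hθ.comp (hχ.pure hq)).up D

/-- Pure maps commute with cells. -/
theorem Pure.fact {q : I → ℕ} (hq : Fin0 q) {f : Pt I → Pt I} (h : Pure q f) {τ : I → Str}
    (hτ : τ ∈ Cell q) : ∃ g, IsM g ∧ f ∘ J τ = J τ ∘ g := by
  have hS : (Sp τ).Finite := hq.subset fun ξ hξ hc => hξ (by
    have := hτ ξ
    rw [hc] at this
    exact List.length_eq_zero_iff.1 this)
  obtain ⟨g, hg, hg', -⟩ := (h.isM.comp (J_isM hS)).strip hS.countable fun z =>
    h.cell hτ (J_mem_B τ z)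
  exact ⟨g, hg, hg'⟩

theorem Cell.fin_Sp {q : I → ℕ} (hq : Fin0 q) {τ : I → Str} (hτ : τ ∈ Cell q) :
    (Sp τ).Finite := hq.subset fun ξ hξ hc => hξ (by
    have := hτ ξ
    rw [hc] at this
    exact List.length_eq_zero_iff.1 this)

/-- The cell of a point. -/
def cell (q : I → ℕ) (z : Pt I) : I → Str := fun ξ => res (z ξ) (q ξ - 1)

theorem cell_mem (q : I → ℕ) (z : Pt I) : cell q z ∈ Cell q := fun ξ => by simp [cell]

theorem mem_cell (q : I → ℕ) (z : Pt I) : z ∈ B (cell q z) := fun ξ => pre_res _ _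

/-! ### Covers -/

theorem Cov.of {D : Set I} {f : Pt I → Pt I} {Q : (Pt I → Pt I) → Prop} (h : Q f) :
    Cov D f Q :=
  ⟨∅, Set.empty_subset _, Set.countable_empty, fun z => ⟨fun _ => [], by simp [Sp_nil],
    by simp [Sp_nil], mem_B_nil z, by rw [J_nil]; exact h⟩⟩

theorem Cov.imp {D : Set I} {f : Pt I → Pt I} {Q Q' : (Pt I → Pt I) → Prop} (h : Cov D f Q)
    (hQ : ∀ τ : I → Str, (Sp τ).Finite → Sp τ ⊆ D → Q (f ∘ J τ) → Q' (f ∘ J τ)) :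
    Cov D f Q' := by
  obtain ⟨A, hA, hc, h⟩ := h
  refine ⟨A, hA, hc, fun z => ?_⟩
  obtain ⟨τ, h1, h2, h3, h4⟩ := h z
  exact ⟨τ, h1, h2, h3, hQ τ h1 (h2.trans hA) h4⟩

theorem countable_cones (A : Set I) (hA : A.Countable) :
    {τ : I → Str | (Sp τ).Finite ∧ Sp τ ⊆ A}.Countable := by
  have : Countable A := hA.to_subtype
  classical
  let g : (Σ F : Finset A, (F → Str)) → (I → Str) := fun p ξ =>
    if h : ∃ a ∈ p.1, (a : I) = ξ then p.2 ⟨h.choose, h.choose_spec.1⟩ else []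
  refine (Set.countable_range g).mono ?_
  rintro τ ⟨hf, hs⟩
  refine ⟨⟨(hf.preimage (f := ((↑) : A → I)) Subtype.val_injective.injOn).toFinset,
    fun a => τ (a : A)⟩, ?_⟩
  funext ξ
  simp only [g]
  by_cases hξ : ξ ∈ Sp τ
  · have h : ∃ a ∈ (hf.preimage (f := ((↑) : A → I)) Subtype.val_injective.injOn).toFinset,
        (a : I) = ξ := ⟨⟨ξ, hs hξ⟩, by simpa using hξ, rfl⟩
    rw [dif_pos h]
    show τ (h.choose : A) = τ ξ
    rw [h.choose_spec.2]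
  · rw [dif_neg]
    · have : τ ξ = [] := by simpa [Sp] using hξ
      exact this.symm
    · rintro ⟨a, ha, rfl⟩
      exact hξ (by simpa using ha)

/-- Countably many cones. -/
theorem Cov.enum {D : Set I} {f : Pt I → Pt I} {Q : (Pt I → Pt I) → Prop} [Nonempty (Pt I)]
    (h : Cov D f Q) : ∃ τ : ℕ → I → Str, (∀ l, (Sp (τ l)).Finite ∧ Sp (τ l) ⊆ D ∧
      Q (f ∘ J (τ l))) ∧ ∀ z, ∃ l, z ∈ B (τ l) := by
  obtain ⟨A, hA, hc, h⟩ := h
  have hC : {τ : I → Str | ((Sp τ).Finite ∧ Sp τ ⊆ A) ∧ Q (f ∘ J τ)}.Countable :=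
    (countable_cones A hc).mono fun τ hτ => hτ.1
  obtain ⟨τ0, h1, h2, -, h4⟩ := h (Classical.arbitrary _)
  obtain ⟨τ, hτ⟩ := hC.exists_eq_range ⟨τ0, ⟨h1, h2⟩, h4⟩
  refine ⟨τ, fun l => ?_, fun z => ?_⟩
  · have : τ l ∈ {τ : I → Str | ((Sp τ).Finite ∧ Sp τ ⊆ A) ∧ Q (f ∘ J τ)} := hτ ▸ ⟨l, rfl⟩
    exact ⟨this.1.1, this.1.2.trans hA, this.2⟩
  · obtain ⟨τ1, h1, h2, h3, h4⟩ := h z
    have : τ1 ∈ Set.range τ := hτ ▸ ⟨⟨h1, h2⟩, h4⟩
    obtain ⟨l, rfl⟩ := this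
    exact ⟨l, h3⟩

theorem Cov.of_enum {D : Set I} {f : Pt I → Pt I} {Q : (Pt I → Pt I) → Prop} (τ : ℕ → I → Str)
    (h1 : ∀ l, (Sp (τ l)).Finite ∧ Sp (τ l) ⊆ D ∧ Q (f ∘ J (τ l))) (h2 : ∀ z, ∃ l, z ∈ B (τ l)) :
    Cov D f Q := by
  refine ⟨⋃ l, Sp (τ l), Set.iUnion_subset fun l => (h1 l).2.1,
    Set.countable_iUnion fun l => (h1 l).1.countable, fun z => ?_⟩
  obtain ⟨l, hl⟩ := h2 z
  exact ⟨τ l, (h1 l).1, Set.subset_iUnion (fun l => Sp (τ l)) l, hl, (h1 l).2.2⟩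

instance : Nonempty Y := ⟨oneY⟩

theorem Sp_append_finite {τ ρ : I → Str} (h1 : (Sp τ).Finite) (h2 : (Sp ρ).Finite) :
    (Sp fun ξ => τ ξ ++ ρ ξ).Finite := (h1.union h2).subset (Sp_append_subset τ ρ)

/-- Local of local. -/
theorem Cov.trans {D : Set I} {f : Pt I → Pt I} {Q : (Pt I → Pt I) → Prop}
    (h : Cov D f fun g => Cov D g Q) : Cov D f Q := by
  obtain ⟨τ, h1, h2⟩ := h.enum
  have h3 : ∀ l, ∃ ρ : ℕ → I → Str, (∀ k, (Sp (ρ k)).Finite ∧ Sp (ρ k) ⊆ D ∧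
      Q ((f ∘ J (τ l)) ∘ J (ρ k))) ∧ ∀ z, ∃ k, z ∈ B (ρ k) := fun l => (h1 l).2.2.enum
  choose ρ h4 h5 using h3
  refine Cov.of_enum (fun n => fun ξ => τ n.unpair.1 ξ ++ ρ n.unpair.1 n.unpair.2 ξ)
    (fun n => ⟨?_, ?_, ?_⟩) fun z => ?_
  · exact Sp_append_finite (h1 _).1 (h4 _ _).1
  · exact (Sp_append_subset _ _).trans (Set.union_subset (h1 _).2.1 (h4 _ _).2.1)
  · rw [← J_comp, ← Function.comp_assoc]
    exact (h4 _ _).2.2
  · obtain ⟨l, hl⟩ := h2 z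
    obtain ⟨w, rfl⟩ := mem_B_iff.1 hl
    obtain ⟨k, hk⟩ := h5 l w
    refine ⟨Nat.pair l k, ?_⟩
    simp only [Nat.unpair_pair]
    exact mem_B_append.2 hk

/-- Restriction of covers. -/
theorem Cov.comp {D : Set I} (hD : IsLowerSet D) {f g : Pt I → Pt I}
    {Q : (Pt I → Pt I) → Prop} (h : Cov D f Q) (hg : MD D g)
    (hQ : ∀ τ : I → Str, (Sp τ).Finite → Sp τ ⊆ D → Q (f ∘ J τ) → ∀ g', MD D g' →
      Q ((f ∘ J τ) ∘ g')) : Cov D (f ∘ g) Q := by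
  obtain ⟨A, hA, hc, h⟩ := h
  obtain ⟨A', hA', h'⟩ := hg.1.fact
  refine ⟨(A ∪ A') ∩ D, Set.inter_subset_right, (hc.union hA').mono Set.inter_subset_left,
    fun z => ?_⟩
  obtain ⟨τ, h1, h2, h3, h4⟩ := h (g z)
  obtain ⟨ρ, g', k1, k2, k3, k4, k5⟩ := h' τ z h1 h3
  have hρD : Sp ρ ⊆ D := fun ξ hξ => by
    obtain ⟨η, hη, hle⟩ := (k2 ξ hξ).2
    exact hD hle (hA (h2 hη))
  refine ⟨ρ, k1, fun ξ hξ => ⟨?_, hρD hξ⟩, k3, ?_⟩
  · exact (k2 ξ hξ).1.elim Or.inr fun h => Or.inl (h2 h)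
  · have e : (f ∘ g) ∘ J ρ = (f ∘ J τ) ∘ g' := by
      rw [Function.comp_assoc, k5, Function.comp_assoc]
    rw [e]
    refine hQ τ h1 (h2.trans hA) h4 g' ⟨k4, fun w ξ hξ => ?_⟩
    have e1 := congrFun (congrFun k5 w) ξ
    have t0 : τ ξ = [] := by
      by_contra hc'
      exact hξ (hA (h2 hc'))
    have r0 : ρ ξ = [] := by
      by_contra hc'
      exact hξ (hρD hc')
    rw [Function.comp_apply, Function.comp_apply, J_apply, t0, catY_nil, hg.2 _ ξ hξ, J_apply, r0,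
      catY_nil] at e1
    exact e1.symm

/-- Opn version. -/
theorem Cov.comp' {D : Set I} (hD : IsLowerSet D) {f g : Pt I → Pt I}
    {Q : (Pt I → Pt I) → Prop} (hf : MD D f) (hQ : Opn D Q) (h : Cov D f Q) (hg : MD D g) :
    Cov D (f ∘ g) Q :=
  h.comp hD hg fun _ h1 h2 h3 g' hg' => hQ _ g' (hf.comp (J_MD h1 h2)) h3 hg'

end UL
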