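import Pool.Agent.Helper15.UL.GoalsE
import Pool.Agent.Helper46.UC.Main

/-! # MP_57a173_lc: assembly of the forcing part (parametric) -/

noncomputable section

namespace UL

open Pool.Agent.Helper97.Ku NU

instance (I : Type) [LinearOrder I] : Nontrivial (BA I) :=
  ⟨⟨⊤, ⊥, fun h => RO.not_mem_bot (⟨id, IsM.id'⟩ : Mo I) (by rw [← h]; exact RO.mem_top _)⟩⟩

/-- The forcing part. -/
theorem asm (hfa : G_HFA) (ht : G_HT) (sigc : G_SIGC) (dich : G_DICH) (ord : G_ORD) :
    ∃ (L : Type) (_ : CompleteBooleanAlgebra L) (_ : Nontrivial L) (J : Type) (v : J → L),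
      Dich L J v ∧ SigC L J v := by
  obtain ⟨I, _, _, hI⟩ := ord
  have h1 := hfa I
  have h2 : HT I := ht I h1.1 h1.2
  exact ⟨BA I, inferInstance, inferInstance, I × ℕ, gv, dich I h1.1 h2 hI, sigc I h1.1⟩

end UL
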