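import Pool.Agent.Helper15.UL.Defs

/-! # MP_57a173_lc: basic lemmas on strings and cones -/

noncomputable section

namespace UL

/-! ### Strings -/

@[simp] theorem res_length (y : ℕ → Bool) (n : ℕ) : (res y n).length = n := by simp [res]

@[simp] theorem res_zero (y : ℕ → Bool) : res y 0 = [] := by simp [res]

theorem res_succ (y : ℕ → Bool) (n : ℕ) : res y (n + 1) = res y n ++ [y n] := by
  simp [res, List.range_succ]

theorem res_get (y : ℕ → Bool) (n i : ℕ) (h : i < (res y n).length) : (res y n)[i] = y i := by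
  simp [res]

theorem pre_res (y : ℕ → Bool) (n : ℕ) : Pre (res y n) y := fun i h => res_get y n i h

theorem pre_nil (y : ℕ → Bool) : Pre [] y := fun i h => absurd h (by simp)

theorem pre_iff {σ : Str} {y : ℕ → Bool} : Pre σ y ↔ σ = res y σ.length := by
  constructor
  · intro h
    apply List.ext_getElem (by simp)
    intro i h1 h2
    rw [h i h1, res_get]
  · intro h
    rw [h]
    exact pre_res y _

theorem pre_append {σ ρ : Str} {y : ℕ → Bool} :
    Pre (σ ++ ρ) y ↔ Pre σ y ∧ Pre ρ (fun i => y (i + σ.length)) := by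
  constructor
  · intro h
    refine ⟨fun i hi => ?_, fun i hi => ?_⟩
    · have := h i (by rw [List.length_append]; omega)
      rw [List.getElem_append_left hi] at this
      exact this
    · have := h (i + σ.length) (by rw [List.length_append]; omega)
      rw [List.getElem_append_right (by omega)] at this
      simpa using this
  · rintro ⟨h1, h2⟩ i hi
    by_cases h : i < σ.length
    · rw [List.getElem_append_left h]; exact h1 i h
    · rw [List.getElem_append_right (by omega)]
      have := h2 (i - σ.length) (by rw [List.length_append] at hi; omega)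
      rw [this]
      show y (i - σ.length + σ.length) = y i
      congr 1; omega

theorem Pre.mono {σ ρ : Str} {y : ℕ → Bool} (h : σ <+: ρ) (hρ : Pre ρ y) : Pre σ y := by
  obtain ⟨t, rfl⟩ := h
  exact (pre_append.1 hρ).1

theorem Pre.pfx {σ ρ : Str} {y : ℕ → Bool} (h : Pre σ y) (hρ : Pre ρ y)
    (hl : σ.length ≤ ρ.length) : σ <+: ρ := by
  rw [List.prefix_iff_eq_take]
  apply List.ext_getElem
  · simp [hl]
  · intro i h1 h2
    rw [List.getElem_take, h i h1, hρ i (by omega)]

theorem Pre.eq {σ ρ : Str} {y : ℕ → Bool} (h : Pre σ y) (hρ : Pre ρ y)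
    (hl : σ.length = ρ.length) : σ = ρ := by
  rw [pre_iff.1 h, pre_iff.1 hρ, hl]

theorem cat_lt {σ : Str} {y : ℕ → Bool} {i : ℕ} (h : i < σ.length) : cat σ y i = σ[i] := by
  simp [cat, h]

theorem cat_ge {σ : Str} {y : ℕ → Bool} {i : ℕ} (h : σ.length ≤ i) :
    cat σ y i = y (i - σ.length) := by
  simp [cat, not_lt.2 h]

@[simp] theorem cat_nil (y : ℕ → Bool) : cat [] y = y := by
  funext i; simp [cat]

@[simp] theorem catY_nil (y : Y) : catY [] y = y := Y.ext fun i => by simp [catY]

theorem catY_coe (σ : Str) (y : Y) : (catY σ y : ℕ → Bool) = cat σ y := rfl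

theorem pre_cat (σ : Str) (y : ℕ → Bool) : Pre σ (cat σ y) := fun i h => (cat_lt h).symm

theorem cat_add (σ : Str) (y : ℕ → Bool) (i : ℕ) : cat σ y (i + σ.length) = y i := by
  rw [cat_ge (by omega)]; congr 1; omega

theorem cat_append (σ ρ : Str) (y : ℕ → Bool) : cat (σ ++ ρ) y = cat σ (cat ρ y) := by
  funext i
  by_cases h : i < σ.length
  · rw [cat_lt h, cat_lt (by rw [List.length_append]; omega), List.getElem_append_left h]
  · rw [cat_ge (not_lt.1 h)]
    by_cases h2 : i - σ.length < ρ.length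
    · rw [cat_lt h2, cat_lt (by rw [List.length_append]; omega),
        List.getElem_append_right (not_lt.1 h)]
    · rw [cat_ge (not_lt.1 h2), cat_ge (by rw [List.length_append]; omega)]
      congr 1; rw [List.length_append]; omega

theorem catY_append (σ ρ : Str) (y : Y) : catY (σ ++ ρ) y = catY σ (catY ρ y) :=
  Y.ext fun i => congrFun (cat_append σ ρ y) i

theorem cat_inj {σ : Str} {x y : ℕ → Bool} (h : cat σ x = cat σ y) : x = y := by
  funext i
  have := congrFun h (i + σ.length)
  rwa [cat_add, cat_add] at this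

theorem pre_cat_append {σ ρ : Str} {y : ℕ → Bool} : Pre (σ ++ ρ) (cat σ y) ↔ Pre ρ y := by
  rw [pre_append]
  constructor
  · rintro ⟨_, h⟩ i hi
    have := h i hi
    simpa [cat_add] using this
  · intro h
    exact ⟨pre_cat σ y, fun i hi => by simpa [cat_add] using h i hi⟩

/-- Dropping the first `n` bits. -/
def dropY (n : ℕ) (y : Y) : Y := ⟨fun i => y (i + n), fun k => by
  obtain ⟨m, hm, hm'⟩ := y.2 (k + n)
  refine ⟨m - n, by omega, ?_⟩
  have e : m - n + n = m := by omega
  show y.1 (m - n + n) = true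
  rw [e]; exact hm'⟩

theorem dropY_coe (n : ℕ) (y : Y) (i : ℕ) : dropY n y i = y (i + n) := rfl

theorem catY_dropY {σ : Str} {y : Y} (h : Pre σ y) : catY σ (dropY σ.length y) = y :=
  Y.ext fun i => by
    rw [catY_coe]
    by_cases hi : i < σ.length
    · rw [cat_lt hi]; exact h i hi
    · have e : i - σ.length + σ.length = i := by omega
      rw [cat_ge (not_lt.1 hi), dropY_coe, e]

theorem dropY_catY (σ : Str) (y : Y) : dropY σ.length (catY σ y) = y :=
  Y.ext fun i => by rw [dropY_coe, catY_coe, cat_add]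

@[simp] theorem dropY_zero (y : Y) : dropY 0 y = y := Y.ext fun _ => rfl

/-! ### Laver maps of strings -/

namespace IsL

variable {Λ Λ' : Str → Str}

theorem id : IsL (fun σ => σ) := fun σ b => ⟨0, by simp [zs]⟩

theorem mono (h : IsL Λ) (σ ρ : Str) : Λ σ <+: Λ (σ ++ ρ) := by
  induction ρ using List.reverseRecOn with
  | nil => simp
  | append_singleton ρ b ih =>
    obtain ⟨j, hj⟩ := h (σ ++ ρ) b
    rw [← List.append_assoc, hj]
    exact ih.trans (List.prefix_append _ _)

theorem mono' (h : IsL Λ) {σ ρ : Str} (hp : σ <+: ρ) : Λ σ <+: Λ ρ := by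
  obtain ⟨t, rfl⟩ := hp
  exact h.mono σ t

theorem bit (h : IsL Λ) (σ : Str) (b : Bool) : (Λ σ ++ [b]) <+: Λ (σ ++ [b]) := by
  obtain ⟨j, hj⟩ := h σ b
  exact ⟨zs j, by rw [hj]; simp⟩

theorem length_add (h : IsL Λ) (σ ρ : Str) : (Λ σ).length + ρ.length ≤ (Λ (σ ++ ρ)).length := by
  induction ρ using List.reverseRecOn with
  | nil => simp
  | append_singleton ρ b ih =>
    obtain ⟨j, hj⟩ := h (σ ++ ρ) b
    rw [← List.append_assoc, hj]
    simp only [List.length_append, List.length_cons, List.length_nil, List.length_replicate]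
    omega

theorem length_le (h : IsL Λ) (σ : Str) : σ.length ≤ (Λ σ).length := by
  have := h.length_add [] σ
  simp only [List.nil_append] at this
  omega

theorem zeros (h : IsL Λ) (σ : Str) (j : ℕ) : ∃ j', j ≤ j' ∧ Λ (σ ++ zs j) = Λ σ ++ zs j' := by
  induction j with
  | zero => exact ⟨0, le_rfl, by simp [zs]⟩
  | succ j ih =>
    obtain ⟨j', hj, h'⟩ := ih
    obtain ⟨k, hk⟩ := h (σ ++ zs j) false
    refine ⟨j' + (k + 1), by omega, ?_⟩
    have e : zs (j + 1) = zs j ++ [false] := by
      simp [zs, List.replicate_succ']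
    rw [e, ← List.append_assoc, hk, h', List.append_assoc]
    congr 1
    rw [show (false :: zs k : Str) = zs (k + 1) by simp [zs, List.replicate_succ]]
    simp [zs, List.replicate_append_replicate]

theorem comp (h : IsL Λ) (h' : IsL Λ') : IsL (fun σ => Λ (Λ' σ)) := fun σ b => by
  obtain ⟨j, hj⟩ := h' σ b
  obtain ⟨k, hk⟩ := h (Λ' σ) b
  obtain ⟨l, -, hl⟩ := h.zeros (Λ' σ ++ [b]) j
  refine ⟨k + l, ?_⟩
  show Λ (Λ' (σ ++ [b])) = Λ (Λ' σ) ++ b :: zs (k + l)
  rw [hj, show Λ' σ ++ b :: zs j = (Λ' σ ++ [b]) ++ zs j by simp, hl, hk]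
  simp [zs, List.replicate_append_replicate]

theorem count (h : IsL Λ) (σ : Str) :
    (Λ σ).count true = (Λ []).count true + σ.count true := by
  induction σ using List.reverseRecOn with
  | nil => simp
  | append_singleton σ b ih =>
    obtain ⟨j, hj⟩ := h σ b
    rw [hj, List.count_append, List.count_append, ih, List.count_cons]
    have : (zs j).count true = 0 := by
      rw [List.count_eq_zero]; simp [zs]
    rw [this]
    simp [add_assoc, List.count_cons]

end IsL

variable {I : Type}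

/-! ### Cones -/

theorem J_apply (τ : I → Str) (z : Pt I) (ξ : I) : J τ z ξ = catY (τ ξ) (z ξ) := rfl

theorem J_mem_B (τ : I → Str) (z : Pt I) : J τ z ∈ B τ := fun _ => pre_cat _ _

theorem J_inj (τ : I → Str) : Function.Injective (J τ) := fun x y h => by
  funext ξ
  have := congrFun h ξ
  rw [J_apply, J_apply] at this
  exact Y.ext fun i => congrFun (cat_inj (congrArg Subtype.val this)) i

theorem mem_B_iff {τ : I → Str} {z : Pt I} : z ∈ B τ ↔ ∃ w, J τ w = z := by
  constructor
  · intro h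
    exact ⟨fun ξ => dropY (τ ξ).length (z ξ), funext fun ξ => catY_dropY (h ξ)⟩
  · rintro ⟨w, rfl⟩
    exact J_mem_B τ w

theorem J_comp (τ ρ : I → Str) : J τ ∘ J ρ = J (fun ξ => τ ξ ++ ρ ξ) := by
  funext z ξ
  exact (catY_append _ _ _).symm

theorem J_nil : J (fun _ : I => []) = id := by
  funext z ξ
  exact catY_nil _

theorem Sp_append_subset (τ ρ : I → Str) : Sp (fun ξ => τ ξ ++ ρ ξ) ⊆ Sp τ ∪ Sp ρ := by
  intro ξ h
  simp only [Sp, Set.mem_ofPred_eq, Set.mem_union] at *
  by_contra hc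
  push Not at hc
  exact h (by rw [hc.1, hc.2]; rfl)

open Classical in
/-- The cone of length `n` at the coordinates in `F` around `z`. -/
def cn (F : Finset I) (n : ℕ) (z : Pt I) : I → Str := fun ξ => if ξ ∈ F then res (z ξ) n else []

theorem cn_Sp (F : Finset I) (n : ℕ) (z : Pt I) : Sp (cn F n z) ⊆ F := by
  intro ξ h
  by_contra hc
  exact h (by simp [cn, show ξ ∉ F from hc])

theorem cn_fin (F : Finset I) (n : ℕ) (z : Pt I) : (Sp (cn F n z)).Finite :=
  F.finite_toSet.subset (cn_Sp F n z)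

theorem mem_cn (F : Finset I) (n : ℕ) (z : Pt I) : z ∈ B (cn F n z) := by
  intro ξ
  by_cases h : ξ ∈ F
  · simp only [cn, h, if_true]; exact pre_res _ _
  · simp only [cn, h, if_false]; exact pre_nil _

theorem mem_cn_iff {F : Finset I} {n : ℕ} {z z' : Pt I} :
    z' ∈ B (cn F n z) ↔ ∀ ξ ∈ F, ∀ i, i < n → z' ξ i = z ξ i := by
  constructor
  · intro h ξ hξ i hi
    have := h ξ
    simp only [cn, hξ, if_true] at this
    have h2 := this i (by simpa using hi)
    rw [res_get] at h2
    exact h2.symm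
  · intro h ξ
    by_cases hξ : ξ ∈ F
    · simp only [cn, hξ, if_true]
      intro i hi
      rw [res_get]
      exact (h ξ hξ i (by simpa using hi)).symm
    · simp only [cn, hξ, if_false]; exact pre_nil _

/-- Local constancy in terms of cones. -/
theorem LC_iff {D : Set I} {β : Type} {f : Pt I → β} : LC D f ↔
    ∃ A : Set I, A ⊆ D ∧ A.Countable ∧ ∀ z : Pt I, ∃ τ : I → Str, (Sp τ).Finite ∧ Sp τ ⊆ A ∧
      z ∈ B τ ∧ ∀ z' ∈ B τ, f z' = f z := by
  constructor
  · rintro ⟨A, hA, hc, h⟩
    refine ⟨A, hA, hc, fun z => ?_⟩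
    obtain ⟨F, hF, n, hn⟩ := h z
    exact ⟨cn F n z, cn_fin F n z, (cn_Sp F n z).trans hF, mem_cn F n z,
      fun z' hz' => hn z' (mem_cn_iff.1 hz')⟩
  · rintro ⟨A, hA, hc, h⟩
    refine ⟨A, hA, hc, fun z => ?_⟩
    obtain ⟨τ, hf, hS, hz, hτ⟩ := h z
    classical
    refine ⟨hf.toFinset, by simpa using hS, hf.toFinset.sup (fun ξ => (τ ξ).length), ?_⟩
    intro z' hz'
    refine hτ z' fun ξ => ?_
    by_cases hξ : ξ ∈ Sp τ
    · intro i hi
      have h1 := hz' ξ (by simpa using hξ) i (lt_of_lt_of_le hi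
        (Finset.le_sup (f := fun ξ => (τ ξ).length) (by simpa using hξ)))
      rw [h1]; exact hz ξ i hi
    · have : τ ξ = [] := by simpa [Sp] using hξ
      rw [this]; exact pre_nil _

theorem LC.dep {D : Set I} {β : Type} {f : Pt I → β} (h : LC D f) {z z' : Pt I}
    (hz : ∀ ξ ∈ D, z ξ = z' ξ) : f z = f z' := by
  obtain ⟨A, hA, -, h⟩ := h
  obtain ⟨F, hF, n, hn⟩ := h z'
  exact hn z fun ξ hξ i _ => by rw [hz ξ (hA (hF hξ))]

theorem LC.mono {D D' : Set I} {β : Type} {f : Pt I → β} (h : LC D f) (hD : D ⊆ D') : LC D' f := by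
  obtain ⟨A, hA, h⟩ := h
  exact ⟨A, hA.trans hD, h⟩

theorem LC.const {D : Set I} {β : Type} (b : β) : LC D (fun _ : Pt I => b) :=
  ⟨∅, Set.empty_subset _, Set.countable_empty, fun _ => ⟨∅, by simp, 0, fun _ _ => rfl⟩⟩

theorem LC.map {D : Set I} {β γ : Type} {f : Pt I → β} (h : LC D f) (g : β → γ) :
    LC D (fun z => g (f z)) := by
  obtain ⟨A, hA, hc, h⟩ := h
  refine ⟨A, hA, hc, fun z => ?_⟩
  obtain ⟨F, hF, n, hn⟩ := h z
  exact ⟨F, hF, n, fun z' hz' => congrArg g (hn z' hz')⟩

/-- A locally constant choice between countably many locally constant functions. -/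
theorem LC.bind {D : Set I} {β γ : Type} [Countable β] {f : Pt I → β} (h : LC D f)
    {g : β → Pt I → γ} (hg : ∀ b, LC D (g b)) : LC D (fun z => g (f z) z) := by
  obtain ⟨A, hA, hc, h⟩ := h
  choose A' hA' hc' h' using hg
  refine ⟨A ∪ ⋃ b, A' b, Set.union_subset hA (Set.iUnion_subset hA'),
    hc.union (Set.countable_iUnion hc'), fun z => ?_⟩
  obtain ⟨F, hF, n, hn⟩ := h z
  obtain ⟨F', hF', n', hn'⟩ := h' (f z) z
  classical
  refine ⟨F ∪ F', ?_, max n n', fun z' hz' => ?_⟩
  · rw [Finset.coe_union]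
    exact Set.union_subset_union hF (hF'.trans (Set.subset_iUnion A' (f z)))
  · have h1 : f z' = f z := hn z' fun ξ hξ i hi =>
      hz' ξ (Finset.mem_union_left _ hξ) i (lt_of_lt_of_le hi (le_max_left _ _))
    show g (f z') z' = g (f z) z
    rw [h1]
    exact hn' z' fun ξ hξ i hi =>
      hz' ξ (Finset.mem_union_right _ hξ) i (lt_of_lt_of_le hi (le_max_right _ _))

theorem LC.prod {D : Set I} {β γ : Type} {f : Pt I → β} (h : LC D f) {g : Pt I → γ}
    (hg : LC D g) : LC D (fun z => (f z, g z)) := by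
  obtain ⟨A, hA, hc, h⟩ := h
  obtain ⟨A', hA', hc', h'⟩ := hg
  classical
  refine ⟨A ∪ A', Set.union_subset hA hA', hc.union hc', fun z => ?_⟩
  obtain ⟨F, hF, n, hn⟩ := h z
  obtain ⟨F', hF', n', hn'⟩ := h' z
  refine ⟨F ∪ F', ?_, max n n', fun z' hz' => ?_⟩
  · rw [Finset.coe_union]; exact Set.union_subset_union hF hF'
  · have h1 : f z' = f z := hn z' fun ξ hξ i hi =>
      hz' ξ (Finset.mem_union_left _ hξ) i (lt_of_lt_of_le hi (le_max_left _ _))
    have h2 : g z' = g z := hn' z' fun ξ hξ i hi =>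
      hz' ξ (Finset.mem_union_right _ hξ) i (lt_of_lt_of_le hi (le_max_right _ _))
    show (f z', g z') = (f z, g z)
    rw [h1, h2]

theorem LC.map₂ {D : Set I} {β γ δ : Type} {f : Pt I → β} (h : LC D f) {g : Pt I → γ}
    (hg : LC D g) (k : β → γ → δ) : LC D (fun z => k (f z) (g z)) :=
  (h.prod hg).map fun p => k p.1 p.2

end UL
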