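import Pool.Agent.Helper15.UL.Basic

/-! # MP_57a173_lc: basic lemmas on the monoid -/

noncomputable section

namespace UL

/-- The constant sequence `1`. -/
def oneY : Y := ⟨fun _ => true, fun n => ⟨n, le_rfl, rfl⟩⟩

theorem exists_pre (σ : Str) : ∃ y : Y, Pre σ y := ⟨catY σ oneY, pre_cat _ _⟩

variable {I : Type}

open Classical in
/-- Change the coordinate `ξ`. -/
def upd (z : Pt I) (ξ : I) (y : Y) : Pt I := Function.update z ξ y

theorem upd_same (z : Pt I) (ξ : I) (y : Y) : upd z ξ y ξ = y := by simp [upd]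

theorem upd_ne (z : Pt I) {ξ η : I} (y : Y) (h : η ≠ ξ) : upd z ξ y η = z η := by simp [upd, h]

variable [LinearOrder I]

namespace IsRep

variable {L L' : I → Pt I → Str → Str} {f g : Pt I → Pt I}

theorem depL (h : IsRep L f) {z z' : Pt I} {ξ : I} (hz : ∀ η, η < ξ → z η = z' η) :
    L ξ z = L ξ z' := funext fun σ => (h.lc ξ σ).dep fun η hη => hz η hη

theorem val (h : IsRep L f) (z : Pt I) (ξ : I) (i : ℕ) :
    f z ξ i = (L ξ z (res (z ξ) (i + 1)))[i]'(by
      have := (h.isL ξ z).length_le (res (z ξ) (i + 1))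
      rw [res_length] at this; omega) := ((h.pre z ξ (i + 1)) i _).symm

theorem dep (h : IsRep L f) {z z' : Pt I} {ξ : I} (hz : ∀ η, η ≤ ξ → z η = z' η) :
    f z ξ = f z' ξ := by
  apply Y.ext
  intro i
  rw [h.val z ξ i, h.val z' ξ i]
  congr 1
  rw [h.depL (z' := z') fun η hη => hz η hη.le, hz ξ le_rfl]

theorem preσ (h : IsRep L f) {z : Pt I} {ξ : I} {σ : Str} (hσ : Pre σ (z ξ)) :
    Pre (L ξ z σ) (f z ξ) := by
  have := h.pre z ξ σ.length
  rwa [← pre_iff.1 hσ] at this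

theorem uniq (h : IsRep L f) (h' : IsRep L' f) : L = L' := by
  have key : ∀ {L L' : I → Pt I → Str → Str} (_ : IsRep L f) (_ : IsRep L' f) ξ z σ,
      (L ξ z σ).length ≤ (L' ξ z σ).length := by
    intro L L' h h' ξ z σ
    by_contra hc
    push Not at hc
    obtain ⟨y0, h0⟩ := exists_pre (σ ++ [false])
    obtain ⟨y1, h1⟩ := exists_pre (σ ++ [true])
    have a : ∀ (y : Y) (b : Bool), Pre (σ ++ [b]) y → f (upd z ξ y) ξ (L' ξ z σ).length = b := by
      intro y b hy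
      have e : L' ξ (upd z ξ y) = L' ξ z := h'.depL fun η hη => upd_ne z y hη.ne
      have hp : Pre (σ ++ [b]) (upd z ξ y ξ) := by rw [upd_same]; exact hy
      have h2 := (h'.preσ hp).mono ((h'.isL ξ _).bit σ b)
      rw [e] at h2
      have h3 := h2 (L' ξ z σ).length (by simp)
      rw [← h3]; simp
    have b : ∀ (y : Y) (b : Bool), Pre (σ ++ [b]) y →
        f (upd z ξ y) ξ (L' ξ z σ).length = (L ξ z σ)[(L' ξ z σ).length] := by
      intro y b hy
      have e : L ξ (upd z ξ y) = L ξ z := h.depL fun η hη => upd_ne z y hη.ne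
      have hp : Pre (σ ++ [b]) (upd z ξ y ξ) := by rw [upd_same]; exact hy
      have h2 := (h.preσ hp).mono ((h.isL ξ _).mono σ [b])
      rw [e] at h2
      exact (h2 _ hc).symm
    have c0 := a y0 false h0
    have c1 := a y1 true h1
    rw [b y0 false h0] at c0
    rw [b y1 true h1, c0] at c1
    exact absurd c1 (by simp)
  funext ξ z σ
  obtain ⟨y, hy⟩ := exists_pre σ
  have e : L ξ (upd z ξ y) = L ξ z := h.depL fun η hη => upd_ne z y hη.ne
  have e' : L' ξ (upd z ξ y) = L' ξ z := h'.depL fun η hη => upd_ne z y hη.ne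
  have hp : Pre σ (upd z ξ y ξ) := by rw [upd_same]; exact hy
  have h1 := h.preσ hp
  have h2 := h'.preσ hp
  rw [e] at h1
  rw [e'] at h2
  exact h1.eq h2 (le_antisymm (key h h' ξ z σ) (key h' h ξ z σ))

end IsRep

/-- A system of Laver maps of strings defines a map. -/
theorem exists_rep {L : I → Pt I → Str → Str} (h1 : ∀ ξ z, IsL (L ξ z))
    (h2 : ∀ ξ σ, LC (Set.Iio ξ) (fun z => L ξ z σ))
    (h3 : ∃ A : Set I, A.Countable ∧ ∀ ξ, ξ ∉ A → ∀ z σ, L ξ z σ = σ) : ∃ f, IsRep L f := by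
  have hlen : ∀ z ξ i, i < (L ξ z (res (z ξ) (i + 1))).length := fun z ξ i => by
    have := (h1 ξ z).length_le (res (z ξ) (i + 1))
    rw [res_length] at this; omega
  have hmono : ∀ (z : Pt I) ξ n m, n ≤ m → L ξ z (res (z ξ) n) <+: L ξ z (res (z ξ) m) := by
    intro z ξ n m h
    exact (h1 ξ z).mono' ((pre_res _ n).pfx (pre_res _ m) (by simpa using h))
  let v : Pt I → I → ℕ → Bool := fun z ξ i => (L ξ z (res (z ξ) (i + 1)))[i]'(hlen z ξ i)
  have hpre : ∀ z ξ n, Pre (L ξ z (res (z ξ) n)) (v z ξ) := by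
    intro z ξ n i hi
    rcases le_total n (i + 1) with h | h
    · obtain ⟨t, ht⟩ := hmono z ξ n (i + 1) h
      show _ = (L ξ z (res (z ξ) (i + 1)))[i]'_
      simp only [← ht, List.getElem_append_left hi]
    · obtain ⟨t, ht⟩ := hmono z ξ (i + 1) n h
      simp only [← ht]
      rw [List.getElem_append_left (hlen z ξ i)]
  have hv : ∀ z ξ n, ∃ m, n ≤ m ∧ v z ξ m = true := by
    intro z ξ n
    -- the number of ones in the image of a long initial segment is larger than `n`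
    have hc : ∀ k : ℕ, ∃ m, k ≤ (res (z ξ) m).count true := by
      intro k
      induction k with
      | zero => exact ⟨0, by simp⟩
      | succ k ih =>
        obtain ⟨m, hm⟩ := ih
        obtain ⟨p, hp, hp'⟩ := (z ξ).2 m
        refine ⟨p + 1, ?_⟩
        rw [res_succ, List.count_append]
        have e : (z ξ).1 p = true := hp'
        rw [e]
        have hpre : res (z ξ) m <+: res (z ξ) p :=
          (pre_res _ m).pfx (pre_res _ p) (by simpa using hp)
        have := hpre.sublist.count_le true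
        simp only [List.count_cons, List.count_nil]
        simp; omega
    obtain ⟨m, hm⟩ := hc (n + 1)
    by_contra hcon
    push Not at hcon
    have h4 : (L ξ z (res (z ξ) m)).count true ≥ n + 1 := by
      rw [(h1 ξ z).count]; omega
    have h5 : ∀ i, (h : i < (L ξ z (res (z ξ) m)).length) → n ≤ i →
        (L ξ z (res (z ξ) m))[i] = false := by
      intro i h hn
      rw [hpre z ξ m i h]
      simpa using hcon i hn
    have h6 : (L ξ z (res (z ξ) m)).count true ≤ n := by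
      set l := L ξ z (res (z ξ) m)
      have h7 : l.count true = (l.take n).count true + (l.drop n).count true := by
        rw [← List.count_append, List.take_append_drop]
      have h8 : (l.drop n).count true = 0 := by
        rw [List.count_eq_zero]
        intro hmem
        obtain ⟨i, hi, hi'⟩ := List.getElem_of_mem hmem
        rw [List.getElem_drop, h5 (n + i) (by rw [List.length_drop] at hi; omega) (by omega)] at hi'
        exact absurd hi' (by simp)
      have h9 : (l.take n).count true ≤ n := (List.count_le_length).trans (by simp)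
      omega
    omega
  exact ⟨fun z ξ => ⟨v z ξ, hv z ξ⟩, h1, h2, h3, hpre⟩

theorem IsRep.id' : IsRep (fun (_ : I) (_ : Pt I) σ => σ) id :=
  ⟨fun _ _ => IsL.id, fun _ _ => LC.const _, ⟨∅, Set.countable_empty, fun _ _ _ _ => rfl⟩,
    fun _ _ _ => pre_res _ _⟩

/-- A set of coordinates supporting `f`. -/
theorem IsRep.exists_sup {L : I → Pt I → Str → Str} {f : Pt I → Pt I} (h : IsRep L f) :
    ∃ A : Set I, A.Countable ∧ (∀ ξ, ξ ∉ A → ∀ z σ, L ξ z σ = σ) ∧
      ∀ ξ σ (z : Pt I), ∃ F : Finset I, (F : Set I) ⊆ A ∩ Set.Iio ξ ∧ ∃ n : ℕ,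
        ∀ z' : Pt I, (∀ η ∈ F, ∀ i, i < n → z' η i = z η i) → L ξ z' σ = L ξ z σ := by
  obtain ⟨A, hA, hA'⟩ := h.sup
  choose A' hA1 hA2 hA3 using h.lc
  refine ⟨A ∪ ⋃ ξ ∈ A, ⋃ σ, A' ξ σ, hA.union (hA.biUnion fun ξ _ =>
    Set.countable_iUnion fun σ => hA2 ξ σ), fun ξ hξ => hA' ξ fun hc => hξ (Or.inl hc), ?_⟩
  intro ξ σ z
  by_cases hξ : ξ ∈ A
  · obtain ⟨F, hF, n, hn⟩ := hA3 ξ σ z
    refine ⟨F, fun η hη => ⟨Or.inr ?_, hA1 ξ σ (hF hη)⟩, n, hn⟩
    exact Set.mem_biUnion hξ (Set.mem_iUnion.2 ⟨σ, hF hη⟩)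
  · exact ⟨∅, by simp, 0, fun z' _ => by rw [hA' ξ hξ, hA' ξ hξ]⟩

/-- Continuity. -/
theorem IsM.cont {f : Pt I → Pt I} (hf : IsM f) : ∃ A : Set I, A.Countable ∧
    ∀ (F : Finset I) (n : ℕ) (z : Pt I), ∃ (F' : Finset I) (n' : ℕ),
      (∀ ξ ∈ F', (ξ ∈ A ∨ ξ ∈ F) ∧ ∃ η ∈ F, ξ ≤ η) ∧
      ∀ z' : Pt I, (∀ ξ ∈ F', ∀ i, i < n' → z' ξ i = z ξ i) →
        ∀ ξ ∈ F, ∀ i, i < n → f z' ξ i = f z ξ i := by
  obtain ⟨L, h⟩ := hf
  obtain ⟨A, hA, -, hA2⟩ := h.exists_sup
  refine ⟨A, hA, fun F n z => ?_⟩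
  choose G hG m hm using fun ξ => hA2 ξ (res (z ξ) n) z
  classical
  refine ⟨F ∪ F.biUnion G, max n (F.sup m), ?_, ?_⟩
  · intro ξ hξ
    rw [Finset.mem_union, Finset.mem_biUnion] at hξ
    rcases hξ with hξ | ⟨η, hη, hξ⟩
    · exact ⟨Or.inr hξ, ξ, hξ, le_rfl⟩
    · have := hG η hξ
      exact ⟨Or.inl this.1, η, hη, (show ξ < η from this.2).le⟩
  · intro z' hz' ξ hξ i hi
    have e1 : L ξ z' (res (z ξ) n) = L ξ z (res (z ξ) n) := by
      refine hm ξ z' fun η hη j hj => hz' η ?_ j ?_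
      · exact Finset.mem_union_right _ (Finset.mem_biUnion.2 ⟨ξ, hξ, hη⟩)
      · exact lt_of_lt_of_le hj ((Finset.le_sup (f := m) hξ).trans (le_max_right _ _))
    have e2 : Pre (res (z ξ) n) (z' ξ) := by
      intro j hj
      rw [res_get]
      exact (hz' ξ (Finset.mem_union_left _ hξ) j (lt_of_lt_of_le (by simpa using hj)
        (le_max_left _ _))).symm
    have p1 := h.preσ e2
    have p2 := h.preσ (pre_res (z ξ) n)
    rw [e1] at p1
    have hl : i < (L ξ z (res (z ξ) n)).length := by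
      have := (h.isL ξ z).length_le (res (z ξ) n)
      rw [res_length] at this; omega
    rw [← p1 i hl, ← p2 i hl]

/-- Composition with a locally constant function. -/
theorem LC.comp {D : Set I} (hD : IsLowerSet D) {β : Type} {k : Pt I → β} (hk : LC D k)
    {f : Pt I → Pt I} (hf : IsM f) : LC D (fun z => k (f z)) := by
  obtain ⟨A, hA, hc, h⟩ := hk
  obtain ⟨A', hc', h'⟩ := hf.cont
  refine ⟨(A ∪ A') ∩ D, Set.inter_subset_right, (hc.union hc').mono Set.inter_subset_left,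
    fun z => ?_⟩
  obtain ⟨F, hF, n, hn⟩ := h (f z)
  obtain ⟨F', n', h1, h2⟩ := h' F n z
  refine ⟨F', fun ξ hξ => ?_, n', fun z' hz' => hn (f z') fun ξ hξ i hi => h2 z' hz' ξ hξ i hi⟩
  obtain ⟨h3, η, hη, h4⟩ := h1 ξ hξ
  exact ⟨h3.elim Or.inr fun h5 => Or.inl (hF h5), hD h4 (hA (hF hη))⟩

/-- Composition of representations. -/
theorem IsRep.comp {L L' : I → Pt I → Str → Str} {f g : Pt I → Pt I} (h : IsRep L f)
    (h' : IsRep L' g) : IsRep (fun ξ z σ => L ξ (g z) (L' ξ z σ)) (f ∘ g) := by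
  refine ⟨fun ξ z => (h.isL ξ _).comp (h'.isL ξ z), fun ξ σ => ?_, ?_, ?_⟩
  · exact LC.bind (g := fun ρ z => L ξ (g z) ρ) (h'.lc ξ σ) fun ρ =>
      (h.lc ξ ρ).comp (isLowerSet_Iio ξ) ⟨L', h'⟩
  · obtain ⟨A, hA, h1⟩ := h.sup
    obtain ⟨A', hA', h2⟩ := h'.sup
    refine ⟨A ∪ A', hA.union hA', fun ξ hξ z σ => ?_⟩
    rw [h2 ξ (fun hc => hξ (Or.inr hc)), h1 ξ (fun hc => hξ (Or.inl hc))]
  · intro z ξ n
    exact h.preσ (h'.pre z ξ n)

theorem IsM.id' : IsM (id : Pt I → Pt I) := ⟨_, IsRep.id'⟩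

theorem IsM.comp {f g : Pt I → Pt I} (hf : IsM f) (hg : IsM g) : IsM (f ∘ g) := by
  obtain ⟨L, h⟩ := hf
  obtain ⟨L', h'⟩ := hg
  exact ⟨_, h.comp h'⟩

theorem IsM.dep {f : Pt I → Pt I} (hf : IsM f) {z z' : Pt I} {ξ : I}
    (hz : ∀ η, η ≤ ξ → z η = z' η) : f z ξ = f z' ξ := by
  obtain ⟨L, h⟩ := hf
  exact h.dep hz

end UL
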