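import Pool.Agent.Helper15.UL.Basic2

/-! # MP_57a173_lc: cones, lower and upper parts, pure maps -/

noncomputable section

namespace UL

variable {I : Type}

theorem B_iff_range (τ : I → Str) : B τ = Set.range (J τ) := by
  ext z; rw [mem_B_iff]; rfl

/-- Removing `τ` (the inverse of `J τ` on `B τ`). -/
def strip (τ : I → Str) (z : Pt I) : Pt I := fun ξ => dropY (τ ξ).length (z ξ)

theorem J_strip {τ : I → Str} {z : Pt I} (h : z ∈ B τ) : J τ (strip τ z) = z :=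
  funext fun ξ => catY_dropY (h ξ)

theorem strip_J (τ : I → Str) (z : Pt I) : strip τ (J τ z) = z :=
  funext fun ξ => dropY_catY (τ ξ) (z ξ)

theorem mem_B_nil (z : Pt I) : z ∈ B (fun _ : I => []) := fun _ => pre_nil _

theorem Sp_nil : Sp (fun _ : I => []) = ∅ := by ext ξ; simp [Sp]

theorem mem_B_append {τ ρ : I → Str} {z : Pt I} :
    J τ z ∈ B (fun ξ => τ ξ ++ ρ ξ) ↔ z ∈ B ρ :=
  forall_congr' fun _ => pre_cat_append

theorem at1_same (α : I) (σ : Str) : at1 α σ α = σ := by simp [at1]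

theorem at1_ne {α ξ : I} (σ : Str) (h : ξ ≠ α) : at1 α σ ξ = [] := by simp [at1, h]

theorem at1_Sp (α : I) (σ : Str) : Sp (at1 α σ) ⊆ {α} := by
  intro ξ h
  by_contra hc
  exact h (at1_ne σ hc)

theorem at1_fin (α : I) (σ : Str) : (Sp (at1 α σ)).Finite :=
  (Set.finite_singleton α).subset (at1_Sp α σ)

/-- Two cones containing `z` have a common refinement. -/
theorem cone_inter {τ ρ : I → Str} {z : Pt I} (hτ : z ∈ B τ) (hρ : z ∈ B ρ) :
    ∃ κ τ' ρ' : I → Str, z ∈ B κ ∧ (∀ ξ, κ ξ = τ ξ ∨ κ ξ = ρ ξ) ∧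
      (∀ ξ, κ ξ = τ ξ ++ τ' ξ) ∧ (∀ ξ, κ ξ = ρ ξ ++ ρ' ξ) := by
  classical
  have h : ∀ ξ, ∃ κ τ' ρ' : Str, Pre κ (z ξ) ∧ (κ = τ ξ ∨ κ = ρ ξ) ∧ κ = τ ξ ++ τ' ∧
      κ = ρ ξ ++ ρ' := by
    intro ξ
    rcases le_total (τ ξ).length (ρ ξ).length with h | h
    · obtain ⟨t, ht⟩ := (hτ ξ).pfx (hρ ξ) h
      exact ⟨ρ ξ, t, [], hρ ξ, Or.inr rfl, ht.symm, by simp⟩
    · obtain ⟨t, ht⟩ := (hρ ξ).pfx (hτ ξ) h
      exact ⟨τ ξ, [], t, hτ ξ, Or.inl rfl, by simp, ht.symm⟩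
  choose κ τ' ρ' h1 h2 h3 h4 using h
  exact ⟨κ, τ', ρ', h1, h2, h3, h4⟩

theorem Sp_of_prefix {κ τ : I → Str} (h : ∀ ξ, ∃ t, κ ξ = τ ξ ++ t) : Sp τ ⊆ Sp κ := by
  intro ξ hξ hc
  obtain ⟨t, ht⟩ := h ξ
  have hc' : κ ξ = [] := hc
  rw [hc'] at ht
  exact hξ (List.append_eq_nil_iff.1 ht.symm).1

theorem Sp_of_suffix {κ τ t : I → Str} (h : ∀ ξ, κ ξ = τ ξ ++ t ξ) : Sp t ⊆ Sp κ := by
  intro ξ hξ hc
  have hc' : κ ξ = [] := hc
  rw [h ξ] at hc'
  exact hξ (List.append_eq_nil_iff.1 hc').2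

set_option linter.unusedSectionVars false

variable [LinearOrder I]

/-- Representation of a cone map. -/
theorem J_rep {τ : I → Str} (h : (Sp τ).Countable) : IsRep (fun ξ _ σ => τ ξ ++ σ) (J τ) := by
  refine ⟨fun ξ z σ b => ⟨0, by simp [zs]⟩, fun ξ σ => LC.const _, ⟨Sp τ, h, fun ξ hξ z σ => ?_⟩,
    fun z ξ n => ?_⟩
  · have : τ ξ = [] := by simpa [Sp] using hξ
    rw [this]; rfl
  · exact pre_cat_append.2 (pre_res _ _)

theorem J_isM {τ : I → Str} (h : (Sp τ).Finite) : IsM (J τ) := ⟨_, J_rep h.countable⟩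

theorem J_MD {D : Set I} {τ : I → Str} (h : (Sp τ).Finite) (hD : Sp τ ⊆ D) : MD D (J τ) :=
  ⟨J_isM h, fun z ξ hξ => by
    have : τ ξ = [] := by
      by_contra hc
      exact hξ (hD hc)
    rw [J_apply, this, catY_nil]⟩

theorem J_UD {D : Set I} {τ : I → Str} (h : (Sp τ).Finite) (hD : ∀ ξ ∈ D, τ ξ = []) :
    UD D (J τ) :=
  ⟨J_isM h, fun z ξ hξ => by rw [J_apply, hD ξ hξ, catY_nil]⟩

/-- If all values are in the cone `B τ`, the map starts with `τ`. -/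
theorem IsRep.stem {L : I → Pt I → Str → Str} {f : Pt I → Pt I} (h : IsRep L f) {τ : I → Str}
    (hτ : ∀ z, f z ∈ B τ) (ξ : I) (z : Pt I) (σ : Str) : τ ξ <+: L ξ z σ := by
  refine List.IsPrefix.trans ?_ ((h.isL ξ z).mono' (List.nil_prefix (l := σ)))
  by_contra hc
  have e : ∀ y, L ξ (upd z ξ y) = L ξ z := fun y => h.depL fun η hη => upd_ne z y hη.ne
  have hpre : ∀ y, Pre (L ξ z []) (f (upd z ξ y) ξ) := fun y => by
    have := h.preσ (z := upd z ξ y) (ξ := ξ) (σ := []) (pre_nil _)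
    rwa [e y] at this
  have hlen : (L ξ z []).length < (τ ξ).length := by
    by_contra hl
    exact hc ((hτ (upd z ξ oneY) ξ).pfx (hpre oneY) (not_lt.1 hl))
  have hb : ∀ b : Bool, (τ ξ)[(L ξ z []).length] = b := by
    intro b
    obtain ⟨y, hy⟩ := exists_pre [b]
    have hp : Pre [b] (upd z ξ y ξ) := by rw [upd_same]; exact hy
    have h2 := (h.preσ hp).mono (by simpa using (h.isL ξ _).bit [] b)
    rw [e y] at h2
    have h3 := h2 (L ξ z []).length (by simp)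
    have h4 := hτ (upd z ξ y) ξ (L ξ z []).length hlen
    rw [h4, ← h3]; simp
  exact absurd ((hb true).symm.trans (hb false)) (by simp)

/-- Stripping a common initial segment. -/
theorem IsM.strip {f : Pt I → Pt I} (hf : IsM f) {τ : I → Str} (hS : (Sp τ).Countable)
    (hτ : ∀ z, f z ∈ B τ) : ∃ g, IsM g ∧ f = J τ ∘ g ∧ ∀ {L}, IsRep L f →
      IsRep (fun ξ z σ => (L ξ z σ).drop (τ ξ).length) g := by
  obtain ⟨L, h⟩ := hf
  have key : IsRep (fun ξ z σ => (L ξ z σ).drop (τ ξ).length) (fun z => UL.strip τ (f z)) := by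
    refine ⟨fun ξ z σ b => ?_, fun ξ σ => (h.lc ξ σ).map _, ?_, fun z ξ n => ?_⟩
    · obtain ⟨j, hj⟩ := h.isL ξ z σ b
      refine ⟨j, ?_⟩
      show (L ξ z (σ ++ [b])).drop _ = (L ξ z σ).drop _ ++ b :: zs j
      rw [hj, List.drop_append_of_le_length]
      exact (h.stem hτ ξ z σ).length_le
    · obtain ⟨A, hA, hA'⟩ := h.sup
      refine ⟨A ∪ Sp τ, hA.union hS, fun ξ hξ z σ => ?_⟩
      have h1 : τ ξ = [] := by
        by_contra hc
        exact hξ (Or.inr hc)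
      rw [h1, hA' ξ (fun hc => hξ (Or.inl hc))]; rfl
    · have h1 := h.pre z ξ n
      obtain ⟨t, ht⟩ := h.stem hτ ξ z (res (z ξ) n)
      rw [← ht, List.drop_left]
      rw [← ht, pre_append] at h1
      exact h1.2
  refine ⟨fun z => UL.strip τ (f z), ⟨_, key⟩, funext fun z => (J_strip (hτ z)).symm, ?_⟩
  intro L' h'
  rw [h'.uniq h]; exact key

/-- Factoring through a cone. -/
theorem IsM.fact {f : Pt I → Pt I} (hf : IsM f) : ∃ A : Set I, A.Countable ∧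
    ∀ (τ : I → Str) (z : Pt I), (Sp τ).Finite → f z ∈ B τ → ∃ (ρ : I → Str) (g : Pt I → Pt I),
      (Sp ρ).Finite ∧ (∀ ξ ∈ Sp ρ, (ξ ∈ A ∨ ξ ∈ Sp τ) ∧ ∃ η ∈ Sp τ, ξ ≤ η) ∧ z ∈ B ρ ∧
      IsM g ∧ f ∘ J ρ = J τ ∘ g := by
  obtain ⟨A, hA, h⟩ := hf.cont
  refine ⟨A, hA, fun τ z hf' hz => ?_⟩
  classical
  obtain ⟨F', n', h1, h2⟩ := h hf'.toFinset (hf'.toFinset.sup fun ξ => (τ ξ).length) z
  have hB : ∀ z' ∈ B (cn F' n' z), f z' ∈ B τ := by
    intro z' hz' ξ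
    by_cases hξ : ξ ∈ Sp τ
    · intro i hi
      have := h2 z' (mem_cn_iff.1 hz') ξ (by simpa using hξ) i (lt_of_lt_of_le hi
        (Finset.le_sup (f := fun ξ => (τ ξ).length) (by simpa using hξ)))
      rw [this]; exact hz ξ i hi
    · have : τ ξ = [] := by simpa [Sp] using hξ
      rw [this]; exact pre_nil _
  have hM : IsM (f ∘ J (cn F' n' z)) := hf.comp (J_isM (cn_fin _ _ _))
  obtain ⟨g, hg, hg', -⟩ := hM.strip hf'.countable fun z' => hB _ (J_mem_B _ _)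
  refine ⟨cn F' n' z, g, cn_fin _ _ _, fun ξ hξ => ?_, mem_cn _ _ _, hg, hg'⟩
  have := h1 ξ (cn_Sp _ _ _ hξ)
  simpa using this

/-! ### Lower and upper parts -/

theorem lo_in {D : Set I} {f : Pt I → Pt I} {z : Pt I} {ξ : I} (h : ξ ∈ D) :
    lo D f z ξ = f z ξ := by simp [lo, h]

theorem lo_out {D : Set I} {f : Pt I → Pt I} {z : Pt I} {ξ : I} (h : ξ ∉ D) :
    lo D f z ξ = z ξ := by simp [lo, h]

theorem up_in {D : Set I} {f : Pt I → Pt I} {z : Pt I} {ξ : I} (h : ξ ∈ D) :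
    up D f z ξ = z ξ := by simp [up, h]

theorem up_out {D : Set I} {f : Pt I → Pt I} {z : Pt I} {ξ : I} (h : ξ ∉ D) :
    up D f z ξ = f z ξ := by simp [up, h]

open Classical in
theorem IsRep.lo {L : I → Pt I → Str → Str} {f : Pt I → Pt I} (h : IsRep L f) (D : Set I) :
    IsRep (fun ξ z σ => if ξ ∈ D then L ξ z σ else σ) (UL.lo D f) := by
  refine ⟨fun ξ z => ?_, fun ξ σ => ?_, ?_, fun z ξ n => ?_⟩
  · by_cases hξ : ξ ∈ D
    · simp only [hξ, if_true]; exact h.isL ξ z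
    · simp only [hξ, if_false]; exact IsL.id
  · by_cases hξ : ξ ∈ D
    · simp only [hξ, if_true]; exact h.lc ξ σ
    · simp only [hξ, if_false]; exact LC.const _
  · obtain ⟨A, hA, hA'⟩ := h.sup
    refine ⟨A, hA, fun ξ hξ z σ => ?_⟩
    by_cases hD : ξ ∈ D
    · simp only [hD, if_true]; exact hA' ξ hξ z σ
    · simp only [hD, if_false]
  · by_cases hξ : ξ ∈ D
    · simp only [hξ, if_true, lo_in hξ]; exact h.pre z ξ n
    · simp only [hξ, if_false, lo_out hξ]; exact pre_res _ _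

open Classical in
theorem IsRep.up {L : I → Pt I → Str → Str} {f : Pt I → Pt I} (h : IsRep L f) (D : Set I) :
    IsRep (fun ξ z σ => if ξ ∈ D then σ else L ξ z σ) (UL.up D f) := by
  refine ⟨fun ξ z => ?_, fun ξ σ => ?_, ?_, fun z ξ n => ?_⟩
  · by_cases hξ : ξ ∈ D
    · simp only [hξ, if_true]; exact IsL.id
    · simp only [hξ, if_false]; exact h.isL ξ z
  · by_cases hξ : ξ ∈ D
    · simp only [hξ, if_true]; exact LC.const _
    · simp only [hξ, if_false]; exact h.lc ξ σ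
  · obtain ⟨A, hA, hA'⟩ := h.sup
    refine ⟨A, hA, fun ξ hξ z σ => ?_⟩
    by_cases hD : ξ ∈ D
    · simp only [hD, if_true]
    · simp only [hD, if_false]; exact hA' ξ hξ z σ
  · by_cases hξ : ξ ∈ D
    · simp only [hξ, if_true, up_in hξ]; exact pre_res _ _
    · simp only [hξ, if_false, up_out hξ]; exact h.pre z ξ n

theorem IsM.lo {f : Pt I → Pt I} (hf : IsM f) (D : Set I) : MD D (UL.lo D f) := by
  obtain ⟨L, h⟩ := hf
  exact ⟨⟨_, h.lo D⟩, fun z ξ hξ => lo_out hξ⟩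

theorem IsM.up {f : Pt I → Pt I} (hf : IsM f) (D : Set I) : UD D (UL.up D f) := by
  obtain ⟨L, h⟩ := hf
  exact ⟨⟨_, h.up D⟩, fun z ξ hξ => up_in hξ⟩

/-- The decomposition. -/
theorem IsM.lo_up {f : Pt I → Pt I} (hf : IsM f) {D : Set I} (hD : IsLowerSet D) :
    f = UL.lo D f ∘ UL.up D f := by
  funext z ξ
  by_cases hξ : ξ ∈ D
  · rw [Function.comp_apply, lo_in hξ]
    exact hf.dep fun η hη => (up_in (hD hη hξ)).symm
  · rw [Function.comp_apply, lo_out hξ, up_out hξ]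

theorem lo_comp {f g : Pt I → Pt I} (hf : IsM f) {D : Set I} (hD : IsLowerSet D) :
    UL.lo D (f ∘ g) = UL.lo D f ∘ UL.lo D g := by
  funext z ξ
  by_cases hξ : ξ ∈ D
  · rw [Function.comp_apply, lo_in hξ, lo_in hξ]
    exact hf.dep fun η hη => (lo_in (hD hη hξ)).symm
  · rw [Function.comp_apply, lo_out hξ, lo_out hξ, lo_out hξ]

theorem MD.lo_eq {D : Set I} {f : Pt I → Pt I} (h : MD D f) : UL.lo D f = f := by
  funext z ξ
  by_cases hξ : ξ ∈ D
  · exact lo_in hξ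
  · rw [lo_out hξ, h.2 z ξ hξ]

theorem UD.lo_eq {D : Set I} {f : Pt I → Pt I} (h : UD D f) : UL.lo D f = id := by
  funext z ξ
  by_cases hξ : ξ ∈ D
  · rw [lo_in hξ, h.2 z ξ hξ]; rfl
  · rw [lo_out hξ]; rfl

theorem UD.up_eq {D : Set I} {f : Pt I → Pt I} (h : UD D f) : UL.up D f = f := by
  funext z ξ
  by_cases hξ : ξ ∈ D
  · rw [up_in hξ, h.2 z ξ hξ]
  · rw [up_out hξ]

theorem MD.comp {D : Set I} {f g : Pt I → Pt I} (hf : MD D f) (hg : MD D g) : MD D (f ∘ g) :=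
  ⟨hf.1.comp hg.1, fun z ξ hξ => by rw [Function.comp_apply, hf.2 _ ξ hξ, hg.2 z ξ hξ]⟩

theorem UD.comp {D : Set I} {f g : Pt I → Pt I} (hf : UD D f) (hg : UD D g) : UD D (f ∘ g) :=
  ⟨hf.1.comp hg.1, fun z ξ hξ => by rw [Function.comp_apply, hf.2 _ ξ hξ, hg.2 z ξ hξ]⟩

theorem MD.id' (D : Set I) : MD D (id : Pt I → Pt I) := ⟨IsM.id', fun _ _ _ => rfl⟩

theorem UD.id' (D : Set I) : UD D (id : Pt I → Pt I) := ⟨IsM.id', fun _ _ _ => rfl⟩

theorem MD_univ {f : Pt I → Pt I} : MD Set.univ f ↔ IsM f :=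
  ⟨fun h => h.1, fun h => ⟨h, fun _ ξ hξ => absurd (Set.mem_univ ξ) hξ⟩⟩

theorem MD.mono {D D' : Set I} {f : Pt I → Pt I} (h : MD D f) (hD : D ⊆ D') : MD D' f :=
  ⟨h.1, fun z ξ hξ => h.2 z ξ fun hc => hξ (hD hc)⟩

/-- Exchange of an upper map with a lower map. -/
theorem UD.swap {D : Set I} (hD : IsLowerSet D) {θ χ : Pt I → Pt I} (hθ : UD D θ)
    (hχ : MD D χ) : θ ∘ χ = χ ∘ UL.up D (θ ∘ χ) := by
  have h := (hθ.1.comp hχ.1).lo_up hD
  rw [lo_comp hθ.1 hD, hθ.lo_eq, hχ.lo_eq] at h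
  exact h

/-- Upper and lower cone maps commute with lower and upper maps. -/
theorem J_swap {D : Set I} (hD : IsLowerSet D) {τ : I → Str} (hτ : ∀ ξ ∈ D, τ ξ = [])
    {χ : Pt I → Pt I} (hχ : MD D χ) : J τ ∘ χ = χ ∘ J τ := by
  funext z ξ
  by_cases hξ : ξ ∈ D
  · rw [Function.comp_apply, J_apply, hτ ξ hξ, catY_nil]
    exact hχ.1.dep fun η hη => by rw [J_apply, hτ η (hD hη hξ), catY_nil]
  · rw [Function.comp_apply, Function.comp_apply, J_apply, hχ.2 _ ξ hξ, hχ.2 _ ξ hξ, J_apply]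

/-- Members of the monoid are injective; the coordinates in a lower set can be recovered. -/
theorem IsM.inj {f : Pt I → Pt I} [WellFoundedLT I] (hf : IsM f) {D : Set I}
    (hD : IsLowerSet D) {z z' : Pt I} (h : ∀ ξ ∈ D, f z ξ = f z' ξ) : ∀ ξ ∈ D, z ξ = z' ξ := by
  obtain ⟨L, hL⟩ := hf
  intro ξ
  induction ξ using WellFoundedLT.induction with
  | ind ξ ih =>
    intro hξ
    have e : L ξ z = L ξ z' := hL.depL fun η hη => ih η hη (hD hη.le hξ)
    apply Y.ext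
    intro i
    by_contra hc
    -- the first difference
    classical
    let P : ℕ → Prop := fun i => z ξ i ≠ z' ξ i
    have hP : ∃ i, P i := ⟨i, hc⟩
    let n := Nat.find hP
    have hn : z ξ n ≠ z' ξ n := Nat.find_spec hP
    have hm : ∀ m, m < n → z ξ m = z' ξ m := fun m hm => by
      by_contra h'
      exact Nat.find_min hP hm h'
    have hr : res (z ξ) n = res (z' ξ) n := by
      apply List.ext_getElem (by simp)
      intro k h1 h2
      rw [res_get, res_get]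
      exact hm k (by simpa using h1)
    have p1 : Pre (L ξ z (res (z ξ) n) ++ [z ξ n]) (f z ξ) := by
      have h1 := hL.pre z ξ (n + 1)
      rw [res_succ] at h1
      exact h1.mono ((hL.isL ξ z).bit _ _)
    have p2 : Pre (L ξ z (res (z ξ) n) ++ [z' ξ n]) (f z ξ) := by
      have h1 := hL.pre z' ξ (n + 1)
      rw [res_succ, ← hr, ← e, ← h ξ hξ] at h1
      exact h1.mono ((hL.isL ξ z).bit _ _)
    have q := p1.eq p2 (by simp)
    exact hn (by simpa using q)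

end UL
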