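import Mathlib

/-!
# MP_57a173_lc: iterated Laver forcing as a monoid of maps (definitions)

`Y` is the set of binary sequences with infinitely many ones (a copy of the Baire space), `I` is a
well-ordered set of coordinates, `Pt I = I → Y`. A Laver map of `Y` is given by a map `Λ` of finite
binary strings with `Λ (σ b) = Λ σ b 0 0 ... 0`. The elements of the monoid `M` (`IsM f`) are the
maps `f : Pt I → Pt I` which act at the coordinate `ξ` by a Laver map depending continuously on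
the coordinates `< ξ`, with a countable support. The forcing is `M` with `f ≤ g` iff `f = g ∘ h`.
-/

noncomputable section

namespace UL

/-- Binary sequences with infinitely many ones. -/
abbrev Y : Type := {y : ℕ → Bool // ∀ n, ∃ m, n ≤ m ∧ y m = true}

instance : CoeFun Y (fun _ => ℕ → Bool) := ⟨Subtype.val⟩

theorem Y.ext {x y : Y} (h : ∀ i, x i = y i) : x = y := Subtype.ext (funext h)

/-- Points. -/
abbrev Pt (I : Type) : Type := I → Y

/-- Strings. -/
abbrev Str : Type := List Bool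

/-- `σ` is an initial segment of `y`. -/
def Pre (σ : Str) (y : ℕ → Bool) : Prop := ∀ (i : ℕ) (h : i < σ.length), σ[i] = y i

/-- The initial segment of length `n`. -/
def res (y : ℕ → Bool) (n : ℕ) : Str := (List.range n).map y

/-- `σ` followed by `y`. -/
def cat (σ : Str) (y : ℕ → Bool) : ℕ → Bool :=
  fun i => if h : i < σ.length then σ[i] else y (i - σ.length)

/-- `σ` followed by `y`, for `y` in `Y`. -/
def catY (σ : Str) (y : Y) : Y := ⟨cat σ y, fun n => by
  obtain ⟨m, hm, hm'⟩ := y.2 n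
  refine ⟨m + σ.length, by omega, ?_⟩
  have h : ¬ m + σ.length < σ.length := by omega
  simp [cat, h, hm']⟩

/-- `n` zeros. -/
abbrev zs (n : ℕ) : Str := List.replicate n false

/-- Laver maps of strings. -/
def IsL (Λ : Str → Str) : Prop := ∀ (σ : Str) (b : Bool), ∃ j, Λ (σ ++ [b]) = Λ σ ++ b :: zs j

variable {I : Type}

/-- The set of coordinates where `τ` is not empty. -/
def Sp (τ : I → Str) : Set I := {ξ | τ ξ ≠ []}

/-- The cone map: put `τ ξ` in front of `z ξ`. -/
def J (τ : I → Str) (z : Pt I) : Pt I := fun ξ => catY (τ ξ) (z ξ)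

/-- The cone: all points `z` such that `z ξ` starts with `τ ξ`. It is the range of `J τ`. -/
def B (τ : I → Str) : Set (Pt I) := {z | ∀ ξ, Pre (τ ξ) (z ξ)}

open Classical in
/-- The string `σ` at the coordinate `α`. -/
def at1 (α : I) (σ : Str) : I → Str := fun ξ => if ξ = α then σ else []

/-- `f` is locally constant and depends only on countably many coordinates of `D`. -/
def LC (D : Set I) {β : Type} (f : Pt I → β) : Prop :=
  ∃ A : Set I, A ⊆ D ∧ A.Countable ∧ ∀ z : Pt I, ∃ F : Finset I, (F : Set I) ⊆ A ∧ ∃ n : ℕ,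
    ∀ z' : Pt I, (∀ ξ ∈ F, ∀ i, i < n → z' ξ i = z ξ i) → f z' = f z

variable [LinearOrder I]

/-- The map `f` is given by the maps `L ξ z` of strings. -/
structure IsRep (L : I → Pt I → Str → Str) (f : Pt I → Pt I) : Prop where
  isL : ∀ ξ z, IsL (L ξ z)
  lc : ∀ ξ σ, LC (Set.Iio ξ) (fun z => L ξ z σ)
  sup : ∃ A : Set I, A.Countable ∧ ∀ ξ, ξ ∉ A → ∀ z σ, L ξ z σ = σ
  pre : ∀ z ξ n, Pre (L ξ z (res (z ξ) n)) (f z ξ)

/-- The monoid `M`. -/
def IsM (f : Pt I → Pt I) : Prop := ∃ L, IsRep L f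

/-- `q`-pure maps. For `q ξ = 0` there is no condition at the coordinate `ξ`, for `q ξ = 1` the map
at `ξ` starts with zeros only, for `q ξ = k + 1`, `k ≥ 1`, it does not change the first `k` bits. -/
def Pure (q : I → ℕ) (f : Pt I → Pt I) : Prop :=
  ∃ L, IsRep L f ∧ ∀ ξ z σ, σ.length + 1 = q ξ → ∃ j, L ξ z σ = σ ++ zs j

/-- Finite support. -/
def Fin0 (q : I → ℕ) : Prop := {ξ | q ξ ≠ 0}.Finite

/-- Maps acting on the coordinates in `D` only. -/
def MD (D : Set I) (f : Pt I → Pt I) : Prop := IsM f ∧ ∀ z ξ, ξ ∉ D → f z ξ = z ξ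

/-- Maps acting on the coordinates outside `D` only. -/
def UD (D : Set I) (f : Pt I → Pt I) : Prop := IsM f ∧ ∀ z ξ, ξ ∈ D → f z ξ = z ξ

open Classical in
/-- Lower part. -/
def lo (D : Set I) (f : Pt I → Pt I) : Pt I → Pt I := fun z ξ => if ξ ∈ D then f z ξ else z ξ

open Classical in
/-- Upper part. -/
def up (D : Set I) (f : Pt I → Pt I) : Pt I → Pt I := fun z ξ => if ξ ∈ D then z ξ else f z ξ

open Classical in
/-- `q` on `D`, zero outside. -/
def qon (D : Set I) (q : I → ℕ) : I → ℕ := fun ξ => if ξ ∈ D then q ξ else 0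

open Classical in
/-- `q` outside `D`, zero on `D`. -/
def qoff (D : Set I) (q : I → ℕ) : I → ℕ := fun ξ => if ξ ∈ D then 0 else q ξ

open Classical in
/-- The value `k` at `ε`, zero elsewhere. -/
def q1 (ε : I) (k : ℕ) : I → ℕ := fun ξ => if ξ = ε then k else 0

/-- The cells of level `q`. -/
def Cell (q : I → ℕ) : Set (I → Str) := {τ | ∀ ξ, (τ ξ).length = q ξ - 1}

/-- Cutting a cell down to level `q`. -/
def cut (q : I → ℕ) (τ : I → Str) : I → Str := fun ξ => (τ ξ).take (q ξ - 1)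

/-- `f` has the property `Q` locally: the cones `J τ` with finite support in a countable subset of
`D` and with `Q (f ∘ J τ)` cover all points. -/
def Cov (D : Set I) (f : Pt I → Pt I) (Q : (Pt I → Pt I) → Prop) : Prop :=
  ∃ A : Set I, A ⊆ D ∧ A.Countable ∧ ∀ z : Pt I, ∃ τ : I → Str, (Sp τ).Finite ∧ Sp τ ⊆ A ∧
    z ∈ B τ ∧ Q (f ∘ J τ)

/-- `Q` is dense in the monoid of the maps acting on `D`. -/
def Dns (D : Set I) (Q : (Pt I → Pt I) → Prop) : Prop := ∀ f, MD D f → ∃ g, MD D g ∧ Q (f ∘ g)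

/-- `Q` is open in the monoid of the maps acting on `D`. -/
def Opn (D : Set I) (Q : (Pt I → Pt I) → Prop) : Prop :=
  ∀ f g, MD D f → Q f → MD D g → Q (f ∘ g)

/-- The fusion principle for `D` and `q`. -/
def FP (D : Set I) (q : I → ℕ) : Prop :=
  ∀ Q : (Pt I → Pt I) → Prop, Dns D Q → Opn D Q → ∃ f, MD D f ∧ Pure q f ∧ Cov D f Q

/-- The fusion principle for sequences. -/
def FPS (D : Set I) (q : I → ℕ) : Prop :=
  ∀ Q : ℕ → (Pt I → Pt I) → Prop, (∀ i, Dns D (Q i)) → (∀ i, Opn D (Q i)) →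
    ∃ f, MD D f ∧ Pure q f ∧ ∀ i, Cov D f (Q i)

/-- The product `χ j ∘ χ (j+1) ∘ ... ∘ χ (j+n-1)`. -/
def comps (χ : ℕ → Pt I → Pt I) (j : ℕ) : ℕ → Pt I → Pt I
  | 0 => id
  | n + 1 => comps χ j n ∘ χ (j + n)

/-- Tuples with a common lower part. -/
def Tup (D : Set I) {C : Type} (X : C → Pt I → Pt I) : Prop :=
  (∀ c, IsM (X c)) ∧ ∀ c c', lo D (X c) = lo D (X c')

/-- On the cell `τ` of level `q` (zero on `D`), the real `y` can be pushed hereditarily to the real
`Γ`. -/
def HP (q : I → ℕ) (y : Pt I → ℕ → Bool) (τ : I → Str) (Γ : Pt I → ℕ → Bool) : Prop :=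
  ∀ χ, Pure q χ → ∀ k, ∃ χ', Pure q χ' ∧ ∀ z ∈ B τ, ∀ i, i < k →
    y (χ (χ' z)) i = Γ (χ (χ' z)) i

/-- The real `x` (a function of the generic point) is new over the coordinates in `D`, for all
conditions. -/
def New (D : Set I) (x : Pt I → ℕ → Bool) : Prop :=
  ∀ χ, IsM χ → ¬ ∀ i, LC D (fun z => x (χ z) i)

end UL
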