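import Pool.Agent.Helper46.NU.Names
import Pool.Agent.Helper97.Ku.RO

/-!
# MP_57a173_lc: the statement about models of ZFC and the algebraic interface

`Phi E` says that in the structure `(N, E)` the following holds. Let `K` be any set and
`A n = {x ∈ K : (n, x) ∈ A}` (`n ∈ ω`) any sequence of subsets of `K`. Then either all Borel sets
over this sequence are of Borel class at most `2`, or some set in the sigma-algebra on `K × K`
generated by the rectangles `P × Q` with `P`, `Q` Borel over the sequence has a projection which is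
not Borel over the sequence.

The algebraic interface: `Dich L J v` and `SigC L J v` for a complete Boolean algebra `L` and
truth values `v j` (`j : J`, the generic bits). Part N (names) is to show that they imply that
`Phi` has the Boolean value `⊤`.
-/

noncomputable section

namespace UL

open Pool.Agent.Helper97.Ku NU

universe u w

section Model

variable {N : Type w} (E : N → N → Prop)

/-- `Y` is the set of all `x ∈ K` such that the pair `(u, x)` is in `R`. -/
def IsSec (K R u Y : N) : Prop := ∀ x, E x Y ↔ (E x K ∧ Ap E R u x)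

/-- `Z` is the complement of `Y` in `K`. -/
def IsCpl (K Y Z : N) : Prop := ∀ x, E x Z ↔ (E x K ∧ ¬ E x Y)

/-- `Z` is the union of the sets `{x ∈ K : (n, x) ∈ R}`, `n ∈ o`. -/
def IsUn (o K R Z : N) : Prop := ∀ x, E x Z ↔ (E x K ∧ ∃ n, E n o ∧ Ap E R n x)

/-- `S` is a sigma-algebra of subsets of `K` (`o` is `ω`): it is nonempty, closed under
complements, and if all sections `{x ∈ K : (n, x) ∈ R}`, `n ∈ ω`, of a set `R` are in `S`, then
their union is in `S`. -/
structure IsSig (o K S : N) : Prop where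
  sub : ∀ Y, E Y S → Sub E Y K
  ne : ∃ Y, E Y S
  cpl : ∀ Y, E Y S → ∃ Z, E Z S ∧ IsCpl E K Y Z
  un : ∀ R, (∀ n, E n o → ∃ Y, E Y S ∧ IsSec E K R n Y) → ∃ Z, E Z S ∧ IsUn E o K R Z

/-- `Y` is Borel over the sequence `A n = {x ∈ K : (n, x) ∈ A}` of subsets of `K`: it belongs to
all sigma-algebras of subsets of `K` which contain all `A n`. -/
def IsBor (o K A Y : N) : Prop :=
  Sub E Y K ∧ ∀ S, IsSig E o K S → (∀ n, E n o → ∃ Z, E Z S ∧ IsSec E K A n Z) → E Y S

/-- `D` is the set of all ordered pairs of elements of `K`. -/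
def IsSqr (K D : N) : Prop := ∀ z, E z D ↔ ∃ x y, E x K ∧ (E y K ∧ IsPr E z x y)

/-- `Z` is the rectangle `P × Q`. -/
def IsRec (P Q Z : N) : Prop := ∀ z, E z Z ↔ ∃ x y, E x P ∧ (E y Q ∧ IsPr E z x y)

/-- `W` belongs to the sigma-algebra on the square `D` of `K` which is generated by the rectangles
`P × Q`, where `P`, `Q` are Borel over the sequence `A n`. -/
def IsBor2 (o K A D W : N) : Prop :=
  ∀ S, IsSig E o D S → (∀ P Q Z, IsBor E o K A P → IsBor E o K A Q → IsRec E P Q Z → E Z S) →
    E W S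

/-- `Z` is the projection of the set of pairs `W` to the first factor `K`. -/
def IsProj (K W Z : N) : Prop := ∀ x, E x Z ↔ (E x K ∧ ∃ y, Ap E W x y)

/-- `Y` is a finite Boolean combination of the sets `A m`: for some natural number `n`, whether
`x ∈ K` is in `Y` depends only on the set of all `m < n` with `x ∈ A m`. -/
def Sig0 (o K A Y : N) : Prop :=
  Sub E Y K ∧ ∃ n, E n o ∧ ∀ x x', E x K → E x' K →
    (∀ m, E m n → (Ap E A m x ↔ Ap E A m x')) → (E x Y ↔ E x' Y)

/-- `Y` is a countable union of complements of sets of class `0`. -/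
def Sig1 (o K A Y : N) : Prop :=
  ∃ R, IsUn E o K R Y ∧ ∀ n, E n o →
    ∃ X Z, IsSec E K R n X ∧ (IsCpl E K X Z ∧ Sig0 E o K A Z)

/-- `Y` is a countable union of complements of sets of class `0` or `1`. -/
def Sig2 (o K A Y : N) : Prop :=
  ∃ R, IsUn E o K R Y ∧ ∀ n, E n o →
    ∃ X Z, IsSec E K R n X ∧ (IsCpl E K X Z ∧ (Sig0 E o K A Z ∨ Sig1 E o K A Z))

/-- The statement. -/
def Phi : Prop :=
  ∃ o, IsOmega E o ∧ ∀ K A, (∀ Y, IsBor E o K A Y → Sig2 E o K A Y) ∨
    ∃ D W Z, IsSqr E K D ∧ (IsBor2 E o K A D W ∧ (IsProj E K W Z ∧ ¬ IsBor E o K A Z))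

end Model

/-! ### The algebraic interface -/

/-- Infinitary propositional formulas (Borel codes) with the atoms `j : J`. -/
inductive PF (J : Type) : Type
  | atom (j : J) : PF J
  | neg (c : PF J) : PF J
  | or (c : ℕ → PF J) : PF J

namespace PF

variable {J : Type}

/-- The value of a formula in a complete Boolean algebra. -/
def ev {L : Type} [CompleteBooleanAlgebra L] (v : J → L) : PF J → L
  | atom j => v j
  | neg c => (ev v c)ᶜ
  | or c => ⨆ n, ev v (c n)

/-- The truth value of a formula. -/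
def tr (v : J → Prop) : PF J → Prop
  | atom j => v j
  | neg c => ¬ tr v c
  | or c => ∃ n, tr v (c n)

end PF

section Alg

variable {L : Type} [CompleteBooleanAlgebra L]

/-- The value of: the real `r` starts with `σ` (`r n` is the value of: the `n`-th bit is one). -/
def basV (r : ℕ → L) (σ : List Bool) : L :=
  ⨅ i : Fin σ.length, (if σ.get i = true then r i else (r i)ᶜ)

/-- The value of: `r` is in the open set coded by `q`. -/
def opV (q : List Bool → L) (r : ℕ → L) : L := ⨆ σ : List Bool, (q σ ⊓ basV r σ)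

/-- Below `b`: the reals `r i` (the value `B i` is the value of: `r i` is considered) are in `V[G α]`
for a fixed `α`; in the form needed: on the set of these reals every `G_δ` set is an `F_σ` set. -/
def Sm {ι : Type} (B : ι → L) (r : ι → ℕ → L) (b : L) : Prop :=
  ∀ q : ℕ → List Bool → L, ∃ q' : ℕ → List Bool → L, ∀ i,
    b ⊓ B i ≤ iffV (⨅ n, opV (q n) (r i)) (⨆ n, (opV (q' n) (r i))ᶜ)

/-- Below `b`: some Borel set (with the code `W`) in the square has a projection which is different
from all Borel sets (with codes `c`). -/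
def Lg {J : Type} (v : J → L) {ι : Type} (B : ι → L) (r : ι → ℕ → L) (b : L) : Prop :=
  ∃ W : PF ((ℕ ⊕ ℕ) ⊕ J), ∀ c : PF (ℕ ⊕ J), b ≤ ⨆ i, (B i ⊓
    (iffV (⨆ j, (B j ⊓ W.ev (Sum.elim (Sum.elim (r i) (r j)) v))) (c.ev (Sum.elim (r i) v)))ᶜ)

end Alg

/-- The dichotomy. -/
def Dich (L : Type) [CompleteBooleanAlgebra L] (J : Type) (v : J → L) : Prop :=
  ∀ (ι : Type) (B : ι → L) (r : ι → ℕ → L) (b : L), b ≠ ⊥ →
    ∃ b', b' ≤ b ∧ b' ≠ ⊥ ∧ (Sm B r b' ∨ Lg v B r b')

/-- The Borel sets with codes in the ground model are closed under countable unions. -/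
def SigC (L : Type) [CompleteBooleanAlgebra L] (J : Type) (v : J → L) : Prop :=
  ∀ (ι : Type) (B : ι → L) (r : ι → ℕ → L) (t : ℕ → ι → L) (b : L), b ≠ ⊥ →
    (∀ n, b ≤ ⨆ c : PF (ℕ ⊕ J), ⨅ i, (B i ⇨ iffV (t n i) (c.ev (Sum.elim (r i) v)))) →
    ∃ b', b' ≤ b ∧ b' ≠ ⊥ ∧ ∃ c : PF (ℕ ⊕ J),
      b' ≤ ⨅ i, (B i ⇨ iffV (⨆ n, t n i) (c.ev (Sum.elim (r i) v)))

end UL
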