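import Pool.Agent.Helper15.UL.GoalsC
import Pool.Agent.Helper15.UL.Iface

/-!
# MP_57a173_lc: part E, definitions and basic facts

`Mo I` is the monoid as a forcing notion (`f ≤ g` iff `f = g ∘ h`), `RO (Mo I)` its complete
Boolean algebra, `Fc f a`: the condition `f` forces `a`; `gv`: the generic bits. `Dc ω a S`: below
the condition `ω`, the truth value `a` is decided by the set `S` of points.
-/

noncomputable section

namespace UL

open Pool.Agent.Helper97.Ku NU MeasureTheory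

variable {I : Type} [LinearOrder I]

/-- The forcing notion. -/
@[ext]
structure Mo (I : Type) [LinearOrder I] : Type where
  f : Pt I → Pt I
  m : IsM f

instance : Preorder (Mo I) where
  le f g := ∃ h, IsM h ∧ f.f = g.f ∘ h
  le_refl f := ⟨id, IsM.id', rfl⟩
  le_trans f g k := by
    rintro ⟨h, hh, e⟩ ⟨h', hh', e'⟩
    exact ⟨h' ∘ h, hh'.comp hh, by rw [e, e']; rfl⟩

/-- The complete Boolean algebra. -/
abbrev BA (I : Type) [LinearOrder I] : Type := RO (Mo I)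

/-- The condition `f` forces `a`. -/
def Fc (f : Pt I → Pt I) (a : BA I) : Prop := ∃ h : IsM f, (⟨f, h⟩ : Mo I) ∈ a

namespace Fc

variable {f g : Pt I → Pt I} {a b : BA I}

theorem isM (h : Fc f a) : IsM f := h.1

theorem comp (h : Fc f a) (hg : IsM g) : Fc (f ∘ g) a :=
  ⟨h.1.comp hg, RO.lower ⟨g, hg, rfl⟩ h.2⟩

theorem of (p : Mo I) (h : p ∈ a) : Fc p.f a := ⟨p.m, h⟩

theorem le_iff : a ≤ b ↔ ∀ f : Pt I → Pt I, Fc f a → Fc f b :=
  ⟨fun h _ hf => ⟨hf.1, h _ hf.2⟩, fun h p hp => (h p.f ⟨p.m, hp⟩).2⟩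

theorem mono (h : Fc f a) (hab : a ≤ b) : Fc f b := le_iff.1 hab f h

theorem ne_bot_iff : a ≠ ⊥ ↔ ∃ f : Pt I → Pt I, Fc f a := by
  constructor
  · intro h
    by_contra hc
    push Not at hc
    exact h (le_bot_iff.1 (le_iff.2 fun f hf => absurd hf (hc f)))
  · rintro ⟨f, hf⟩ rfl
    exact RO.not_mem_bot _ hf.2

theorem not_bot : ¬ Fc f (⊥ : BA I) := fun h => RO.not_mem_bot _ h.2

theorem top (hf : IsM f) : Fc f (⊤ : BA I) := ⟨hf, RO.mem_top _⟩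

/-- Density. -/
theorem dense (hf : IsM f) (h : ∀ g, IsM g → ∃ k, IsM k ∧ Fc (f ∘ g ∘ k) a) : Fc f a :=
  ⟨hf, RO.dense fun q hq => by
    obtain ⟨g, hg, e⟩ := hq
    obtain ⟨k, hk, h2, h3⟩ := h g hg
    refine ⟨⟨f ∘ g ∘ k, h2⟩, ⟨k, hk, ?_⟩, h3⟩
    change f ∘ g ∘ k = q.f ∘ k
    rw [e]; rfl⟩

theorem inf_iff : Fc f (a ⊓ b) ↔ Fc f a ∧ Fc f b :=
  ⟨fun h => ⟨⟨h.1, h.2.1⟩, ⟨h.1, h.2.2⟩⟩, fun h => ⟨h.1.1, h.1.2, h.2.2⟩⟩

theorem compl_iff : Fc f aᶜ ↔ IsM f ∧ ∀ g, IsM g → ¬ Fc (f ∘ g) a := by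
  constructor
  · intro h
    refine ⟨h.1, fun g hg hc => ?_⟩
    exact RO.mem_compl.1 h.2 ⟨f ∘ g, hc.1⟩ ⟨g, hg, rfl⟩ hc.2
  · rintro ⟨hf, h⟩
    refine ⟨hf, RO.mem_compl.2 ?_⟩
    rintro q ⟨g, hg, e⟩ hq
    refine h g hg ⟨hf.comp hg, ?_⟩
    have e' : q = ⟨f ∘ g, hf.comp hg⟩ := Mo.ext e
    rwa [← e']

theorem iInf_iff {ι : Sort*} {a : ι → BA I} : Fc f (⨅ i, a i) ↔ IsM f ∧ ∀ i, Fc f (a i) :=
  ⟨fun h => ⟨h.1, fun i => ⟨h.1, RO.mem_iInf.1 h.2 i⟩⟩,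
    fun h => ⟨h.1, RO.mem_iInf.2 fun i => (h.2 i).2⟩⟩

theorem iSup_iff {ι : Sort*} {a : ι → BA I} : Fc f (⨆ i, a i) ↔
    IsM f ∧ ∀ g, IsM g → ∃ k, IsM k ∧ ∃ i, Fc (f ∘ g ∘ k) (a i) := by
  constructor
  · intro h
    refine ⟨h.1, fun g hg => ?_⟩
    obtain ⟨r, ⟨k, hk, e⟩, i, hi⟩ := RO.mem_iSup.1 h.2 ⟨f ∘ g, h.1.comp hg⟩ ⟨g, hg, rfl⟩
    refine ⟨k, hk, i, h.1.comp (hg.comp hk), ?_⟩
    have e' : r = ⟨f ∘ g ∘ k, h.1.comp (hg.comp hk)⟩ := Mo.ext e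
    rwa [← e']
  · rintro ⟨hf, h⟩
    refine dense hf fun g hg => ?_
    obtain ⟨k, hk, i, hi⟩ := h g hg
    exact ⟨k, hk, hi.mono (le_iSup a i)⟩

theorem himp_iff : Fc f (a ⇨ b) ↔ IsM f ∧ ∀ g, IsM g → Fc (f ∘ g) a → Fc (f ∘ g) b := by
  constructor
  · intro h
    refine ⟨h.1, fun g hg hga => ⟨hga.1, ?_⟩⟩
    exact RO.mem_himp.1 h.2 ⟨f ∘ g, hga.1⟩ ⟨g, hg, rfl⟩ hga.2
  · rintro ⟨hf, h⟩
    refine ⟨hf, RO.mem_himp.2 ?_⟩
    rintro q ⟨g, hg, e⟩ hq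
    have e' : q = ⟨f ∘ g, hf.comp hg⟩ := Mo.ext e
    subst e'
    exact (h g hg ⟨hf.comp hg, hq⟩).2

theorem not_both (h : Fc f a) (h' : Fc f aᶜ) : False := RO.not_mem_compl h.2 h'.2

/-- Decision. -/
theorem decide (hf : IsM f) (a : BA I) : ∃ g, IsM g ∧ (Fc (f ∘ g) a ∨ Fc (f ∘ g) aᶜ) := by
  by_cases h : ∃ g, IsM g ∧ Fc (f ∘ g) a
  · obtain ⟨g, hg, h⟩ := h
    exact ⟨g, hg, Or.inl h⟩
  · refine ⟨id, IsM.id', Or.inr (compl_iff.2 ⟨hf, fun g hg hc => h ⟨g, hg, hc⟩⟩)⟩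

/-- If `f` does not force `a`, some extension forces the complement. -/
theorem exists_compl (hf : IsM f) (h : ¬ Fc f a) : ∃ g, IsM g ∧ Fc (f ∘ g) aᶜ := by
  by_contra hc
  push Not at hc
  refine h (dense hf fun g hg => ?_)
  obtain ⟨k, hk, h1 | h1⟩ := decide (hf.comp hg) a
  · exact ⟨k, hk, h1⟩
  · exact absurd h1 (hc (g ∘ k) (hg.comp hk))

/-- Locality: it is enough that the restrictions to the cones of a cover force `a`. -/
theorem loc (hf : IsM f) (h : Cov Set.univ f (fun k => Fc k a)) : Fc f a := by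
  refine dense hf fun g hg => ?_
  obtain ⟨A, -, -, h2⟩ := h
  obtain ⟨z⟩ : Nonempty (Pt I) := inferInstance
  obtain ⟨τ, h3, -, h5, h6⟩ := h2 (g z)
  obtain ⟨A', -, h8⟩ := hg.fact
  obtain ⟨κ, g', h9, -, h11, h12, h13⟩ := h8 τ z h3 h5
  refine ⟨J κ, J_isM h9, ?_⟩
  have : f ∘ g ∘ J κ = (f ∘ J τ) ∘ g' := by
    rw [h13]; rfl
  rw [this]
  exact h6.comp h12

end Fc

/-- The generic bits. -/
def gv (j : I × ℕ) : BA I := RO.cl {p | ∀ z, p.f z j.1 j.2 = true}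

/-- Below the condition `ω`, the truth value `a` is decided by the set `S` of points. -/
def Dc (ω : Pt I → Pt I) (a : BA I) (S : Set (Pt I)) : Prop :=
  ∀ χ, IsM χ → ((∀ z, χ z ∈ S) → Fc (ω ∘ χ) a) ∧ ((∀ z, χ z ∉ S) → Fc (ω ∘ χ) aᶜ)

theorem Dc.comp {ω : Pt I → Pt I} {a : BA I} {S : Set (Pt I)} (h : Dc ω a S) {χ : Pt I → Pt I}
    (hχ : IsM χ) : Dc (ω ∘ χ) a {z | χ z ∈ S} := fun χ' hχ' => h (χ ∘ χ') (hχ.comp hχ')

theorem Dc.congr {ω : Pt I → Pt I} {a : BA I} {S S' : Set (Pt I)} (h : Dc ω a S)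
    (e : ∀ z, z ∈ S ↔ z ∈ S') : Dc ω a S' := by
  rwa [show S' = S from Set.ext fun z => (e z).symm]

theorem Dc.fc {ω : Pt I → Pt I} {a : BA I} {S : Set (Pt I)} (h : Dc ω a S) (hS : ∀ z, z ∈ S) :
    Fc ω a := (h id IsM.id').1 fun z => hS z

theorem Dc.fc_compl {ω : Pt I → Pt I} {a : BA I} {S : Set (Pt I)} (h : Dc ω a S)
    (hS : ∀ z, z ∉ S) : Fc ω aᶜ := (h id IsM.id').2 fun z => hS z

theorem Dc.compl {ω : Pt I → Pt I} {a : BA I} {S : Set (Pt I)} (h : Dc ω a S) :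
    Dc ω aᶜ Sᶜ := fun χ hχ => ⟨fun k => (h χ hχ).2 k, fun k => by
      rw [compl_compl]
      exact (h χ hχ).1 fun z => by
        by_contra hc
        exact k z hc⟩

/-- The generic bits are decided by every condition. -/
theorem Dc.gv {ω : Pt I → Pt I} (hω : IsM ω) (j : I × ℕ) :
    Dc ω (UL.gv j) {z | ω z j.1 j.2 = true} := by
  intro χ hχ
  constructor
  · intro k
    exact ⟨hω.comp hχ, fun q hq => ⟨q, le_rfl, fun z => by
      obtain ⟨h, -, e⟩ := hq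
      rw [e]; exact k (h z)⟩⟩
  · intro k
    rw [Fc.compl_iff]
    refine ⟨hω.comp hχ, fun g hg hc => ?_⟩
    obtain ⟨r, ⟨h, -, e⟩, hr⟩ := hc.2 _ le_rfl
    obtain ⟨z⟩ : Nonempty (Pt I) := inferInstance
    have := hr z
    rw [e] at this
    exact k (g (h z)) this

/-- The element generated by a condition. -/
def pr (ω : Pt I → Pt I) : BA I := RO.cl {p | ∃ χ, IsM χ ∧ p.f = ω ∘ χ}

theorem fc_pr {ω : Pt I → Pt I} (hω : IsM ω) : Fc ω (pr ω) :=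
  ⟨hω, fun q hq => ⟨q, le_rfl, hq⟩⟩

theorem pr_le {ω : Pt I → Pt I} {a : BA I} (h : Fc ω a) : pr ω ≤ a := by
  rw [Fc.le_iff]
  intro f hf
  refine Fc.dense hf.1 fun g hg => ?_
  obtain ⟨r, ⟨k, hk, e⟩, χ, hχ, e'⟩ := hf.2 ⟨f ∘ g, hf.1.comp hg⟩ ⟨g, hg, rfl⟩
  refine ⟨k, hk, ?_⟩
  have : f ∘ g ∘ k = ω ∘ χ := by rw [← e', e]; rfl
  rw [this]
  exact h.comp hχ

theorem pr_ne_bot {ω : Pt I → Pt I} (hω : IsM ω) : pr ω ≠ ⊥ :=
  Fc.ne_bot_iff.2 ⟨ω, fc_pr hω⟩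

/-- To show that `pr ω ≤ a` it is enough to do so on a dense set of extensions. -/
theorem pr_le_of {ω : Pt I → Pt I} (hω : IsM ω) {a : BA I}
    (h : ∀ g, IsM g → ∃ k, IsM k ∧ Fc (ω ∘ g ∘ k) a) : pr ω ≤ a := pr_le (Fc.dense hω h)

/-- The truth value `a` is `In α r`: the real `r` is in the model given by the coordinates `< α`. -/
def Inn (α : I) (r : ℕ → BA I) : BA I :=
  RO.cl {p | ∃ x : Pt I → ℕ → Bool, (∀ n, LC (Set.Iio α) (fun z => x z n)) ∧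
    ∀ n, Dc p.f (r n) {z | x z n = true}}

/-- If `ω` forces that `r` is in the model given by `α`, some extension has a representation of `r`. -/
theorem Inn.exists {ω : Pt I → Pt I} {α : I} {r : ℕ → BA I} (h : Fc ω (Inn α r)) :
    ∃ χ, IsM χ ∧ ∃ x : Pt I → ℕ → Bool, (∀ n, LC (Set.Iio α) (fun z => x z n)) ∧
      ∀ n, Dc (ω ∘ χ) (r n) {z | x z n = true} := by
  obtain ⟨q, ⟨χ, hχ, e⟩, x, h1, h2⟩ := h.2 _ le_rfl
  refine ⟨χ, hχ, x, h1, fun n => ?_⟩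
  have := h2 n
  rwa [e] at this

theorem Inn.of {ω : Pt I → Pt I} (hω : IsM ω) {α : I} {r : ℕ → BA I} {x : Pt I → ℕ → Bool}
    (h1 : ∀ n, LC (Set.Iio α) (fun z => x z n)) (h2 : ∀ n, Dc ω (r n) {z | x z n = true}) :
    Fc ω (Inn α r) := by
  refine Fc.dense hω fun g hg => ⟨id, IsM.id', hω.comp hg, fun q hq => ?_⟩
  obtain ⟨k, hk, e⟩ := hq
  refine ⟨q, le_rfl, fun z => x (g (k z)), fun n => ?_, fun n => ?_⟩
  · exact LC.comp (isLowerSet_Iio α) (h1 n) (hg.comp hk)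
  · have := (h2 n).comp (hg.comp hk)
    have e' : q.f = ω ∘ (g ∘ k) := by rw [e]; rfl
    rw [e']; exact this

/-- The truth values of a real and the generic bits together. -/
abbrev at2 (r : ℕ → BA I) : ℕ ⊕ (I × ℕ) → BA I := Sum.elim r gv

/-- The corresponding truth values at a point: `x` a real, `z` a point. -/
abbrev tv2 (x : ℕ → Bool) (z : Pt I) : ℕ ⊕ (I × ℕ) → Prop :=
  Sum.elim (fun n => x n = true) (fun j => z j.1 j.2 = true)

namespace PF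

variable {J K : Type}

/-- Renaming the atoms. -/
def map (f : J → K) : PF J → PF K
  | atom j => atom (f j)
  | neg c => neg (map f c)
  | or c => or fun n => map f (c n)

theorem map_ev {L : Type} [CompleteBooleanAlgebra L] (f : J → K) (v : K → L) (c : PF J) :
    (c.map f).ev v = c.ev (fun j => v (f j)) := by
  induction c with
  | atom j => rfl
  | neg c ih => exact congrArg compl ih
  | or c ih => exact iSup_congr ih

theorem map_tr (f : J → K) (v : K → Prop) (c : PF J) :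
    (c.map f).tr v ↔ c.tr (fun j => v (f j)) := by
  induction c with
  | atom j => exact Iff.rfl
  | neg c ih => exact not_congr ih
  | or c ih => exact exists_congr ih

theorem measurableSet_tr {X : Type} [MeasurableSpace X] {S : J → Set X}
    (h : ∀ j, MeasurableSet (S j)) (c : PF J) : MeasurableSet {x | c.tr (fun j => x ∈ S j)} := by
  induction c with
  | atom j => exact h j
  | neg c ih => exact ih.compl
  | or c ih =>
    have : {x | (PF.or c).tr (fun j => x ∈ S j)} = ⋃ n, {x | (c n).tr (fun j => x ∈ S j)} := by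
      ext x; simp [PF.tr]
    rw [this]
    exact MeasurableSet.iUnion ih

end PF

/-- The properties of the well-ordered set `I`. -/
structure IOrd (I : Type) [LinearOrder I] : Prop where
  card : ∀ ξ : I, Cardinal.mk (Set.Iio ξ) ≤ Cardinal.continuum
  bdd : ∀ (K : Type) (f : K → I), Cardinal.mk K ≤ Cardinal.continuum → ∃ β, ∀ k, f k < β
  clo : ∀ (β₀ : I) (nx : I → I), ∃ α, β₀ < α ∧ (∀ ξ, ξ < α → nx ξ < α) ∧
    ∀ A : Set I, A.Countable → (∀ a ∈ A, a < α) → ∃ ξ, ξ < α ∧ ∀ a ∈ A, a < ξ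

/-- `S` depends (in the second argument) only on the coordinates in `D`. -/
def DepD (D : Set I) (S : Set ((ℕ → Bool) × Pt I)) : Prop :=
  ∀ x z z', (∀ ξ ∈ D, z ξ = z' ξ) → ((x, z) ∈ S ↔ (x, z') ∈ S)

/-- The property K2: every real of the extension is, below `b`, computed by the formulas `T j` from
some of the reals `r i`. -/
def K2 {ι : Type} (B : ι → BA I) (r : ι → ℕ → BA I) (b : BA I) : Prop :=
  ∃ T : ℕ → PF (ℕ ⊕ (I × ℕ)), ∀ ρ : ℕ → BA I,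
    b ≤ ⨆ i, (B i ⊓ ⨅ j, iffV (ρ j) ((T j).ev (at2 (r i))))

end UL
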