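import Pool.Agent.Helper15.UL.Basic4

/-!
# MP_57a173_lc: goals A (gluing and fusion), B (reduction of dense sets, pure decision)

Everything in `Basic.lean` ... `Basic4.lean` is proved and can be used: strings (`Pre`, `res`, `cat`,
`IsL.*`), cones (`J`, `B`, `Sp`, `mem_B_iff`, `J_comp`, `cone_inter`, `strip`), local constancy
(`LC.*`, `LC_iff`, `LC.bind`, `LC.comp`), `exists_rep` (a system of Laver maps of strings defines a
map), `IsRep.uniq`, `IsRep.comp`, `IsM.comp`, `IsM.strip`, `IsM.fact`, lower and upper parts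
(`IsM.lo_up`, `lo_comp`, `UD.swap`, `J_swap`), pure maps (`Pure.*`, `MD.pure`, `UD.pure`, `pure_comp`),
covers (`Cov.*`).
-/

noncomputable section

namespace UL

/-! ## Part A: constructions of maps -/

/-- GL. Gluing upper maps along lower cones, for a tuple of maps indexed by `C`.
Proof: let `l z` be the least `l` with `z ∈ B (τ l)`; it is `LC D` (the cone `cn F n z`, `F` the union
of the supports of `τ 0, ..., τ (l z)` (subsets of `D`), `n` the maximal length, decides membership in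
`B (τ 0), ..., B (τ (l z))`). For `c` let `L' k` be a representation of `θ k c` (`Classical.choose`);
define `L ξ z σ = if ξ ∈ D then σ else L' (l z) ξ (strip (τ (l z)) z) σ` and `Θ c` by `exists_rep`.
For `ξ ∉ D` all elements of `D` are `< ξ` (linear order, lower set), so `l` is `LC (Iio ξ)`; local
constancy: `LC.bind` for `l` and `z ↦ L' k ξ (strip (τ k) z) σ`, which is `LC (Iio ξ)` since
`strip (τ k) z η = dropY _ (z η)`. Upper: for `ξ ∈ D`, `L = id` there. Purity: for `ξ ∈ D`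
`L ξ z σ = σ`, for `ξ ∉ D` from `Pure.rep` of `θ k c`. For given `z` put `k = l z`; choose a cone
`ρ ∋ z` with finite support in a fixed countable subset of `D` (the union of all supports `Sp (τ l)`
works) on which `l` is constant and with `τ k ξ <+: ρ ξ` for all `ξ` (join of `cn F n z` and `τ k`),
`λ ξ = (ρ ξ).drop (τ k ξ).length`, so `J ρ = J (τ k) ∘ J λ`. Then for `z' = J ρ w = J (τ k) (J λ w)` we have
`l z' = k`, `strip (τ k) z' = J λ w` and `Θ c z' ξ = θ k c (J λ w) ξ` for `ξ ∉ D` (compare the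
representations at `z'` and `J λ w`: `z' ξ = (J λ w) ξ` for `ξ ∉ D` because `τ k ξ = []`), while both
sides of the claim are `z' ξ` for `ξ ∈ D`. -/
def G_GL : Prop := ∀ (I : Type) [LinearOrder I] (D : Set I) (C : Type) (q : C → I → ℕ)
  (τ : ℕ → I → Str) (θ : ℕ → C → Pt I → Pt I), IsLowerSet D →
  (∀ l, (Sp (τ l)).Finite ∧ Sp (τ l) ⊆ D) → (∀ z, ∃ l, z ∈ B (τ l)) →
  (∀ l c, UD D (θ l c) ∧ Pure (q c) (θ l c)) →
  ∃ Θ : C → Pt I → Pt I, (∀ c, UD D (Θ c) ∧ Pure (q c) (Θ c)) ∧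
    ∃ A : Set I, A ⊆ D ∧ A.Countable ∧ ∀ z, ∃ ρ : I → Str, (Sp ρ).Finite ∧ Sp ρ ⊆ A ∧ z ∈ B ρ ∧
      ∃ (l : ℕ) (lam : I → Str), (Sp lam).Finite ∧ Sp lam ⊆ D ∧ J ρ = J (τ l) ∘ J lam ∧
        ∀ c, Θ c ∘ J ρ = J (τ l) ∘ θ l c ∘ J lam

/-- INF. Infinite gluing at the coordinate `ε`: the children of the root are chosen among infinitely
many available ones.
Proof: `l₀ z` = least `l` with `z ∈ B (τ l)`, `l_{i+1} z` = least `l` with `z ∈ B (τ l)` and
`m (l_i z) < m l`; all `l_i` are `LC (Iio ε)` (by induction on `i`: on a small cone around `z` membership in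
`B (τ 0), ..., B (τ (l_i z))` is decided, as in GL), `m_i = m (l_i z)` is strictly increasing in `i`.
Define `L ξ z σ` as follows, with `L' l` a representation of `φ l`. `ξ < ε`: `σ`. `ξ = ε`: if `σ` is a
string of zeros of length `i`, then `zs m_i`; otherwise `σ = 0^i 1 σ'` and
`L ε z σ = 0^{m_i} 1 ++ L' (l_i z) ε (strip (τ (l_i z)) z) σ'`. This is a Laver map of strings:
`L (0^{i+1}) = L (0^i) 0 0^{m_{i+1} - m_i - 1}`, `L (0^i 1) = 0^{m_i} 1 ++ L' .. [] = L (0^i) 1 0^j` because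
`φ l` is pure for `q1 ε 1`. `ξ > ε`: `L' (l_i z) ξ z' σ` where `i` is the position of the first one of
`z ε` and `z' η = dropY (τ (l_i z) η).length (z η)` for `η < ε`, `z' ε = dropY (i+1) (z ε)`, `z' η = z η` for
`η > ε`. (`τ l ε = []` because its support is in `Iio ε`.) `exists_rep` gives `Φ`. `Pure (q1 ε 1) Φ`:
`L ε z [] = zs m_0`. For given `z` let `z ε = 0^i 1 y`, `l = l_i z`: choose a cone `ρ ∋ z` with
`ρ ε = 0^i 1`, supported in `Iic ε` and on `Iio ε` small enough, as in GL (so that `l_0, ..., l_i` are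
constant and `τ l ξ <+: ρ ξ` for `ξ < ε`), `lam ξ = (ρ ξ).drop (τ l ξ).length` for `ξ < ε`,
`lam ε = []`. -/
def G_INF : Prop := ∀ (I : Type) [LinearOrder I] (ε : I) (τ : ℕ → I → Str) (m : ℕ → ℕ)
  (φ : ℕ → Pt I → Pt I), (∀ l, (Sp (τ l)).Finite ∧ Sp (τ l) ⊆ Set.Iio ε) →
  (∀ z N, ∃ l, z ∈ B (τ l) ∧ N ≤ m l) →
  (∀ l, UD (Set.Iio ε) (φ l) ∧ Pure (q1 ε 1) (φ l)) →
  ∃ Φ : Pt I → Pt I, UD (Set.Iio ε) Φ ∧ Pure (q1 ε 1) Φ ∧
    ∃ A : Set I, A.Countable ∧ ∀ z, ∃ ρ : I → Str, (Sp ρ).Finite ∧ Sp ρ ⊆ A ∧ z ∈ B ρ ∧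
      ∃ (l : ℕ) (lam : I → Str), (Sp lam).Finite ∧
        Φ ∘ J ρ = J (τ l) ∘ J (at1 ε (zs (m l) ++ [true])) ∘ φ l ∘ J lam

/-- LOC. Localization: a map `χ` acting inside the cell `τ`.
Proof: let `L'` represent `χ`. Say that `z` is good below `ξ` if `Pre (τ η) (z η)` for all `η < ξ` (a
finite condition, `τ η = []` outside the finite set of the `η` with `q η ≠ 0`). Define
`L ξ z σ = σ` if `ξ ∉ D` and `z` is not good below `ξ`; if `z` is good below `ξ` or `ξ ∈ D` (then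
`τ η = []` for all `η ≤ ξ`): `L ξ z σ = τ ξ ++ L' ξ (strip τ z) (σ.drop (τ ξ).length)` if `τ ξ <+: σ`,
and `L ξ z σ = σ` otherwise. Laver map of strings: the only critical place is `σ ++ [b] = τ ξ` (then
`q ξ ≠ 0`): `L (τ ξ) = τ ξ ++ L' .. [] = τ ξ ++ zs j` since `χ` is pure for `p` and `p ξ = 1`. Local
constancy: being good below `ξ` is `LC (Iio ξ)`, and `strip τ z η` depends on `z η`. `exists_rep`
gives `χ'`. `χ' ∘ J τ = J τ ∘ χ`: compare representations (`J τ z` is good below every `ξ`,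
`strip τ (J τ z) = z`). Lower parts agree: on `D` we have `τ = []`. Purity at `ξ` with `q ξ ≠ 0`: for
`σ.length + 1 = q ξ` either `σ = τ ξ` and `L ξ z σ = τ ξ ++ zs j`, or `L ξ z σ = σ`. Purity at `ξ` with
`q ξ = 0`: `τ ξ = []`, `L ξ z σ = L' ξ _ σ` or `σ`. The last clause: if `¬ Pre (τ η) (z η)` then `L ξ z = id` for
`ξ > η`, `ξ ∉ D`, and for `ξ = η` either `z` is not good below `η`, or no initial segment of `z η` extends
`τ η`, so `L η z (res (z η) n) = res (z η) n` for all `n`. -/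
def G_LOC : Prop := ∀ (I : Type) [LinearOrder I] (D : Set I) (p q : I → ℕ) (τ : I → Str)
  (χ : Pt I → Pt I), IsLowerSet D → Fin0 q → (∀ ξ ∈ D, q ξ = 0) → (∀ ξ, q ξ ≠ 0 → p ξ = 1) →
  τ ∈ Cell q → Pure p χ →
  ∃ χ' : Pt I → Pt I, χ' ∘ J τ = J τ ∘ χ ∧ lo D χ' = lo D χ ∧
    Pure (fun ξ => if q ξ = 0 then p ξ else q ξ) χ' ∧
    ∀ z η, ¬ Pre (τ η) (z η) → ∀ ξ, η ≤ ξ → ξ ∉ D → χ' z ξ = z ξ

/-- TREE. Shifting the children of every node at `ε`.
Proof: define `Λ z : Str → Str` by recursion on the string (from the right): `Λ z [] = zs (k [] z)`,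
`Λ z (σ ++ [false]) = Λ z σ ++ [false]`, `Λ z (σ ++ [true]) = Λ z σ ++ true :: zs (k (Λ z σ ++ [true]) z)` (for
instance `List.foldl` over the string). `IsL (Λ z)`. `z ↦ Λ z σ` is `LC (Iio ε)` by induction on `σ`
(`LC.bind` with `β = Str`). `L ε z = Λ z`, `L ξ z = id` for `ξ ≠ ε`; `exists_rep`. -/
def G_TREE : Prop := ∀ (I : Type) [LinearOrder I] (ε : I) (k : Str → Pt I → ℕ),
  (∀ s, LC (Set.Iio ε) (k s)) → ∃ (Θ : Pt I → Pt I) (L : I → Pt I → Str → Str), IsRep L Θ ∧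
    UD (Set.Iio ε) Θ ∧ (∀ z, L ε z [] = zs (k [] z)) ∧
    (∀ z σ, L ε z (σ ++ [false]) = L ε z σ ++ [false]) ∧
    ∀ z σ, L ε z (σ ++ [true]) = L ε z σ ++ true :: zs (k (L ε z σ ++ [true]) z)

/-- FL. The limit of a fusion sequence.
Proof. Let `L l` represent `χ l`. For `j ≤ l` let `P j l = comps χ j (l - j) = χ j ∘ ... ∘ χ (l-1)`, with
the representation `LL j l` given by `IsRep.comp`: `LL j (l+1) ξ z σ = LL j l ξ (χ l z) (L l ξ z σ)`.
CLAIM, by induction on `ξ` (well-founded), for all `j`, `z`, `i`: `P j l z ξ i` is eventually constant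
for `l → ∞`. If no `χ l` moves the coordinate `ξ` (that is `χ l z ξ = z ξ` for all `l`, `z`), this is
clear. Otherwise `q l ξ → ∞` (monotone and unbounded). Suppose the claim holds for all `η < ξ`, and let
`ψ l z η` (`η < ξ`) be the limits; put `ψ l z η = z η` for `η ≥ ξ` for the moment. Given `z`, `j` and a string
`σ` choose `l₀ ≥ j` with `σ.length + 1 < q l₀ ξ`. For `l ≥ l₀` we have `L l ξ z' σ = σ` (`Pure.rep_lt`) for all
`z'`, so `LL j l ξ z σ = LL j l₀ ξ (P l₀ l z) σ` for all `l ≥ l₀` (induction on `l`). The function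
`LL j l₀ ξ · σ` is `LC (Iio ξ)`: it depends near `ψ l₀ z` only on finitely many bits of finitely many
coordinates `< ξ`, where `P l₀ l z` is eventually equal to `ψ l₀ z`. Hence `LL j l ξ z σ` is eventually constant, equal to
`LL j l₀ ξ (ψ l₀ z) σ`. Taking `σ = res (z ξ) (i+1)` gives the claim (`IsRep.val`). Now let `ψ j z ξ` be the
limit for all `ξ` (a function `ℕ → Bool`) and `LL' j ξ z σ` the limit of `LL j l ξ z σ`. It is a Laver map
of strings (limit of such: for `σ` and `σ ++ [b]` take `l` large), of countable support. Local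
constancy of `z ↦ LL' j ξ z σ = LL j l₀ ξ (ψ l₀ z) σ`: by induction on `ξ` the map `lo (Iio ξ) (ψ l₀)` is in the
monoid (it is represented by the `LL' l₀ η`, `η < ξ`, and `id` for `η ≥ ξ`), use `LC.comp`. So `LL' j`
represents a map, which is `ψ j` (its values are the limits). `ψ j = χ j ∘ ψ (j+1)`: pointwise, the bit
`i` at `ξ` of `χ j (P (j+1) l z)` is eventually `(χ j (ψ (j+1) z)) ξ i` by continuity (`IsM.cont`) and it is the bit of
`P j l z`. Purity: for `σ.length + 1 = q j ξ` every `LL j l ξ z σ` is `σ ++ zs _` (`Pure.comp`), hence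
the limit. -/
def G_FL : Prop := ∀ (I : Type) [LinearOrder I] [WellFoundedLT I] (χ : ℕ → Pt I → Pt I)
  (q : ℕ → I → ℕ), (∀ l, Pure (q l) (χ l)) → (∀ l ξ, q l ξ ≤ q (l + 1) ξ) →
  (∀ l z ξ, χ l z ξ ≠ z ξ → ∀ n, ∃ m, n ≤ q m ξ) →
  ∃ ψ : ℕ → Pt I → Pt I, ∀ j, Pure (q j) (ψ j) ∧ ψ j = χ j ∘ ψ (j + 1) ∧
    ∀ z ξ i, ∃ n₀, ∀ n, n₀ ≤ n → comps χ j n z ξ i = ψ j z ξ i

/-! ## Part B: reduction of dense sets, pure decision -/

/-- RES. The fusion principle for lower sets.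
Proof: apply the hypothesis to `Q' f := Q (lo D f)`. Dense: for `f` in the monoid `lo D f` is in
`MD D`, choose `g ∈ MD D` with `Q (lo D f ∘ g)` and use `lo_comp`, `MD.lo_eq`. Open: `lo_comp`. For the
resulting `f`: `lo D f` is in `MD D`, pure (`Pure.lo`), and if `Q (lo D (f ∘ J τ))` then
`lo D (f ∘ J τ) = lo D f ∘ J τ'` with `τ' = τ` on `D` and `[]` outside. -/
def G_RES : Prop := ∀ (I : Type) [LinearOrder I] (D : Set I) (q : I → ℕ), IsLowerSet D →
  FP Set.univ q → FP D q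

/-- FPS. The fusion principle for sequences.
Proof: build by recursion `χ j ∈ MD D` and `q j` with `q j` of finite support in `D`, `q 0 = q`,
`q j ≤ q (j+1)`, `χ j` pure for `q j`, such that, with `φ j = comps χ 0 j` (so `φ (j+1) = φ j ∘ χ j`),
`Cov D (φ (j+1)) (Q i)` for all `i ≤ j`: apply `FP D (q j)` to the set
`{g : ∀ i ≤ j, Q i (φ j ∘ g)}`, which is dense (finitely many steps) and open in `MD D`. Bookkeeping: for
every `l` choose a sequence `e l : ℕ → Option I` enumerating a countable set `A l ⊆ D` outside of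
which `χ l` is the identity (`IsRep.sup`; intersect with `D`); `q j ξ = max (q ξ) j` if `ξ` is one of the
`e l m`, `l, m < j`, and `q j ξ = q ξ` otherwise. (Then `q j ξ → ∞` for all `ξ` moved by some `χ l`.) FL gives
`ψ j` with `ψ j = χ j ∘ ψ (j+1)`; replace `ψ j` by `lo D (ψ j)` (again `χ j ∘ lo D (ψ (j+1))`, `lo_comp`). Then
`f = ψ 0 = φ (j+1) ∘ ψ (j+1)` for all `j`, so `Cov D f (Q j)` by `Cov.comp'`. -/
def G_FPS : Prop := ∀ (I : Type) [LinearOrder I] [WellFoundedLT I] (D : Set I), IsLowerSet D →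
  (∀ q, Fin0 q → (∀ ξ, ξ ∉ D → q ξ = 0) → FP D q) →
  ∀ q, Fin0 q → (∀ ξ, ξ ∉ D → q ξ = 0) → FPS D q

/-- The hypotheses on the two properties `P false`, `P true` in the rank argument. -/
structure Her {I : Type} [LinearOrder I] (P : Bool → (Pt I → Pt I) → Prop) : Prop where
  her : ∀ b f g, IsM f → P b f → IsM g → P b (f ∘ g)
  loc : ∀ b f, IsM f → Cov Set.univ f (P b) → P b f

/-- The node `s` at `ε` is good for `ψ`. -/
def Good {I : Type} [LinearOrder I] (ε : I) (P : Bool → (Pt I → Pt I) → Prop) (b : Bool)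
    (s : Str) (ψ : Pt I → Pt I) : Prop :=
  ∃ φ, UD (Set.Iio ε) φ ∧ Pure (q1 ε 1) φ ∧ P b (ψ ∘ J (at1 ε s) ∘ φ)

/-- The node `s` at `ε` is bad for `ψ`. -/
def Bad {I : Type} [LinearOrder I] (ε : I) (P : Bool → (Pt I → Pt I) → Prop) (b : Bool)
    (s : Str) (ψ : Pt I → Pt I) : Prop :=
  ∀ χ, MD (Set.Iio ε) χ → ¬ Good ε P b s (ψ ∘ χ)

/-- RL4. If a node is bad, then, after an extension, almost all its children are bad.
Proof: let `D = Iio ε`. First, `Good ε P b s ψ → Good ε P b s (ψ ∘ χ)` for `χ ∈ MD D`: `J (at1 ε s) ∘ χ =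
χ ∘ J (at1 ε s)` (`J_swap`), `φ ∘ χ = χ ∘ up D (φ ∘ χ)` (`UD.swap`, `Pure.swap`), so
`(ψ ∘ χ) ∘ J .. ∘ up D (φ ∘ χ) = (ψ ∘ J .. ∘ φ) ∘ χ`, use `her`. Suppose the conclusion fails:
`∀ χ ∈ MD D, ∀ i, ∃ m ≥ i, ¬ Bad ε P b (s ++ zs m ++ [true]) (ψ ∘ χ)`. Then for every `i` the set
`Q i χ := ∃ m ≥ i, Good ε P b (s ++ zs m ++ [true]) (ψ ∘ χ)` is dense and open in `MD D`. `FPS D 0` gives
`χ ∈ MD D` with `Cov D χ (Q i)` for all `i`; `Cov.enum` for every `i`: cones `τ i l`, numbers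
`m i l ≥ i`, maps `φ i l` with `P b (ψ ∘ χ ∘ J (τ i l) ∘ J (at1 ε (s ++ zs (m i l) ++ [true])) ∘ φ i l)`. Enumerate
the pairs `(i, l)` by one index (`Nat.unpair`); the hypothesis of INF holds: for `z`, `N` take `i = N`.
INF gives `Φ`. For every `z` some cone `ρ ∋ z` with `Φ ∘ J ρ = J (τ l) ∘ J (at1 ε (zs (m l) ++ [true])) ∘ φ l ∘ J lam`,
hence `ψ ∘ χ ∘ J (at1 ε s) ∘ Φ ∘ J ρ = (ψ ∘ χ ∘ J (τ l) ∘ J (at1 ε (s ++ zs (m l) ++ [true])) ∘ φ l) ∘ J lam` (the cone maps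
`J (at1 ε s)` and `J (τ l)` commute, having disjoint supports: `J_comp`), which has the property `P b` by
`her`. By `loc` `P b (ψ ∘ χ ∘ J (at1 ε s) ∘ Φ)`, so `Good ε P b s (ψ ∘ χ)`, contradicting `Bad`. -/
def G_RL4 : Prop := ∀ (I : Type) [LinearOrder I] (ε : I), FPS (Set.Iio ε) (fun _ => 0) →
  ∀ P : Bool → (Pt I → Pt I) → Prop, Her P → ∀ (b : Bool) (s : Str) (ψ : Pt I → Pt I),
  MD (Set.Iio ε) ψ → Bad ε P b s ψ → ∃ χ, MD (Set.Iio ε) χ ∧ ∃ i, ∀ m, i ≤ m →
    Bad ε P b (s ++ zs m ++ [true]) (ψ ∘ χ)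

/-- RL. The rank argument.
Proof: let `D = Iio ε` and suppose the conclusion fails for `ψ`: `∀ b, Bad ε P b [] ψ` (for `s = []`
`J (at1 ε []) = id`). `Bad` is preserved by `ψ ↦ ψ ∘ χ`, `χ ∈ MD D`. For every string `s` let
`Q s χ := (∀ χ' ∈ MD D, ¬ ∀ b, Bad ε P b s (ψ ∘ χ ∘ χ')) ∨ ∃ i, ∀ m ≥ i, ∀ b, Bad ε P b (s ++ zs m ++ [true]) (ψ ∘ χ)`.
It is dense (RL4 for `b = false` and then for `b = true`, take the larger `i`) and open in `MD D`.
`FPS D 0` for the countably many strings gives `χ ∈ MD D` with `Cov D χ (Q s)` for all `s`. Write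
`BD s z` for: some cone `τ ∋ z` with finite support in `D` satisfies `∀ b, Bad ε P b s (ψ ∘ χ ∘ J τ)`. `BD [] z` for all
`z`. For every `s` enumerate a cover by cones with `Q s (χ ∘ J (τ s l))` and let `k s z` be the number `i` of
the second alternative for the first `l` with `z ∈ B (τ s l)` (and `0` if the second alternative
fails); it is `LC D`. If `BD s z` then the first alternative fails at this `l` (take a common
refinement of the two cones, `cone_inter`), so `BD (s ++ zs m ++ [true]) z` for all `m ≥ k s z`. TREE gives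
`Θ`, `L` for `k`. By induction on `σ`: `L ε z σ = s ++ zs m` for some `s`, which is `[]` or ends with `true`, with
`BD s z` and `k s z ≤ m`. (`σ ++ [false]`: `m + 1`; `σ ++ [true]`: the new node `s' = s ++ zs m ++ [true]` satisfies
`BD s' z`, and `L ε z (σ ++ [true]) = s' ++ zs (k s' z)`.) Let `ω = ψ ∘ χ ∘ Θ`. By density there are `g`
in the monoid and `b` with `P b (ω ∘ g)`. Fix a point `z₀`, let `σ₀ = L_g ε z₀ []` (`L_g` a representation
of `g`), `ρ = lo D g`, `L ε (ρ z₀) σ₀ = s ++ zs m` with `BD s (ρ z₀)`. Choose a cone `κ` with finite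
support in `D`, `z₀ ∈ B κ`, such that on `B κ` the functions `L_g ε · []` and `z ↦ L ε (ρ z) σ₀` are constant
(both are `LC D`) and `∀ b, Bad ε P b s (ψ ∘ χ ∘ ρ ∘ J κ)` (`IsM.fact` for `ρ` and the cone in `BD s (ρ z₀)`). The
map `h = up D (Θ ∘ g ∘ J κ)` is in `UD D`; at `ε` its representation at `[]` is `L ε (..) σ₀ = s ++ zs m`
(compute the representation of `Θ ∘ g ∘ J κ` by `IsRep.comp`), so all its values are in the cone
`B (at1 ε s)`, and `IsM.strip` gives `h = J (at1 ε s) ∘ φ`, `φ ∈ UD D`, `Pure (q1 ε 1) φ`. Now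
`ω ∘ g ∘ J κ = ψ ∘ χ ∘ (Θ ∘ g ∘ J κ) = ψ ∘ χ ∘ (ρ ∘ J κ) ∘ h` (`IsM.lo_up`; the lower part of `Θ ∘ g ∘ J κ` is
`ρ ∘ J κ`), so `P b ((ψ ∘ χ ∘ ρ ∘ J κ) ∘ J (at1 ε s) ∘ φ)` by `her`: `Good ε P b s (ψ ∘ χ ∘ ρ ∘ J κ)`, a
contradiction. -/
def G_RL : Prop := ∀ (I : Type) [LinearOrder I] (ε : I), FPS (Set.Iio ε) (fun _ => 0) →
  ∀ P : Bool → (Pt I → Pt I) → Prop, Her P → (∀ f, IsM f → ∃ g b, IsM g ∧ P b (f ∘ g)) →
  ∀ ψ : Pt I → Pt I, MD (Set.Iio ε) ψ → ∃ χ, MD (Set.Iio ε) χ ∧ ∃ b φ, UD (Set.Iio ε) φ ∧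
    Pure (q1 ε 1) φ ∧ P b (ψ ∘ χ ∘ φ)

/-- FPST. The step of the induction for the fusion principle.
Proof. If `q ε = 0`, the support of `q` is in `Iio ε` and the hypothesis applies. Let `q ε = n + 1`,
`D = Iio ε`, `Q` dense and open in the monoid (`MD univ = IsM`). CLAIM: for `h` in the monoid and a
string `σ` of length `n` there is `χ`, pure for `q`, with `Cov univ (h ∘ χ ∘ J (at1 ε σ)) Q`. Proof of the
claim: let `P b f := Cov univ (h ∘ J (at1 ε σ) ∘ f) Q` for both `b`. `Her P`: `Cov.comp'` and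
`Cov.trans`. It is dense: `Q` is dense, `Cov.of`. By RL (FPS on `D` from RES, FPS and the hypothesis) the
set `Q' ψ := ∃ φ, UD D φ ∧ Pure (q1 ε 1) φ ∧ Cov univ (h ∘ J (at1 ε σ) ∘ ψ ∘ φ) Q` is dense in `MD D`;
it is open (`φ ∘ χ = χ ∘ up D (φ ∘ χ)`, as in RL4). `FP D (qon D q)` (RES and the hypothesis; the
function `qon D q` has support in `Iio ε`) gives `ψ ∈ MD D`, pure for `qon D q`, with `Cov D ψ Q'`. `Cov.enum` and GL
(`C = Unit`, `q = q1 ε 1`) give `Φ ∈ UD D`, pure for `q1 ε 1`, such that for every `z` some lower cone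
`ρ ∋ z` satisfies `Φ ∘ J ρ = J (τ l) ∘ φ l ∘ J lam`; so `h ∘ J (at1 ε σ) ∘ ψ ∘ Φ ∘ J ρ` has the property `Cov univ · Q`
(`Cov.comp'`), and `Cov univ (h ∘ J (at1 ε σ) ∘ ψ ∘ Φ) Q` by `Cov.trans`. LOC with
`D = Iio ε`, `q := q1 ε (n+1)`, `p := q1 ε 1`, `τ := at1 ε σ`, `χ := ψ ∘ Φ` (pure for `q1 ε 1` because `ψ ∈ MD D`) gives
`χ'`, pure for `q1 ε (n+1)`, with `χ' ∘ J (at1 ε σ) = J (at1 ε σ) ∘ ψ ∘ Φ` and `lo D χ' = lo D (ψ ∘ Φ) = ψ`, pure for
`qon D q`; hence `χ'` is pure for `q` (`Pure.of_lo_up`, `qoff D q = q1 ε (n+1)` since the support of `q`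
is in `Iic ε`). And `h ∘ χ' ∘ J (at1 ε σ) = (h ∘ J (at1 ε σ) ∘ ψ ∘ Φ)` up to associativity. The claim is proved.
Now treat the `2^n` strings `σ` of length `n` one after the other: `h_0 = id`, `h_{i+1} = h_i ∘ χ_i`. The property
`Cov univ (h ∘ J (at1 ε σ)) Q` for an earlier `σ` is preserved, since `χ_i ∘ J (at1 ε σ) = J (at1 ε σ) ∘ g` with `g` in
the monoid (`IsM.strip`, `Pure.bits` at `ε`). In the end `Cov univ (h ∘ J (at1 ε σ)) Q` for all `σ` of length
`n`; the cones `at1 ε σ` cover, so `Cov univ h Q` by `Cov.trans`; `h` is pure for `q`. -/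
def G_FPST : Prop := ∀ (I : Type) [LinearOrder I] [WellFoundedLT I] (ε : I),
  (∀ q, Fin0 q → (∀ ξ, ¬ ξ < ε → q ξ = 0) → FP Set.univ q) →
  ∀ q : I → ℕ, Fin0 q → (∀ ξ, ¬ ξ ≤ ε → q ξ = 0) → FP Set.univ q

/-- PD0. Pure decision, level one.
Proof by induction on the number of elements of `F = {ξ | q ξ ≠ 0}`. `F` empty: `c` is constant on some
cone (`LC_iff`), take `χ = J τ` (`J_pure`). Let `ε` be the largest element of `F`, `F' = F \ {ε}`,
`E = Iio ε`, `q' = 1` on `F'` and `0` elsewhere. Let `P b f := ∀ z, c (f z) = b`; `Her P` (for `loc`: every point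
is in a cone on which `c ∘ f` is `b`), and it is dense (`c ∘ f` is `LC univ` by `LC.comp`, hence constant on
a cone). By RL (its hypothesis `FPS E 0` is an instance of the first hypothesis here) the set
`Q ψ := ∃ b φ, UD E φ ∧ Pure (q1 ε 1) φ ∧ ∀ z, c (ψ (φ z)) = b` is dense in `MD E`; it is open (`UD.swap`,
`Pure.swap`). `FPS E q'` (constant sequence) gives `ψ ∈ MD E`, pure for `q'`, `Cov E ψ Q`; `Cov.enum` and
GL (`C = Unit`) give `Φ ∈ UD E`, pure for `q1 ε 1`, such that every `z` is in a cone `ρ` with finite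
support in a fixed countable subset of `E` and `c (ψ (Φ (J ρ w))) = b l` does not depend on `w`. So
`c' = c ∘ ψ ∘ Φ` is `LC E` (`LC_iff`). By the induction hypothesis for `c'` and `q'` there is `χ'`, pure for `q'`, with
`c' ∘ χ'` constant. Put `χ = ψ ∘ Φ ∘ lo E χ'`; `c' (lo E χ' z) = c' (χ' z)` because `c'` depends on `E` only
(`LC.dep`, `lo_in`). `χ` is pure for `q`: `ψ` and `lo E χ'` are pure for `q'` and in `MD E`, so they are pure for `q`
(representation from `IsRep.lo`: the identity at `ε`), `Φ` is pure for `q1 ε 1` and in `UD E`, so it is pure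
for `q`. -/
def G_PD0 : Prop := ∀ (I : Type) [LinearOrder I] [WellFoundedLT I],
  (∀ (D : Set I) (q : I → ℕ), IsLowerSet D → Fin0 q → (∀ ξ, ξ ∉ D → q ξ = 0) → FPS D q) →
  ∀ (q : I → ℕ) (c : Pt I → Bool), Fin0 q → (∀ ξ, q ξ ≤ 1) → LC Set.univ c →
    ∃ χ, Pure q χ ∧ ∃ b, ∀ z, c (χ z) = b

/-- PD. Pure decision of `k` bits on all cells.
Proof: it suffices to decide one bit on one cell, for every name: the set `Cell q` is finite
(`q` has finite support), and if `y · i` is constant on `B τ` after `χ` then also after `χ ∘ χ'`, `χ'` pure for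
`q` (`Pure.cell`, `Pure.comp`). One bit, one cell: let `χ` be the present map, `c z = y (χ (J τ z)) i`
(`LC univ` by `LC.comp`). PD0 for `c` and `min (q ξ) 1` gives `χ₁` with `c ∘ χ₁` constant. LOC with `D = ∅`,
`p = min (q ξ) 1`, `q`, `τ`, `χ₁` gives `χ'`, pure for `q`, `χ' ∘ J τ = J τ ∘ χ₁`, so `y (χ (χ' z)) i` is constant
for `z ∈ B τ` (the range of `J τ`). -/
def G_PD : Prop := ∀ (I : Type) [LinearOrder I] [WellFoundedLT I],
  (∀ (D : Set I) (q : I → ℕ), IsLowerSet D → Fin0 q → (∀ ξ, ξ ∉ D → q ξ = 0) → FPS D q) →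
  ∀ (q : I → ℕ) (y : Pt I → ℕ → Bool) (k : ℕ), Fin0 q → (∀ i, LC Set.univ (fun z => y z i)) →
    ∃ χ, Pure q χ ∧ ∀ τ ∈ Cell q, ∃ a : Str, ∀ z ∈ B τ, res (y (χ z)) k = a

end UL
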