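import Pool.Agent.Helper15.UL.GoalsA

/-!
# MP_57a173_lc: goals C (every new real decodes names over the lower part)

`HF`: the fusion principle for sequences, for all lower sets. `HPD`: pure decision. `HT`: the
decoding theorem (proof by helper46, see the docstring of `G_HT`).
-/

noncomputable section

namespace UL

open MeasureTheory

/-- The fusion principle holds for all lower sets. -/
def HF (I : Type) [LinearOrder I] : Prop :=
  ∀ (D : Set I) (q : I → ℕ), IsLowerSet D → Fin0 q → (∀ ξ, ξ ∉ D → q ξ = 0) → FPS D q

/-- Pure decision. -/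
def HPD (I : Type) [LinearOrder I] : Prop :=
  ∀ (q : I → ℕ) (y : Pt I → ℕ → Bool) (k : ℕ), Fin0 q → (∀ i, LC Set.univ (fun z => y z i)) →
    ∃ χ, Pure q χ ∧ ∀ τ ∈ Cell q, ∃ a : Str, ∀ z ∈ B τ, res (y (χ z)) k = a

/-- HFA. All fusion principles.
Proof: `FP univ q` for all `q` of finite support: by well-founded induction on `ε` all `q` with support
in `Iic ε` (FPST; its hypothesis: a `q` with finite support in `Iio ε` is either zero, or has a largest
element `ε'` of its support, `ε' < ε`). For `q = 0`: `FP univ 0`: density gives `f` with `Q f`, `Pure 0 f` is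
trivial, `Cov.of`. Then RES and FPS; PD0, PD. -/
def G_HFA : Prop := ∀ (I : Type) [LinearOrder I] [WellFoundedLT I], HF I ∧ HPD I

/-- LCD. Locally constant functions which depend only on `D`.
Proof: let `A` be a countable set for `LC univ f`; take `A ∩ D`. For `z` let `F ⊆ A`, `n` be given; use
`F ∩ D` and `n`: if `z'` agrees with `z` there, let `z'' = z'` on `D` and `z'' = z` outside `D`; `z''` agrees
with `z` on `F`, so `f z'' = f z`, and `f z'' = f z'`. -/
def G_LCD : Prop := ∀ (I : Type) (D : Set I) (β : Type) (f : Pt I → β), LC Set.univ f →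
  (∀ z z' : Pt I, (∀ ξ ∈ D, z ξ = z' ξ) → f z = f z') → LC D f

/-- MES. Measurability.
(1) For `LC univ f` every preimage is measurable: it is the union of the cones `B τ`, `τ` in the
countable set of cones with finite support in `A` (`countable_cones`), on which `f` is constant with value
in `s`; a cone is a finite intersection of coordinate conditions. (2) Maps in the monoid are
measurable: each bit `z ↦ f z ξ i` is `LC univ` (`IsM.cont`). (3) `strip τ` is measurable for finite
`Sp τ` (coordinatewise `dropY`). -/
def G_MES : Prop := ∀ (I : Type) [LinearOrder I],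
  (∀ (β : Type) (f : Pt I → β), LC Set.univ f → ∀ s : Set β, MeasurableSet (f ⁻¹' s)) ∧
  (∀ f : Pt I → Pt I, IsM f → Measurable f) ∧
  (∀ τ : I → Str, (Sp τ).Finite → Measurable (strip τ))

/-- What the decoding theorem says: if `x` is new over the coordinates in `D`, then there are `χ` in
the monoid and a Borel function `G` of `x` and of the lower part such that every `Z`, a real of the
lower part (given below any further extension `μ` of the lower part), can be coded into `x`: after
an extension `θ`, `G` computes `Z` from `x` and the lower part. (`G` does not depend on `μ` and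
`Z`.) -/
def HT (I : Type) [LinearOrder I] : Prop :=
  ∀ (D : Set I) (x : Pt I → ℕ → Bool), IsLowerSet D → (∀ i, LC Set.univ (fun z => x z i)) →
  New D x → ∃ χ, IsM χ ∧ ∃ G : (ℕ → Bool) → Pt I → ℕ → Bool,
    (∀ i, MeasurableSet {p : (ℕ → Bool) × Pt I | G p.1 p.2 i = true}) ∧
    (∀ x z z', (∀ ξ ∈ D, z ξ = z' ξ) → G x z = G x z') ∧
    ∀ μ, MD D μ → ∀ Z : Pt I → ℕ → Bool, (∀ i, LC D (fun z => Z z i)) →
      ∃ θ, IsM θ ∧ ∀ z i, G (x (χ (μ (θ z)))) (μ (θ z)) i = Z (θ z) i

/-- HT (helper46's proof, labelled positions).
STEP 1 (compact reading). There are `χ₀` in the monoid and finite sets `F 0 ⊆ F 1 ⊆ ...` of coordinates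
such that the bit `n` of `x (χ₀ z)` depends only on the first `n` bits of `z ξ`, `ξ ∈ F n`. (At the time
`n` PD for `q n = n + 1` on `F n`, `0` elsewhere, one bit more; bookkeeping and FL as in FPS: `ψ (n+1)` preserves
the cells of level `q n`.) So `x (χ₀ z) = φ z` where `φ u` is defined for all `u : I → ℕ → Bool`.
A finite point is a finite set `q` of pairs (coordinate not in `D`, position); `φ (w, q)` is the
value of `φ` at the point which is `w` on `D` and has ones exactly at `q` outside `D`.
STEP 2. `FPS D 0` gives `f ∈ MD D` such that for all finite points `q`, `q'` the first difference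
`Df q q' w` of `φ (f w, q)` and `φ (f w, q')` (`0` if they are equal) is `LC D`. (Open and dense: for a difference
finitely many bits matter.)
STEP 3. Indices `j : ℕ`: level `n = log 4 j`, `j = 4^n + i 2^n + v`, `v < 2^n` the code of a string of length
`n` (the label); every level is finite. `κ j w` is `LC D`, strictly increasing in `j`, and
`κ j w > Df q_T q_T' w` for all `T, T' ⊆ {0, ..., j-1}`, where `q_T (w)` has ones at the positions `κ j w` at the
coordinate number `i j`, `j ∈ T`. Let `idx` be an injection of the countable set `⋃ F n \ D` to `ℕ`.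
STEP 4. Given `μ`, `Z`: `E ∈ UD D` puts the `l`-th bit of `z ξ` (`ξ ∈ ⋃ F n \ D`, `i = idx ξ`) to the position
`κ (l + i, i, Z z | (l + i)) (μ z)`, zeros between.
STEP 5. By `FPS univ 0` and `New` there is `g` in the monoid such that `x (χ₀ (f (μ (E (g z)))))` is
different from `φ (f (μ (g z)), q)` for all `z` and all finite points `q`. `χ = χ₀ ∘ f`, `θ = E ∘ g`.
STEP 6 (decoding). Let `w = μ (g z)`, `y = Z (g z)`, `X = x (χ (μ (θ z)))`. For a string `v` of length `m` say
`(n, v) ∈ c w` iff there are a finite set `T` of indices `j` with `κ j w < m` and `y'` with `y' n = true` such that every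
label of an element of `T` is an initial segment of `y'` and `φ (f w, q_T) | m = v`. CLAIM: `y n = true` iff
`(n, X | m) ∈ c w` for all `m > n`. (=>) `T` = the ones of `E (g z)` outside `D` at positions `< m`, `y' = y`.
(<=) Suppose `y n = false`. Take `m > n` such that `X | m ≠ φ (f w, q_T0) | m` for all (finitely many) sets `T0` of
indices of level `≤ n`. Suppose `(n, X | m) ∈ c w` by `T'`, `y'`. Let `T` be the ones of `E (g z)` at positions `< m`;
`φ (f w, q_T) | m = X | m = φ (f w, q_T') | m`. Let `N ≤ n` be the first difference of `y`, `y'`; `T = T0 ∪ T1`,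
`T' = T0' ∪ T1'` (levels `≤ N`, levels `> N`). The labels of `T1` extend `y | (N+1)`, those of `T1'` extend
`y' | (N+1)`: `T1`, `T1'` are disjoint. List `T1 ∪ T1'` as `j 1 < ... < j r`,
`a l = T0 ∪ (T1 ∩ {j 1, ..., j l})`, `a' l = T0' ∪ (T1' ∩ {j 1, ..., j l})`. For all `l`
`φ (f w, q_(a l)) | m = φ (f w, q_(a' l)) | m`: otherwise let `d < m` be the first difference; `d < κ j` for `j ≥ j (l+1)`, so
adding the later ones does not change the bit `d`, and `φ (f w, q_T)`, `φ (f w, q_T')` differ at `d < m`, a
contradiction. At each step exactly one of `a l`, `a' l` changes, so `φ (f w, q_(a l)) | m` is constant in `l`: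
`X | m = φ (f w, q_T) | m = φ (f w, q_T0) | m`, a contradiction to the choice of `m`. -/
def G_HT : Prop := ∀ (I : Type) [LinearOrder I] [WellFoundedLT I], HF I → HPD I → HT I

end UL
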