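import Pool.Agent.Helper15.UL.EBase

/-!
# MP_57a173_lc: goals E (from the fusion principles and the decoding theorem to the dichotomy)

Read `EBase.lean` first: `Fc f a` (the condition `f` forces `a`; `Fc.comp`, `Fc.dense`, `Fc.inf_iff`,
`Fc.compl_iff`, `Fc.iInf_iff`, `Fc.iSup_iff`, `Fc.himp_iff`, `Fc.decide`, `Fc.loc`), `Dc ω a S` (below `ω` the truth
value `a` is decided by the set `S` of points; `Dc.comp`, `Dc.compl`, `Dc.gv`, `Dc.fc`), `pr ω`, `Inn`, `K2`,
`DepD`, `PF.map`, `at2`, `tv2`, `IOrd`.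
-/

noncomputable section

namespace UL

open Pool.Agent.Helper97.Ku NU MeasureTheory

/-! ## E1. Measurability, decision by points -/

/-- The measurable sets are generated by `𝒢` (in the form of an induction principle). -/
def GenBy {X : Type} [MeasurableSpace X] (𝒢 : Set (Set X)) : Prop :=
  ∀ C : Set X → Prop, C ∅ → (∀ S ∈ 𝒢, C S) → (∀ S, C S → C Sᶜ) →
    (∀ S : ℕ → Set X, (∀ n, C (S n)) → C (⋃ n, S n)) → ∀ S, MeasurableSet S → C S

/-- GEN. Induction principles for measurable sets.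
Proof: the product sigma-algebra is generated by the sets `{x | x j = true}` (on `Bool`: all sets are
`∅`, `{true}`, `{true}ᶜ`, `univ`; `MeasurableSpace.pi` is the supremum of the comaps; comaps of
`generateFrom`: `MeasurableSpace.comap_generateFrom`, `iSup_generateFrom`; products:
`MeasurableSpace.prod`, subtypes: comap). Then `MeasurableSpace.generateFrom_induction` or
`MeasurableSpace.induction_on_inter` is not needed: the sets with the property `C` form a
sigma-algebra containing the generators. -/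
def G_GEN : Prop :=
  (∀ I : Type, GenBy (X := Pt I) {S | ∃ ξ i, S = {z | z ξ i = true}}) ∧
  (∀ I : Type, GenBy (X := (ℕ → Bool) × Pt I) {S | (∃ n, S = {p | p.1 n = true}) ∨
    ∃ ξ i, S = {p | p.2 ξ i = true}}) ∧
  (∀ J : Type, GenBy (X := J → Bool) {S | ∃ j, S = {x | x j = true}}) ∧
  GenBy (X := (ℕ → Bool) × (ℕ → Bool)) {S | (∃ n, S = {p | p.1 n = true}) ∨
    ∃ n, S = {p | p.2 n = true}}

/-- BP. The Baire property.
Proof of the first part by GEN, for all `f`: the set `{z | z ξ i = true}`: `f z ξ i` is `LC univ` in `z` (`IsM.cont`), so it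
is constant on some cone `J τ`. Complement: clear. Countable union of `S n`: if for some `g`, `n` all
`f (g z)` are in `S n`, done. Otherwise, by the induction hypothesis for `f ∘ g`, the sets
`Q n g := ∀ z, f (g z) ∉ S n` are dense, and open; `HF` for `univ`, `q = 0` gives `g` with
`Cov univ g (Q n)` for all `n`, so no `f (g z)` is in any `S n`.
Second part: if it fails, then by the first part all `Q n` as above are dense and we get `g` such that
no `f (g z)` is in any `S n`; the space of points is not empty: a contradiction. -/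
def G_BP : Prop := ∀ (I : Type) [LinearOrder I] [WellFoundedLT I], HF I →
  (∀ S : Set (Pt I), MeasurableSet S → ∀ f, IsM f →
    ∃ g, IsM g ∧ ((∀ z, f (g z) ∈ S) ∨ ∀ z, f (g z) ∉ S)) ∧
  (∀ S : ℕ → Set (Pt I), (∀ n, MeasurableSet (S n)) → ∀ f, IsM f → (∀ z, ∃ n, f z ∈ S n) →
    ∃ g, IsM g ∧ ∃ n, ∀ z, f (g z) ∈ S n)

/-- DCC. The calculus of decided truth values.
Proof. (1) countable suprema. If `χ z ∈ ⋃ k, S k` for all `z`: by `Fc.iSup_iff` for every `g` use BP (second part, for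
`χ ∘ g` and the sets `S k`, enumerated by `ℕ`; if `κ` is empty there is nothing to prove since there are
points) to get `h`, `k` with `χ (g (h z)) ∈ S k` for all `z`. If no `χ z` is in the union, then `Fc (ω ∘ χ) (a k)ᶜ` for all
`k`, and `(⨆ a)ᶜ = ⨅ aᶜ`. (2) from (1) and `Dc.compl`. (3) induction on the formula with `Dc.compl`, (1), and
`PF.measurableSet_tr`. (4) `a ⊓ b`: (2) for `κ = Bool` or directly by BP. (5) `a ⇨ b = aᶜ ⊔ b`, `iffV`. -/
def G_DCC : Prop := ∀ (I : Type) [LinearOrder I] [WellFoundedLT I], HF I →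
  ∀ ω : Pt I → Pt I, IsM ω →
  (∀ (κ : Type) [Countable κ] (a : κ → BA I) (S : κ → Set (Pt I)), (∀ k, MeasurableSet (S k)) →
    (∀ k, Dc ω (a k) (S k)) → Dc ω (⨆ k, a k) {z | ∃ k, z ∈ S k} ∧
      Dc ω (⨅ k, a k) {z | ∀ k, z ∈ S k}) ∧
  (∀ (κ : Type) (a : κ → BA I) (S : κ → Set (Pt I)), (∀ k, MeasurableSet (S k)) →
    (∀ k, Dc ω (a k) (S k)) → ∀ c : PF κ, Dc ω (c.ev a) {z | c.tr (fun k => z ∈ S k)}) ∧
  (∀ (a b : BA I) (S T : Set (Pt I)), MeasurableSet S → MeasurableSet T → Dc ω a S → Dc ω b T →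
    Dc ω (a ⊓ b) {z | z ∈ S ∧ z ∈ T} ∧ Dc ω (a ⊔ b) {z | z ∈ S ∨ z ∈ T} ∧
    Dc ω (a ⇨ b) {z | z ∈ S → z ∈ T} ∧ Dc ω (iffV a b) {z | z ∈ S ↔ z ∈ T})

/-- REP. Countably many truth values can be represented by locally constant functions.
Proof: `Q k g := Fc (ω ∘ g) (v k) ∨ Fc (ω ∘ g) (v k)ᶜ` is dense (`Fc.decide`) and open in the monoid. `HF` for `univ`,
`q = 0` (and an enumeration of `κ`; if it is empty take `χ = id`) gives `χ` with `Cov univ χ (Q k)` for all
`k`. `Cov.enum`: cones `τ k l`; `x z k = true` iff for the first `l` with `z ∈ B (τ k l)` we have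
`Fc (ω ∘ χ ∘ J (τ k l)) (v k)`. `LC univ` (membership of `z` in finitely many cones is `LC`). `Dc`: for `χ'` with
`x (χ' z) k = true` for all `z` use `Fc.loc`: for `z` let `τ = τ k l` be the first cone containing `χ' z`, by
`IsM.fact` there is a cone `ρ ∋ z` with `χ' ∘ J ρ = J τ ∘ g`. Similarly for `false`. -/
def G_REP : Prop := ∀ (I : Type) [LinearOrder I] [WellFoundedLT I], HF I →
  ∀ (κ : Type) [Countable κ] (v : κ → BA I) (ω : Pt I → Pt I), IsM ω →
    ∃ χ, IsM χ ∧ ∃ x : Pt I → κ → Bool, (∀ k, LC Set.univ (fun z => x z k)) ∧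
      ∀ k, Dc (ω ∘ χ) (v k) {z | x z k = true}

/-- DEF. Every set of points defines a truth value below a condition.
Proof: let `a` be generated by all `ω ∘ χ` with `∀ z, χ z ∈ S` (`RO.cl`). If `∀ z, χ z ∈ S`, all extensions of `ω ∘ χ`
are among the generators. If `∀ z, χ z ∉ S` and some extension `ω ∘ χ ∘ g` forces `a`, then
`ω ∘ χ ∘ g ∘ h = ω ∘ χ'` with `∀ z, χ' z ∈ S`; `ω` is injective (`IsM.inj` for `univ`), so `χ' z = χ (g (h z)) ∉ S`,
a contradiction. -/
def G_DEF : Prop := ∀ (I : Type) [LinearOrder I] [WellFoundedLT I] (ω : Pt I → Pt I), IsM ω →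
  ∀ S : Set (Pt I), ∃ a : BA I, Dc ω a S

/-- TRU. Forced truth values become true at all points of an extension.
Proof: `Q k g := ∀ z, g z ∈ S k` is open; dense: for `g` BP gives `h` such that all `g (h z)` are in `S k` (then fine) or
all are outside, but then `Fc (ω ∘ g ∘ h) (a k)ᶜ`, a contradiction. `HF` for `univ`, `q = 0` and an enumeration of
`κ`. -/
def G_TRU : Prop := ∀ (I : Type) [LinearOrder I] [WellFoundedLT I], HF I →
  ∀ (κ : Type) [Countable κ] (a : κ → BA I) (S : κ → Set (Pt I)) (ω : Pt I → Pt I), IsM ω →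
    (∀ k, MeasurableSet (S k)) → (∀ k, Dc ω (a k) (S k)) → (∀ k, Fc ω (a k)) →
    ∃ g, IsM g ∧ ∀ k z, g z ∈ S k

/-- OPV. The value of `r ∈ open set coded by q`.
Proof: `basV r σ` is a finite infimum of `r i` or `(r i)ᶜ`, decided by `{z | Pre σ (x z)}` (DCC, `κ = Fin σ.length`); then
DCC for `⊓` and for the countable supremum over `σ`. -/
def G_OPV : Prop := ∀ (I : Type) [LinearOrder I] [WellFoundedLT I], HF I →
  ∀ (ω : Pt I → Pt I), IsM ω → ∀ (q : Str → BA I) (r : ℕ → BA I) (Q : Str → Set (Pt I))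
  (x : Pt I → ℕ → Bool), (∀ σ, MeasurableSet (Q σ)) →
  (∀ n, MeasurableSet {z | x z n = true}) → (∀ σ, Dc ω (q σ) (Q σ)) →
  (∀ n, Dc ω (r n) {z | x z n = true}) →
  Dc ω (opV q r) {z | ∃ σ, z ∈ Q σ ∧ Pre σ (x z)}

/-- INV. Members of the monoid are invertible in a Borel way.
Proof. Let `C` be the class of all `S` for which there is a measurable `T`, `DepD D T`, with `(x, ω z) ∈ T ↔ (x, z) ∈ S`; it is
closed under complements and countable unions. CLAIM: for `ξ ∈ D` and every string `σ` the set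
`{(x, z) | Pre σ (z ξ)}` is in `C`. By induction on `ξ` (well-founded): let `L` represent `ω`. By the induction hypothesis all cones
with finite support in `Iio ξ` are in `C`, so the sets `{(x, z) | L ξ z σ = t}` are in `C`: `z ↦ L ξ z σ` is `LC (Iio ξ)`, so this
is a countable union of such cones (`countable_cones`, `LC_iff`). Finally `Pre σ (z ξ)` iff for some `t`
`L ξ z σ = t` and `Pre t (ω z ξ)` (=>: `IsRep.preσ`; <=: if `σ' = res (z ξ) σ.length ≠ σ`, take the first
difference: `IsL.bit`, `IsL.mono'` show that `L ξ z σ` and `L ξ z σ'` differ at a common position). Now fix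
a point `z₀` and let `ρ z = z` on `D`, `z₀` outside. By GEN for all measurable `S'` the set
`{(x, z) | (x, ρ z) ∈ S'}` is in `C`: the generators are `{(x, z) | x n = true}` (take `T` the same), and
`{(x, z) | ρ z ξ i = true}`: for `ξ ∈ D` a finite union of sets `Pre σ (z ξ)`, `σ.length = i + 1`, for `ξ ∉ D` everything
or nothing. For `S` with `DepD D S` this set is `S`. -/
def G_INV : Prop := ∀ (I : Type) [LinearOrder I] [WellFoundedLT I] (D : Set I), IsLowerSet D →
  ∀ ω : Pt I → Pt I, IsM ω → ∀ S : Set ((ℕ → Bool) × Pt I), MeasurableSet S → DepD D S →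
    ∃ T : Set ((ℕ → Bool) × Pt I), MeasurableSet T ∧ DepD D T ∧
      ∀ x z, (x, ω z) ∈ T ↔ (x, z) ∈ S

/-- COD. Measurable sets are given by formulas.
Proof. (1) fix `z₀`, `ρ z = z` on `D`, `z₀` outside; by GEN all sets `{(x, z) | (x, ρ z) ∈ S'}`, `S'` measurable, are given by a
formula: `atom (inl n)`; for `ξ ∈ D` `atom (inr (⟨ξ, _⟩, i))`; constants: `or` of `atom (inl 0)` and its negation is always true.
(2) the same with `J → Bool`. -/
def G_COD : Prop :=
  (∀ (I : Type) (D : Set I) (S : Set ((ℕ → Bool) × Pt I)), MeasurableSet S → DepD D S →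
    ∃ c : PF (ℕ ⊕ (D × ℕ)), ∀ x z, (x, z) ∈ S ↔
      (c.map (Sum.map id (fun p : D × ℕ => ((p.1 : I), p.2)))).tr (tv2 x z)) ∧
  (∀ (J : Type) [Nonempty J] (S : Set (J → Bool)), MeasurableSet S →
    ∃ c : PF J, ∀ x, x ∈ S ↔ c.tr (fun j => x j = true))

/-- CDP. Countable dependence.
Proof. (1) By GEN: every measurable `S` satisfies `DepD A S` for a countable set `A`. (2) `z''= z` on `D`, `z'` outside. (3)
Induction on the formula. -/
def G_CDP : Prop :=
  (∀ (I : Type) (S : Set ((ℕ → Bool) × Pt I)), MeasurableSet S →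
    ∃ A : Set I, A.Countable ∧ DepD A S) ∧
  (∀ (I : Type) (A D : Set I) (S : Set ((ℕ → Bool) × Pt I)), DepD A S → DepD D S →
    DepD (A ∩ D) S) ∧
  (∀ (J : Type) (c : PF J), ∃ A : Set J, A.Countable ∧
    ∀ v v' : J → Prop, (∀ j ∈ A, v j ↔ v' j) → (c.tr v ↔ c.tr v'))

/-! ## E2. Case 1 of the dichotomy -/

/-- MIX. Mixing in a complete Boolean algebra.
Proof: by Zorn's lemma there is a maximal set `𝒜` of pairwise disjoint elements `b ≠ ⊥` for which there is `q b` with
`∀ i, b ≤ F i (q b)`. Its supremum is `⊤`: otherwise apply the hypothesis to the complement of the supremum. Let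
`q k = ⨆ b ∈ 𝒜, b ⊓ q b k`. For `b ∈ 𝒜`: `b ⊓ q k = b ⊓ q b k`, so `b ≤ b ⊓ F i (q b) ≤ F i q`. -/
def G_MIX : Prop := ∀ (L : Type) [CompleteBooleanAlgebra L] (K ι : Type) (F : ι → (K → L) → L),
  (∀ i q q' b, (∀ k, b ⊓ q k = b ⊓ q' k) → b ⊓ F i q ≤ F i q') →
  (∀ b, b ≠ ⊥ → ∃ b', b' ≤ b ∧ b' ≠ ⊥ ∧ ∃ q, ∀ i, b' ≤ F i q) → ∃ q, ∀ i, F i q = ⊤

/-- The position of the `n`-th one (`n = 0, 1, ...`). -/
def pos (y : ℕ → Bool) (n : ℕ) : ℕ := by
  classical exact Nat.nth (fun i => y i = true) n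

/-- `x` is in the `m`-th stage of the open set coded by `Q`. -/
def Stg (Q : Str → Prop) (m : ℕ) (x : ℕ → Bool) : Prop :=
  ∃ σ : Str, Encodable.encode σ < m ∧ Q σ ∧ Pre σ x

/-- The number of the stage for the `n`-th open set: `s n` if `n < s.length`, otherwise the position
of the `n`-th one of `y`. -/
def stn (y : ℕ → Bool) (s : List ℕ) (n : ℕ) : ℕ := (s[n]?).getD (pos y n)

/-- The code of the complement of the closed set of all `x` which are, for all `n`, in the stage
`stn y s n` of the `n`-th open set. -/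
def cof (Q : ℕ → Str → Prop) (y : ℕ → Bool) (s : List ℕ) (σ : Str) : Prop :=
  ∃ n, ∀ x : ℕ → Bool, Pre σ x → ¬ Stg (Q n) (stn y s n) x

/-- GDS. The closed sets are closed and measurable.
Proof. (1) `x ∈ Stg (Q n) m` depends only on finitely many bits of `x`: there are finitely many `σ` with code
`< m`. So if `x` is not in the stage, then for a long initial segment `σ` of `x` no `x' ⊇ σ` is. (2) Countable union
over `n`, over the value `m` of `stn (y p) s n` (a measurable function: `pos (y p) n = m` is a condition on finitely many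
bits of `y p`: `Nat.count`), and then a Boolean combination of finitely many conditions `Q p n σ'`,
`encode σ' < m` (whether some `x ⊇ σ` is in the stage given by the set of the `σ'` with `Q p n σ'`). -/
def G_GDS : Prop :=
  (∀ (Q : ℕ → Str → Prop) (y : ℕ → Bool) (s : List ℕ) (x : ℕ → Bool),
    (∃ σ, cof Q y s σ ∧ Pre σ x) ↔ ¬ ∀ n, Stg (Q n) (stn y s n) x) ∧
  (∀ (X : Type) [MeasurableSpace X] (Q : X → ℕ → Str → Prop) (y : X → Y),
    (∀ n σ, MeasurableSet {p | Q p n σ}) → (∀ i, MeasurableSet {p | y p i = true}) →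
    ∀ s σ, MeasurableSet {p | cof (Q p) (y p) s σ})

/-- POS. Positions of ones under Laver maps.
Proof. (1) Let `p` be the position of the `i`-th one of `y`, `σ = res y p`. `σ` has `i` ones, so `Λ σ` has
`i + k` ones, `k = (Λ []).count true` (`IsL.count`), and it is followed by a one (`IsL.bit`: `Λ σ ++ [true]` is an initial segment of
`Λ (σ ++ [true])`). So the `(i+k)`-th one of `x` is at the position `(Λ σ).length ≥ σ.length = p`
(`IsL.length_le`; `Nat.count`, `Nat.nth_count`). (2) For `i = 0`: the position is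
`(Λ (zs p)).length ≥ (Λ []).length = k [] ≥ f 0`. For `i > 0` let `σ ++ [true]` be the initial segment of `y` ending with
the `(i-1)`-th one: `(Λ (σ ++ [true])).length ≥ k (Λ σ ++ [true]) ≥ f i`, as `Λ σ ++ [true]` has `i` ones
(`Λ []` has no ones), and the position of the `i`-th one of `x` is at least this length. -/
def G_POS : Prop :=
  (∀ (Λ : Str → Str), IsL Λ → ∀ (y : Y) (x : ℕ → Bool), (∀ j, Pre (Λ (res y j)) x) →
    ∀ i, pos y i ≤ pos x (i + (Λ []).count true)) ∧
  (∀ (Λ : Str → Str) (k : Str → ℕ) (f : ℕ → ℕ), Λ [] = zs (k []) →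
    (∀ σ, Λ (σ ++ [false]) = Λ σ ++ [false]) →
    (∀ σ, Λ (σ ++ [true]) = Λ σ ++ true :: zs (k (Λ σ ++ [true]))) →
    (∀ s, f (s.count true) ≤ k s) → ∀ (y : Y) (x : ℕ → Bool), (∀ j, Pre (Λ (res y j)) x) →
    ∀ i, f i ≤ pos x i)

/-- C1L. The local part of case 1: `G_δ` sets become `F_σ` sets on the reals of the model given by the
coordinates `< α`.
Proof. REP for `q` (index `ℕ × Str`) gives `g` and `Q`, all bits `LC univ`; put `ω = ω₀ ∘ g`. Choose by `IOrd.bdd` (for
countable families) `β > α` above all coordinates on which the `Q · (n, σ)` depend. For `k : ℕ` let `s k : List ℕ` be the list with the number `k` (`Denumerable.ofNat`). Let `q' k σ` be a truth value with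
`Dc ω (q' k σ) {z | cof (Q z) (z β) (s k) σ}` (DEF). Now let `χ`, `x`, `r` be given. Let
`S = {z | ∀ n, ∃ σ, Q (χ z) n σ ∧ Pre σ (x z)}` (measurable); BP gives `h` with all `h z ∈ S` or all `h z ∉ S`. At a
condition `ω ∘ χ ∘ θ` we have (OPV, DCC, GDS (1), `Dc.comp`): `⨅ n, opV (q n) r` is decided by `{z | θ z ∈ S}` and
`⨆ k, (opV (q' k) r)ᶜ` by `{z | ∃ k, ∀ n, Stg (Q (χ (θ z)) n) (stn ((χ (θ z)) β) (s k) n) (x (θ z))}`, which is a subset. If all
`h z ∉ S`, `θ = h` works: both sets are empty. Let all `h z ∈ S`. `S` depends only on the coordinates `< β`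
(`x` on those `< α`, and `(χ z) ξ`, `ξ < β`, on `z` below `β`), so for `h' = lo (Iio β) h` all `h' z ∈ S`. Let
`f n z` be the least `m` with `Stg (Q (χ (h' z)) n) m (x (h' z))`; it is `LC (Iio β)`. Let `L` represent
`χ ∘ h'` and `k₀ z = (L β z []).count true`, `LC (Iio β)`. TREE for `β` and `k s z = f (s.count true + k₀ z) z` gives `Θ`; put
`θ = h' ∘ Θ`. For `z` let `y = (Θ z) β` and `y' = (χ (θ z)) β`; `Θ z` and `z` agree below `β`. By POS (2) `pos y i ≥ f (i + k₀ z) z`, by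
POS (1) `pos y' (i + k₀ z) ≥ pos y i`; so `pos y' n ≥ f n z` for `n ≥ k₀ z`. With the list
`s = (f 0 z, ..., f (k₀ z - 1) z)` all conditions `Stg (Q (χ (θ z)) n) (stn y' s n) (x (θ z))` hold. So both sets are
everything, and `iffV` is forced. -/
def G_C1L : Prop := ∀ (I : Type) [LinearOrder I] [WellFoundedLT I], HF I → IOrd I →
  ∀ (α : I) (q : ℕ → Str → BA I) (ω₀ : Pt I → Pt I), IsM ω₀ → ∃ g, IsM g ∧
    ∃ q' : ℕ → Str → BA I, ∀ χ, IsM χ → ∀ x : Pt I → ℕ → Bool,
    (∀ n, LC (Set.Iio α) (fun z => x z n)) → ∀ r : ℕ → BA I,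
    (∀ n, Dc (ω₀ ∘ g ∘ χ) (r n) {z | x z n = true}) →
    ∃ θ, IsM θ ∧ Fc (ω₀ ∘ g ∘ χ ∘ θ) (iffV (⨅ n, opV (q n) r) (⨆ n, (opV (q' n) r)ᶜ))

/-- C1. Case 1.
Proof: MIX with `K = ℕ × Str` and
`F i q' = (b ⊓ B i) ⇨ iffV (⨅ n, opV (q n) (r i)) (⨆ n, (opV (fun σ => q' (n, σ)) (r i))ᶜ)` (it is clear that
`F` is local: `b ⊓ opV q r = b ⊓ opV q' r` if `b ⊓ q σ = b ⊓ q' σ` for all `σ`, and so on). For `b₀ ≠ ⊥` let
`ω₀` force `b₀` (`Fc.ne_bot_iff`), C1L gives `g`, `q'`; let `b' = pr (ω₀ ∘ g)`. `b' ≤ F i q'`: by `pr_le` and `Fc.himp_iff` let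
`ω₀ ∘ g ∘ χ` force `b` and `B i`, hence `Inn α (r i)`; by density (`Fc.dense`): for `g'`, `Inn.exists` gives an extension with a
representation `x` of `r i` with `LC (Iio α)` bits, and `θ` of C1L forces `iffV`. -/
def G_C1 : Prop := ∀ (I : Type) [LinearOrder I] [WellFoundedLT I], HF I → IOrd I →
  ∀ (ι : Type) (B : ι → BA I) (r : ι → ℕ → BA I) (b : BA I) (α : I),
    (∀ i, b ≤ (B i ⇨ Inn α (r i))) → Sm B r b

/-! ## E3. Closing off -/

/-- PFC. The number of formulas.
Proof: `PF J` is a `WType` with the nodes `J ⊕ Unit ⊕ Unit` and the arities `Empty`, `Unit`, `ℕ`;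
`WType.cardinalMk_le_of_le'`, `Cardinal.continuum_power_aleph0`. -/
def G_PFC : Prop := ∀ J : Type, Cardinal.mk J ≤ Cardinal.continuum →
  Cardinal.mk (PF J) ≤ Cardinal.continuum

/-- MDC. The number of conditions.
Proof. For `f` with `MD D f` there is a countable set `A ⊆ D` with `f z ξ = z ξ` for `ξ ∉ A`, such that every
bit of `f z ξ`, `ξ ∈ A`, is `LC A` (`IsRep.sup`, `IsM.cont`). Let `e : ℕ → Option D` enumerate `A`. For a list `l` of pairs
`(k, σ)` let `z e l` be the point with the value `catY σ oneY` at `ξ` if `(k, σ)` is the first pair of `l` with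
`e k = some ξ`, and `oneY` elsewhere. The map `f ↦ (e, (l, k, i) ↦ the bit i of f (z e l) at the coordinate e k)` is
injective: by local constancy each bit at `ξ ∈ A` of `f z` is equal to the bit of `f (z e l)` for some `l` (depending
on `z`, and a common one for two given maps `f`, `f'` with the same `e`). The target
`(ℕ → Option D) × (List (ℕ × Str) × ℕ × ℕ → Bool)` has cardinality at most `2 ^ ℵ₀`. -/
def G_MDC : Prop := ∀ (I : Type) [LinearOrder I] (D : Set I), IsLowerSet D →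
  Cardinal.mk D ≤ Cardinal.continuum →
  Cardinal.mk {f : Pt I → Pt I // MD D f} ≤ Cardinal.continuum

/-- ORD. The well-ordered set.
Proof: `I = (Order.succ Cardinal.continuum).ord.ToType`, a regular cardinal. Initial segments have cardinality
`< succ 𝔠`. A family indexed by a set of cardinality `≤ 𝔠` is strictly bounded, because the cofinality is
`succ 𝔠`. `clo`: build by recursion on `ν < ω₁` elements `a ν > β₀` with `a ν > nx ξ` for all
`ξ ≤ a ν'`, `a ν > a ν'`, `ν' < ν` (there are at most `𝔠` conditions); let `α` be the least strict upper bound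
of all `a ν`. If `ξ < α` then `ξ ≤ a ν` for some `ν`, `nx ξ < a (ν+1) < α`. A countable subset of `Iio α` is below
some `a ν` (`ω₁` has uncountable cofinality), and `a (ν+1) < α`. -/
def G_ORD : Prop := ∃ (I : Type) (_ : LinearOrder I) (_ : WellFoundedLT I), IOrd I

/-- CLO. Closing off.
Proof: choose `μ (T, lam)`, `Z (T, lam)`. For `ξ : I` let `K ξ = (ℕ → PF (ℕ ⊕ (Iio ξ × ℕ))) × {lam // MD (Iio ξ) lam}`, a set of
cardinality at most `𝔠` (PFC, MDC, `IOrd.card`). For every `k ∈ K ξ` (with the formulas renamed by `PF.map`) the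
coordinates moved by `μ` and the coordinates on which `Z` depends form a countable set, which is bounded
(`IOrd.bdd`); by `IOrd.bdd` again there is a common strict bound `nx ξ` for all `k ∈ K ξ`. Let `α` be given by
`IOrd.clo`. For `lam ∈ MD (Iio α)` and `S j` let `ξ < α` be above the countable set of the coordinates moved by `lam`
and above the countable sets `A j ⊆ Iio α` with `DepD (A j) (S j)` (CDP). COD for `D = Iio ξ` gives the formulas `T' j`, `T j` is the
renamed formula. `μ (T, lam)` moves only coordinates `< nx ξ < α`, similarly for `Z`. -/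
def G_CLO : Prop := ∀ (I : Type) [LinearOrder I] [WellFoundedLT I], IOrd I →
  ∀ R : (ℕ → PF (ℕ ⊕ (I × ℕ))) → (Pt I → Pt I) → (Pt I → Pt I) → (Pt I → ℕ → Bool) → Prop,
  (∀ T lam, IsM lam → ∃ μ Z, IsM μ ∧ (∀ n, LC Set.univ (fun z => Z z n)) ∧ R T lam μ Z) →
  ∃ α : I, ∀ lam, MD (Set.Iio α) lam → ∀ S : ℕ → Set ((ℕ → Bool) × Pt I),
    (∀ j, MeasurableSet (S j) ∧ DepD (Set.Iio α) (S j)) →
    ∃ T : ℕ → PF (ℕ ⊕ (I × ℕ)), (∀ j x z, (x, z) ∈ S j ↔ (T j).tr (tv2 x z)) ∧
      ∃ μ Z, MD (Set.Iio α) μ ∧ (∀ n, LC (Set.Iio α) (fun z => Z z n)) ∧ R T lam μ Z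

/-! ## E4. Case 2 of the dichotomy -/

/-- CL2. What the failure of `K2` means.
Proof: for `T` there is `ρ` with `¬ pr ω ≤ X`, `X` the supremum. So `¬ Fc ω X` (`pr_le`), and `Fc.exists_compl`
gives `g` with `Fc (ω ∘ g) Xᶜ`. REP for `ρ` and `ω ∘ g` gives `χ`, `Z`; `μ = g ∘ χ`. -/
def G_CL2 : Prop := ∀ (I : Type) [LinearOrder I] [WellFoundedLT I], HF I →
  ∀ (ι : Type) (B : ι → BA I) (r : ι → ℕ → BA I) (ω : Pt I → Pt I), IsM ω → ¬ K2 B r (pr ω) →
  ∀ T : ℕ → PF (ℕ ⊕ (I × ℕ)), ∃ (μ : Pt I → Pt I) (Z : Pt I → ℕ → Bool), IsM μ ∧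
    (∀ n, LC Set.univ (fun z => Z z n)) ∧ ∃ ρ : ℕ → BA I, (∀ j, Dc (ω ∘ μ) (ρ j) {z | Z z j = true}) ∧
      Fc (ω ∘ μ) (⨆ i, (B i ⊓ ⨅ j, iffV (ρ j) ((T j).ev (at2 (r i)))))ᶜ

/-- CL3. The main computation of case 2.
Proof. `Fc.iSup_iff` gives `ψ₁` and `i` with `Fc (φ ∘ ψ₁) (B i)`, `Fc (φ ∘ ψ₁) (Inn α (r i))ᶜ`. REP for `r i` gives
`ψ₂` and `x` with `LC univ` bits, `Dc (φ ∘ ψ₁ ∘ ψ₂) (r i n) {z | x z n = true}`. `New (Iio α) x`: if all bits of
`x ∘ χ` are `LC (Iio α)`, then `φ ∘ ψ₁ ∘ ψ₂ ∘ χ` forces `Inn α (r i)` (`Dc.comp`, `Inn.of`), a contradiction. `HT` for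
`D = Iio α` gives `χ`, `G`. Let `ψ₃ = ψ₁ ∘ ψ₂ ∘ χ`, `lam = lo D ψ₃`, `ν = lo D (φ ∘ ψ₃)`. INV for `ν` and the sets
`{(x, w) | G x w j = true}` gives `S j` with `(x, ν w) ∈ S j ↔ G x w j = true`. Now let `T`, `μ`, `Z`, `ρ` be given.
The last clause of `HT` gives `θ`. Put `h = up D (up D ψ₃ ∘ μ) ∘ θ`. Then `φ ∘ lam ∘ μ ∘ h = φ ∘ ψ₃ ∘ μ ∘ θ`
(`IsM.lo_up`, `UD.swap`), call it `ω`. `ω` forces `B i`. `ρ j` is decided at `ω` by `{z | Z (h z) j = true}`, and
`Z (h z) j = Z (θ z) j` (`h z` and `θ z` agree on `D`, `LC.dep`). `r i n` is decided by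
`{z | x (χ (μ (θ z))) n = true}`, the generic bits by `ω z` (`Dc.gv`), so (DCC) `(T j).ev (at2 (r i))` by
`{z | (T j).tr (tv2 (x (χ (μ (θ z)))) (ω z))}`. This says `(x (χ (μ (θ z))), ω z) ∈ S j`; `ω z` and `ν (μ (θ z))` agree on `D`, so it
is equivalent to `G (x (χ (μ (θ z)))) (μ (θ z)) j = true`, i.e. `Z (θ z) j = true`. So the set deciding
`iffV (ρ j) ((T j).ev (at2 (r i)))` is everything. -/
def G_CL3 : Prop := ∀ (I : Type) [LinearOrder I] [WellFoundedLT I], HF I → HT I →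
  ∀ (ι : Type) (B : ι → BA I) (r : ι → ℕ → BA I) (φ : Pt I → Pt I) (α : I),
  Fc φ (⨆ i, (B i ⊓ (Inn α (r i))ᶜ)) → ∃ lam, MD (Set.Iio α) lam ∧
    ∃ S : ℕ → Set ((ℕ → Bool) × Pt I), (∀ j, MeasurableSet (S j) ∧ DepD (Set.Iio α) (S j)) ∧
    ∀ T : ℕ → PF (ℕ ⊕ (I × ℕ)), (∀ j x z, (x, z) ∈ S j ↔ (T j).tr (tv2 x z)) →
    ∀ (μ : Pt I → Pt I) (Z : Pt I → ℕ → Bool), MD (Set.Iio α) μ →
    (∀ n, LC (Set.Iio α) (fun z => Z z n)) → ∀ ρ : ℕ → BA I, (∀ j, Dc (φ ∘ lam ∘ μ) (ρ j) {z | Z z j = true}) →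
    ∃ h, IsM h ∧ Fc (φ ∘ lam ∘ μ ∘ h) (⨆ i, (B i ⊓ ⨅ j, iffV (ρ j) ((T j).ev (at2 (r i)))))

/-- CL4. Case 2: `K2` holds below some `b'`.
Proof: let `φ` force `b` (`Fc.ne_bot_iff`). Suppose `K2 B r b'` fails for all `b' ≤ b`, `b' ≠ ⊥`; in particular for
`pr (φ ∘ lam)`, `lam` in the monoid. By CL2 the hypothesis of CLO holds for `R T lam μ Z :=` the conclusion of CL2 for
`ω = φ ∘ lam`. CLO gives `α`, CL3 (for this `α`) gives `lam`, `S`, CLO gives `T`, `μ`, `Z`, `ρ`, CL3 gives `h`; `φ ∘ lam ∘ μ ∘ h` forces the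
supremum and its complement (`Fc.comp`, `Fc.not_both`). -/
def G_CL4 : Prop := ∀ (I : Type) [LinearOrder I] [WellFoundedLT I], HF I → HT I → IOrd I →
  ∀ (ι : Type) (B : ι → BA I) (r : ι → ℕ → BA I) (b : BA I), b ≠ ⊥ →
  (∀ α, b ≤ ⨆ i, (B i ⊓ (Inn α (r i))ᶜ)) → ∃ b', b' ≤ b ∧ b' ≠ ⊥ ∧ K2 B r b'

/-- The scheme of projective codes: `v` codes the graph of a function `w : ℕ → ℕ`, and the triple
`(x, a, w)` is in the closed set coded by `p`. -/
def Psi (x a p v : ℕ → Bool) : Prop := ∃ w : ℕ → ℕ,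
  (∀ n m, v (Nat.pair n m) = true ↔ w n = m) ∧
  ∀ n, p (Encodable.encode (res x n, res a n, (List.range n).map w)) = true

/-- PSM. `Psi` is measurable.
Proof: `Psi x a p v` iff for every `n` there is exactly one `m` with `v (pair n m) = true`, and for all `n` and all
lists `s : List ℕ` of length `n` with `v (pair i (s i)) = true` for all `i < n`, and all strings `t`, `u` with `res x n = t`,
`res a n = u`: `p (encode (t, u, s)) = true`. -/
def G_PSM : Prop := MeasurableSet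
  {q : (ℕ → Bool) × (ℕ → Bool) × (ℕ → Bool) × (ℕ → Bool) | Psi q.1 q.2.1 q.2.2.1 q.2.2.2}

/-- WIT. Borel sets have closed codes with unique measurable witnesses.
Proof. For a closed set `F` of triples `(x, a, w) : (ℕ → Bool) × (ℕ → Bool) × (ℕ → ℕ)` let `p c = true` iff
`c = encode (t, u, s)` and some `(x, a, w) ∈ F` extends `(t, u, s)`; then `(x, a, w) ∈ F` iff
`∀ n, p (encode (res x n, res a n, (List.range n).map w)) = true`. So it is enough to find a closed set `F` and a function `w`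
with `{(x, a) | w x a n = m}` measurable such that `(x, a, w x a) ∈ F` for `(x, a) ∈ R`, and `(x, a, w') ∉ F` for all `w'` if
`(x, a) ∉ R` (the witness in `Psi` is the code `v (pair n m) = true ↔ w x a n = m`). Let `C R` be: `R` and `Rᶜ` have this
property; use GEN. Clopen sets: `F = R × univ`, `w = 0`. Countable union of `R n` with `F n`, `w n`:
`F = {(x, a, w) | (x, a, i ↦ w (i+1)) ∈ F (w 0)}`, `w x a 0` = least `n` with `(x, a) ∈ R n` (`0` if there is none),
`w x a (i+1) = w n x a i`. Countable intersection: `F = {(x, a, w) | ∀ n, (x, a, i ↦ w (pair n i)) ∈ F n}`,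
`w x a (pair n i) = w n x a i`. -/
def G_WIT : Prop := ∀ R : Set ((ℕ → Bool) × (ℕ → Bool)), MeasurableSet R →
  ∃ (p : ℕ → Bool) (w : (ℕ → Bool) → (ℕ → Bool) → ℕ → Bool),
    (∀ n, MeasurableSet {q : (ℕ → Bool) × (ℕ → Bool) | w q.1 q.2 n = true}) ∧
    (∀ x a, (x, a) ∈ R → Psi x a p (w x a)) ∧ ∀ x a, (x, a) ∉ R → ∀ v, ¬ Psi x a p v

/-- The real computed by the formulas `T n` from `x` and the generic bits `g`. -/
def fT {J : Type} (T : ℕ → PF (ℕ ⊕ J)) (x : ℕ → Bool) (g : J → Bool) (n : ℕ) : Bool := by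
  classical exact decide ((T n).tr (Sum.elim (fun n => x n = true) (fun j => g j = true)))

/-- WFM. The formula of the diagonal argument.
Proof: COD (2) for `J' = (ℕ ⊕ ℕ) ⊕ J` and the set of all `u : J' → Bool` with `Psi ..` (with `x n = u (inl (inl n))` and
so on); it is measurable by PSM and `PF.measurableSet_tr` (all coordinates are measurable functions). -/
def G_WFM : Prop := ∀ (J : Type) (T : ℕ → PF (ℕ ⊕ J)), ∃ W : PF ((ℕ ⊕ ℕ) ⊕ J),
  ∀ (x x' : ℕ → Bool) (g : J → Bool),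
    W.tr (Sum.elim (Sum.elim (fun n => x n = true) (fun n => x' n = true))
      (fun j => g j = true)) ↔
    Psi x (fun n => fT T x g (2 * n + 1)) (fun n => fT T x g (2 * n)) (fT T x' g)

/-- DIAG. `K2` gives a Borel set whose projection is not Borel.
Proof. Let `T` be given by `K2`, `W` by WFM (`J = I × ℕ`). Let `c : PF (ℕ ⊕ (I × ℕ))`. By CDP (3) there is a sequence
`e : ℕ → I × ℕ` such that `c` depends only on the real and the generic bits `e n`. For `a : ℕ → Bool` let `ga a j = a k` for the least `k` with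
`e k = j`, `false` if there is none; `ga (n ↦ g (e n))` and `g` agree at all `e n`. Let
`R = {(x, a) | ¬ c.tr (Sum.elim x (ga a))}`, measurable; WIT gives `p`, `w`. Let `f` force `b` and let `g₀` be given, `ω₀ = f ∘ g₀`; by
`Fc.iSup_iff` we look for an extension `ω` of `ω₀` and `i` with `Fc ω (B i)` and `Fc ω (iffV X C)ᶜ`,
`X = ⨆ j, (B j ⊓ W.ev ..)`, `C = c.ev (at2 (r i))`. `K2` for `ρ (2n) = ⊤` or `⊥` according to `p n`, `ρ (2n+1) = gv (e n)` gives
an extension `ω₁` and `i` with `Fc ω₁ (B i)`, `Fc ω₁ (iffV (ρ j) ((T j).ev (at2 (r i))))` for all `j`. REP: an extension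
`ω₂` with a representation `x` of `r i`. TRU: an extension `ω₃` (and `x` for the composed function) such that for all `z`
`fT T (x z) (ω₃ z) (2n) = p n` and `fT T (x z) (ω₃ z) (2n+1) = ω₃ z (e n)` (`ω₃ z` as a function on `I × ℕ`); write
`a z n = ω₃ z (e n)`. BP: `ω₄` such that `c.tr (tv2 (x z) (ω₄ z))` for all `z`, or for no `z`.
Case 1: for all `z`, i.e. `(x z, a z) ∉ R`. `Fc ω₄ C` (DCC). For all `j` `Fc ω₄ (B j ⊓ W.ev ..)ᶜ`: otherwise some extension `ω₅` forces
`B j` and `W.ev ..`; after REP for `r j` (representation `x'`) and TRU we have `W.tr ..` at all points, so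
`Psi (x z) (a z) p (fT T (x' z) (ω z))`, contradicting WIT. So `Fc ω₄ Xᶜ`, and `Fc ω₄ (iffV X C)ᶜ`.
Case 2: for no `z`, i.e. `(x z, a z) ∈ R`. `Fc ω₄ Cᶜ`. Let `ρ' n` be a truth value with `Dc ω₄ (ρ' n) {z | w (x z) (a z) n = true}` (DEF).
`K2` for `ρ'` gives an extension `ω₅` and `j` with `Fc ω₅ (B j)` and `Fc ω₅ (iffV (ρ' n) ((T n).ev (at2 (r j))))` for all `n`; after REP for
`r j` (representation `x'`) and TRU: `fT T (x' z) (ω z) n = w (x z) (a z) n` for all `z`, `n`. So `W.tr ..` holds at all points,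
`W.ev ..` and `B j` are forced, hence `X`, hence `(iffV X C)ᶜ`. -/
def G_DIAG : Prop := ∀ (I : Type) [LinearOrder I] [WellFoundedLT I] [Nonempty I], HF I →
  ∀ (ι : Type) (B : ι → BA I) (r : ι → ℕ → BA I) (b : BA I), K2 B r b → Lg gv B r b

/-! ## E5. The two conditions of the interface -/

/-- SIGC. The Borel sets with codes in the ground model are closed under countable unions.
Proof. Let `φ` force `b`. `Q n g := ∃ c, Fc (φ ∘ g) (⨅ i, (B i ⇨ iffV (t n i) (c.ev (at2 (r i)))))` is dense (`Fc.iSup_iff`) and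
open in the monoid. `HF` for `univ`, `q = 0`: `g` with `Cov univ g (Q n)` for all `n`; `ω = φ ∘ g`. `Cov.enum`: cones `τ n k` covering all
points with formulas `c n k`. Let `S n k` be the set of all `z` for which `k` is the first index with
`z ∈ B (τ n k)`; it is measurable and `z ↦` this index is `LC univ`. INV (`D = univ`, sets not depending on `x`)
gives `T n k` with `ω z ∈ T n k ↔ z ∈ S n k`, COD gives formulas `d n k` (with atoms `inr`, for any `x`) with
`(d n k).tr (tv2 x (ω z)) ↔ z ∈ S n k`. Let `c` be the formula `⋁ n k, d n k ∧ c n k` (written with `or`, `neg`, `Nat.unpair`),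
`b' = pr ω`. To show `b' ≤ B i ⇨ iffV (⨆ n, t n i) (c.ev ..)`: let `ω ∘ χ` force `B i`; it is enough that it
forces `iffV (t n i) (⨆ k, (d n k).ev .. ⊓ (c n k).ev ..)` for all `n`. By `Fc.loc` (first index locally constant, `IsM.fact`) we may
restrict to a cone, where `χ z ∈ S n k` for all `z` and a fixed `k`. There `(d n k).ev ..` is forced and `((d n k').ev ..)ᶜ` for
`k' ≠ k` (after passing to an extension which represents `r i` by REP, use `Fc.dense`; DCC), and
`iffV (t n i) ((c n k).ev ..)` is forced because the condition is below `ω ∘ J (τ n k)`. -/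
def G_SIGC : Prop := ∀ (I : Type) [LinearOrder I] [WellFoundedLT I], HF I →
  SigC (BA I) (I × ℕ) gv

/-- DICH. The dichotomy.
Proof: for `α : I` let `b α = b ⊓ ⨅ i, (B i ⇨ Inn α (r i))`. If some `b α ≠ ⊥`, take `b' = b α` and C1. Otherwise
`b ≤ (⨅ i, (B i ⇨ Inn α (r i)))ᶜ = ⨆ i, (B i ⊓ (Inn α (r i))ᶜ)` for all `α`; CL4 gives `b'` with `K2`, DIAG. -/
def G_DICH : Prop := ∀ (I : Type) [LinearOrder I] [WellFoundedLT I], HF I → HT I → IOrd I →
  Dich (BA I) (I × ℕ) gv

end UL
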